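import Pool.Agent.Helper10.GO.Final
import Pool.Agent.Helper80.AD.All
import Pool.Agent.Helper32.HD.GAM
import Pool.Agent.Helper29.GO.PET
import Pool.Agent.Helper29.GO.LOG
import Pool.Agent.Helper30.GO.SATL
import Pool.Agent.Helper81.GO.HDF
import Pool.Agent.Helper90.GO.DIF
import Pool.Agent.Helper9.GO.TRN
import Pool.Agent.Helper98.GO.UPG
import Pool.Agent.Helper82.GO.NUMV
import Pool.Agent.Helper33.GO.NEAR
import Pool.Agent.Helper96.GO.ISO
import Pool.Agent.Helper16.GO.VOL
import Pool.Agent.Helper14.GO.VTRI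
import Pool.Agent.Helper12.GO.FEK
import Pool.Agent.Helper74.GO.RECK
import Pool.Agent.Helper86.GO.LLIP
import Pool.Agent.Helper94.GO.VSUB
import Pool.Agent.Helper35.GO.TRANS
import Pool.Agent.Helper91.GO.UPL
import Pool.Agent.Helper82.GO.EXU
import Pool.Agent.Helper61.GO.XALL
import Pool.Agent.Helper30.GO.UREL
import Pool.Agent.Helper9.GO.LINK
import Pool.Agent.Helper81.GO.GENA
import Pool.Agent.Helper98.GO.GENB
import Pool.Agent.Helper24.GO.QORB
import Pool.Agent.Helper57.GO.JD
import Pool.Agent.Helper40.GO.MAIND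

/-!
# Project GO (MP_6af536_nt): the composition of the packets.
-/

set_option autoImplicit false

open MvPolynomial Filter Topology

noncomputable section

namespace Pool.Agent.Helper10.GO

theorem facts : Facts := by
  have hTRN := Pool.Agent.Helper9.GO.trn
  have hDIF := Pool.Agent.Helper90.GO.dif Pool.Agent.Helper30.GO.satl Pool.Agent.Helper81.GO.hdf
  have hNEAR := Pool.Agent.Helper33.GO.near
  have hPET := Pool.Agent.Helper29.GO.pet
  have hISO := Pool.Agent.Helper96.GO.iso hTRN
  have hVTRI := Pool.Agent.Helper14.GO.vtri hPET hISO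
  have hHD := Pool.Agent.Helper80.AD.hdFacts
  exact
    { UREL := Pool.Agent.Helper30.GO.urel
      UPL := Pool.Agent.Helper91.GO.upl Pool.Agent.Helper32.HD.gam
      TRANS := Pool.Agent.Helper35.GO.trans Pool.Agent.Helper32.HD.gam
      RECK := Pool.Agent.Helper74.GO.reck hTRN hDIF hNEAR hISO hVTRI
      LLIP := Pool.Agent.Helper86.GO.llip hTRN hDIF hNEAR hISO
      JD := Pool.Agent.Helper57.GO.jd
      MAIND := Pool.Agent.Helper40.GO.maind
      VOL := Pool.Agent.Helper16.GO.vol hTRN hDIF Pool.Agent.Helper98.GO.upg Pool.Agent.Helper29.GO.log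
        Pool.Agent.Helper82.GO.numv hISO
      VSUB := Pool.Agent.Helper94.GO.vsub hPET hISO
      FEK := Pool.Agent.Helper12.GO.fek
      XALL := Pool.Agent.Helper61.GO.xall Pool.Agent.Helper82.GO.exu hHD.APX Pool.Agent.Helper13.AD.exa
      LINK := Pool.Agent.Helper9.GO.link hHD.SYM hHD.DEP hHD.RES hHD.HOM hHD.TDG hHD.CMP hHD.LHD
      GENA := Pool.Agent.Helper81.GO.gena
      GENB := Pool.Agent.Helper98.GO.genb
      QORB := Pool.Agent.Helper24.GO.qorb }

theorem go : S_GO := go_of facts

theorem gen : S_GEN := gen_of facts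

end Pool.Agent.Helper10.GO
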