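import Pool.Agent.Helper10.GO.DefsC
import Pool.Agent.Helper80.AD.GoalsA
import Pool.Agent.Helper80.AD.GoalsB

/-!
# Project GO (MP_6af536_nt), modules T (heights) and E (reduction to generic orbits).

Every `def S_XXX : Prop` is a packet.  The packets of the projects HD and AD (`Pool.Agent.Helper80.HD`, `Pool.Agent.Helper80.AD`) may be used; they are all proved (names: `HD/Final2.lean`, theorem `final2`, and `AD/All.lean`, theorem `hdFacts`).
-/

set_option autoImplicit false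

open MvPolynomial Filter Topology

noncomputable section

namespace Pool.Agent.Helper10.GO

open Pool.Agent.Helper80.HD Pool.Agent.Helper80.AD

/-! ## Module T -/

/-- PACKET TRANS (2 h; uses `S_GAM` of HD, proved: `Pool.Agent.Helper32.HD.gam`): from a section to the local inequality along the orbit.

PROOF.  For each `i` write `s (ξ q i)^b = P_i(ξ p, ξ q, ξ r)` with `P_i ∈ K[X, Y, W]` (three blocks of `N + 1` variables) trihomogeneous of degree `(A, B, E)` (an element of `sp(x)^A sp(y)^B sp(w)^E` is the value of such a polynomial: `Submodule.span_pow`, …).  `H_m = it Γ m`, forms of degree `δ^m`, `H_m(ξ n) = ξ (n + m)`.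
The polynomials `Q_i = P_i(H_p, H_q, H_r)` in `X` are forms of one degree, `Q_i(ξ 0) = s (ξ q i)^b`, so the forms `Q_i (H_q j)^b - Q_j (H_q i)^b` vanish at `ξ 0`, and for some `i₀` with `ξ q i₀ ≠ 0` (`ξ q ≠ 0` as in ISO), `Q_(i₀)(ξ 0) ≠ 0`.  Let `n` be large, `Y = cv (y n)`.  By `zero`, `nonzero`: `Q_i(Y) (H_q j (Y))^b = Q_j(Y) (H_q i (Y))^b` for all
`i, j` and `Q_(i₀)(Y) ≠ 0`.  Iterating `step` (homogeneity of `Γ`): `H_m(Y) = c_m · cv (y (n+m))`, `c_m ≠ 0`, for `m = p, q, r`.  With `y_p = y (n+p)` etc. `P_i(y_p, y_q, y_r) = λ Q_i(Y)`, `λ = c_p^(-A) c_q^(-B) c_r^(-E)`.  So `P_i(y_p,y_q,y_r) (y_q)_j^b = P_j(y_p,y_q,y_r) (y_q)_i^b`; choose `j` with `(y_q)_j = 1` (`BV`): `g = P_j(y_p,y_q,y_r) ∈ F`,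
`P_i(y_p,y_q,y_r) = g (y_q)_i^b` for all `i`, `g ≠ 0` because of `i₀`.
Let `v` be a place, and let `α_p` be a coordinate of `y_p` with `v(α_p) = vn v y_p` maximal, etc.  `P_i(y_p,y_q,y_r) = α_p^A α_q^B α_r^E P_i(y_p/α_p, y_q/α_q, y_r/α_r)`, all coordinates of the arguments have absolute value `≤ 1`; GAM for the finite set of the `P_i`: `v(P_i(y_p,y_q,y_r)) ≤ Γ₀ (vn v y_p)^A (vn v y_q)^B (vn v y_r)^E`.
With `i` such that `v((y_q)_i) = vn v y_q`: `v(g) (vn v y_q)^b ≤ …`; take logarithms (`cst F Γc Γ' v` is `log Γc(v|K)` for nonarchimedean `v`, and `Γ'` for `v = ‖ι ·‖`, which is not nonarchimedean; `Γc = Γ₀`, `Γ' = 1 + log Γ₀'`; apply GAM with `Ω = F`, `w = v`, resp. with `K → F → ℂ`; see `Pool/Agent/Helper42/AD/LOCF.lean` for a model). -/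
def S_TRANS : Prop := ∀ (K : Type) [Field K] [NumberField K] [Algebra K ℂ] (F : IntermediateField K ℂ) (N δ : ℕ)
  (Γ : Fin (N + 1) → MvPolynomial (Fin (N + 1)) K) (ξ : ℕ → Fin (N + 1) → ℂ) (y : ℕ → BV F N),
  GenOrb K F N δ Γ ξ y → ∀ p q r A b B E : ℕ, Sec K ξ p q r A b B E →
    ∃ (Γc : AbsoluteValue K ℝ → ℝ) (Γ' : ℝ), GoodGam K Γc ∧ 1 ≤ Γ' ∧ ∀ᶠ n in atTop, ∃ g : F, g ≠ 0 ∧
      ∀ v : Place F, Real.log (v.1 g) ≤ A * hV F (y (n + p)) v + B * hV F (y (n + q)) v +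
        E * hV F (y (n + r)) v - b * hV F (y (n + q)) v + cst F Γc Γ' v

/-- PACKET UPL (1 h; uses `S_GAM` of HD, proved: `Pool.Agent.Helper32.HD.gam`): the upper bound for one step.

PROOF.  `g = c`: some coordinate of `y'` is `1`, so `c = G l j (y) ∈ F`.  For a place `v`, `α` a coordinate of `y` with `v(α) = vn v y`: `c y'_j = G l j (y) = α^(δ l) G l j (y/α)`, and GAM for the finite set of the `G l j`: `v(c) vn v y' ≤ Γ₀ (vn v y)^(δ l)`.  Take logarithms.  (See TRANS for `cst`.) -/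
def S_UPL : Prop := ∀ (K : Type) [Field K] [NumberField K] [Algebra K ℂ] (N r : ℕ) (δ : Fin r → ℕ)
  (G : Fin r → Fin (N + 1) → MvPolynomial (Fin (N + 1)) K), (∀ l j, (G l j).IsHomogeneous (δ l)) →
    ∃ (Γc : AbsoluteValue K ℝ → ℝ) (Γ' : ℝ), GoodGam K Γc ∧ 1 ≤ Γ' ∧
      ∀ (F : IntermediateField K ℂ) (l : Fin r) (y y' : BV F N) (c : ℂ), c ≠ 0 →
        (∀ j, aeval (cv y.1) (G l j) = c * cv y'.1 j) → ∃ g : F, g ≠ 0 ∧ ∀ v : Place F,
          Real.log (v.1 g) ≤ δ l * hV F y v - hV F y' v + cst F Γc Γ' v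

/-- PACKET EXU (1 h): the exact functional is unique.

PROOF.  `S(Y) = ∑_i D(Y ∘ i.succAbove)`.  `deg` with `m = 1`, `a = ![1,-2]` and `![-1,2]`, `b = ![sq b, b]`, `t = 0`, `p = 0`: `D (update z l (sq b)) = 2 D (update z l b)`; `pos` with the same data: `E (cons (sq b) z) = 2 E (cons b z)`, and by `symE` the same in every slot; the same for `E'`.  So `E (sq^[j] ∘ Y) = 2^(j(k+1)) E Y`, `E'` too, and `S(sq^[j] ∘ Y) = 2^(jk) S(Y)`.
`cmp` for both: `2^(j(k+1)) |E Y - E' Y| ≤ (C + C') S(sq^[j] ∘ Y) = (C + C') 2^(jk) S(Y)` for all `j`; `j → ∞`.  (`Pool/Agent/Helper13/AD/EXA.lean` contains most of the lemmas.) -/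
def S_EXU : Prop := ∀ (k : ℕ) (B P : Type) (h : B → P → ℝ) (cst cst' : P → ℝ) (Pr : AddSubgroup (P → ℝ))
  (sq : B → B) (E₀ : (Fin (k + 1) → B) → ℝ) (D : (Fin k → B) → ℝ) (G G' : ℝ)
  (E E' : (Fin (k + 1) → B) → ℝ) (C C' : ℝ), (∀ b v, h (sq b) v = 2 * h b v) →
    ExData k h cst Pr E₀ D G E C → ExData k h cst' Pr E₀ D G' E' C' → E = E'

/-- PACKET XALL (1 h; uses EXU and `S_APX`, `S_EXA` of AD): one exact functional for all constants.

PROOF.  `Γ₁ = 1`, `Γ₁' = 0` are good constants.  APX for them: `sq`, `D`, and EXA: `E`, `C`.  For any other `Γc, Γ'`: APX gives `sq', D'` with `bd F i Y = D'(Y ∘ i.succAbove)` too, so `D' = D` (for `Z : Fin k → BV F M` take `Y = Fin.cons y₀ Z`, `i = 0`); EXA: `E'`, `C'`; and `E' = E` by EXU with `sq` (`ApxData.sqh`). -/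
def S_XALL : Prop := ∀ (K : Type) [Field K] [NumberField K] [Algebra K ℂ] (F : IntermediateField K ℂ) (k M : ℕ)
  [Nonempty (BV F M)], F.FG → Algebra.trdeg K F = k →
    ∃ (E : (Fin (k + 1) → BV F M) → ℝ) (D : (Fin k → BV F M) → ℝ),
      (∀ (Y : Fin (k + 1) → BV F M) (i : Fin (k + 1)), (bd F i Y : ℝ) = D (fun s => Y (i.succAbove s))) ∧
      ∀ (Γc : AbsoluteValue K ℝ → ℝ) (Γ' : ℝ), GoodGam K Γc → 0 ≤ Γ' →
        ∃ C : ℝ, ExData k (hV F) (cst F Γc Γ') (Pr F) (E₀ F) D (gt K Γc Γ') E C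

/-- PACKET UREL (1.2 h): relations for `E + ∑ D` in one slot.

PROOF.  For `b : B`, `(update Y i b) ∘ i.succAbove = Y ∘ i.succAbove`, so `UU E D (update Y i b) - D(Y ∘ i.succAbove) = E (update Y i b) + ∑_(l ≠ i) D((update Y i b) ∘ l.succAbove)`.  `E (update Y i b) = E (cons b (Y ∘ i.succAbove))` (`symE` for the cyclic permutation, `i.cycleRange`; see `bdeg_eq` in `Pool/Agent/Helper80/HD/Final.lean`), so
`0 ≤ ∑_j a_j E (update Y i (b j)) + t G D(Y ∘ i.succAbove)` (`pos`).  For `l ≠ i`, `(update Y i b) ∘ l.succAbove = update (Y ∘ l.succAbove) l' b`, `l.succAbove l' = i`, so `0 ≤ ∑_j a_j D((update Y i (b j)) ∘ l.succAbove)` (`deg`).  Add up. -/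
def S_UREL : Prop := ∀ (k : ℕ) (B P : Type) (h : B → P → ℝ) (cst : P → ℝ) (Pr : AddSubgroup (P → ℝ))
  (E₀ : (Fin (k + 1) → B) → ℝ) (D : (Fin k → B) → ℝ) (G : ℝ) (E : (Fin (k + 1) → B) → ℝ) (C : ℝ),
  ExData k h cst Pr E₀ D G E C → ∀ (m : ℕ) (a : Fin (m + 1) → ℤ) (b : Fin (m + 1) → B) (t : ℤ) (p : P → ℝ),
    p ∈ Pr → (∀ v, p v ≤ ∑ j, (a j : ℝ) * h (b j) v + t * cst v) →
      ∀ (Y : Fin (k + 1) → B) (i : Fin (k + 1)),
        0 ≤ ∑ j, (a j : ℝ) * (UU E D (Function.update Y i (b j)) - D (fun s => Y (i.succAbove s))) +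
          t * G * D (fun s => Y (i.succAbove s))

/-- PACKET LINK (1.2 h; uses `arithDeg_cmp` of `Pool/Agent/Helper80/HD/Final.lean` with its hypotheses `S_SYM, S_DEP, S_RES, S_HOM, S_TDG, S_CMP, S_LHD` of HD): comparison with the arithmetic degree.  Model: the second half of `fin0` in `Pool/Agent/Helper80/AD/Fin0.lean`.

PROOF.  `arithDeg K k x n = arithDeg K k (fun n => cv (y n).1) n`: the ratios of `x n` and of `cv (y n)` are the same, and `Vanishes K z Q` does not change if the vectors `z i` are multiplied by nonzero numbers, so the predicates `IsRes K z` are equal and `resForm` is the same.  For `x' = fun n => cv (y n).1`: `arithDeg_cmp` compares `arithDeg` with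
`E₀ F (fun _ => y n) + D (fun _ => y n)` (`DD F x' (fun _ => n) = D (fun _ => y n)` by `bdeg_eq` and the hypothesis on `bd`), and `UU E D (fun _ => y n) = E (fun _ => y n) + (k+1) D (fun _ => y n)`, `|E - E₀| ≤ C (k+1) D`, `E₀ ≥ 0` (LHD). -/
def S_LINK : Prop := ∀ (K : Type) [Field K] [NumberField K] [Algebra K ℂ] (F : IntermediateField K ℂ) (k N : ℕ)
  (x : ℕ → Fin (N + 1) → ℂ) (y : ℕ → BV F N) (D : (Fin k → BV F N) → ℝ) (E : (Fin (k + 1) → BV F N) → ℝ) (C : ℝ),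
  F = ratioField K (x 0) → Algebra.trdeg K F = k → (∀ n, ∃ c : ℂ, c ≠ 0 ∧ ∀ j, x n j = c * cv (y n).1 j) →
  (∀ (Y : Fin (k + 1) → BV F N) (i : Fin (k + 1)), (bd F i Y : ℝ) = D (fun s => Y (i.succAbove s))) →
  (∀ Y, 0 ≤ E Y) → (∀ Z, 1 ≤ D Z) →
  (∀ Y, |E Y - E₀ F Y| ≤ C * ∑ i : Fin (k + 1), D (fun s => Y (i.succAbove s))) →
    ∃ C₁ : ℝ, 1 ≤ C₁ ∧ ∀ n, UU E D (fun _ => y n) ≤ C₁ * arithDeg K k x n ∧
      arithDeg K k x n ≤ C₁ * UU E D (fun _ => y n)

/-! ## Module E -/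

/-- PACKET GENA (2 h): a generic arithmetic progression and its generic point.

PROOF.  `I_(a,b)` = set of the polynomials `Q` all of whose homogeneous components `Q_d` satisfy `Q_d(x (a n + b)) = 0` for all large `n`; it is an ideal of `K[X_0, …, X_N]` (finitely many components; the components of `Q R` are `∑ Q_d R_e`).  `K[X]` is Noetherian: choose `(a, b)`, `a ≥ 1`, such that `I_(a,b)` is maximal among all `I_(a',b')`, `a' ≥ 1`.
Dichotomy: let `E` be a form with `E(x (a n + b)) = 0` for infinitely many `n`.  By DML there are `p ≥ 1`, `n₀`; choose `n₁` with `a n₁ + b ≥ n₀` and `E(x(a n₁ + b)) = 0`; then `E(x(a p n + (a n₁ + b))) = 0` for all `n` (steps of `a p`, a multiple of `p`), so `E ∈ I_(ap, an₁+b)`, which contains `I_(a,b)`, so is equal to it: `E ∈ I_(a,b)`, i.e. `E(x (a n + b)) = 0` for all large `n`.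
So `𝔭 = I_(a,b)` is a homogeneous ideal such that for forms `E, E'`: `E E' ∈ 𝔭` implies `E ∈ 𝔭` or `E' ∈ 𝔭` (otherwise `E, E' ≠ 0` at `x (a n + b)` for all large `n`); it is prime (`Ideal.IsHomogeneous.isPrime_of_homogeneous_mem_or_mem`; `1 ∉ 𝔭`), and some `X i ∉ 𝔭` because `x n ≠ 0` (if all `X i ∈ 𝔭` then `x (a n + b) = 0` for large `n`).
Generic point: `Q = Frac(K[X]/𝔭)` is finitely generated over the countable field `K`.  There is a `K`-embedding `Q → ℂ`: a (finite) transcendence basis of `Q/K` can be mapped to an algebraically independent family of `ℂ/K` (`Pool.Agent.Helper69.HD.genex` for `F = ⊥`, or cardinality), and `ℂ` is algebraically closed (`IsAlgClosed.lift`).  `ξ j` = image of `X j`; `Q(ξ) = 0` iff `Q ∈ 𝔭`. -/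
def S_GENA : Prop := ∀ (K : Type) [Field K] [NumberField K] [Algebra K ℂ] (N : ℕ) (x : ℕ → Fin (N + 1) → ℂ),
  (∀ n, x n ≠ 0) → DML K x → ∃ (a b : ℕ) (ξ : Fin (N + 1) → ℂ), 1 ≤ a ∧ ξ ≠ 0 ∧
    ∀ (d : ℕ) (E : MvPolynomial (Fin (N + 1)) K), E.IsHomogeneous d →
      (aeval ξ E = 0 → ∀ᶠ n in atTop, aeval (x (a * n + b)) E = 0) ∧
      (aeval ξ E ≠ 0 → ∀ᶠ n in atTop, aeval (x (a * n + b)) E ≠ 0)

/-- PACKET GENB (1.8 h): one formula for the iterate.

PROOF.  Say that the pair (sequence `z n`, form-point `η`) is generic if for every form `E`: `E(η) = 0` implies `E(z n) = 0` for large `n`, and `E(η) ≠ 0` implies `E(z n) ≠ 0` for large `n`.  All `x n` are in `X` (`Mem`; by `maps`: `E(G_l(x)) = 0` and `G_l(x) = c y`, `c ≠ 0`, `E` homogeneous, so `E(y) = 0`).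
Step: let `z n = x (a n + b')` be generic with point `η`.  For every `n` some formula `l` has `G_l(z n) = c · x (a n + b' + 1)`, `c ≠ 0`; there are finitely many `l`, so some `l` and some `j` have `G l j (z n) ≠ 0` for infinitely many `n`, so `G l j (η) ≠ 0` and `G l j (z n) ≠ 0` for all large `n`; by `agree` (with the formula used by `IsImage`) `G_l(z n)` is a nonzero multiple of
`x (a n + b' + 1)` for all large `n`.  For a form `E` of degree `e`, `E(x(a n + b' + 1)) = 0` iff `(E ∘ G_l)(z n) = 0`, and `E ∘ G_l` is a form: so `n ↦ x (a n + b' + 1)` is generic with the point `G_l(η)`.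
After `a` steps: a composition `Γ` of formulas, forms of one degree, with `Γ(x (a n + b)) = c x (a n + a + b)`, `c ≠ 0`, for all large `n`.  If its degree is `0` multiply it by `X i` with `ξ₀ i ≠ 0` (then `X i` does not vanish at `x (a n + b)` for large `n`): degree `δ ≥ 1`.
`ξ 0 = ξ₀`, `ξ (n+1) = Γ(ξ n)`.  `same` for `n = 1`: `E(ξ 1) = (E ∘ Γ)(ξ₀) = 0` iff `(E ∘ Γ)(x (a n + b)) = 0` for large `n` iff `E(x (a(n+1) + b)) = 0` for large `n` iff `E(ξ₀) = 0`.  In general `E(ξ (n+1)) = (E ∘ Γ)(ξ n)`, which is `0` iff `(E ∘ Γ)(ξ₀) = 0` (induction, `E ∘ Γ` is a form of degree `e δ`) iff `E(ξ 1) = 0` iff `E(ξ₀) = 0`. -/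
def S_GENB : Prop := ∀ (K : Type) [Field K] [Algebra K ℂ] (N : ℕ) (f : QMap K N) (x : ℕ → Fin (N + 1) → ℂ)
  (a b : ℕ) (ξ₀ : Fin (N + 1) → ℂ), f.IsOrbit x → 1 ≤ a → ξ₀ ≠ 0 →
  (∀ (d : ℕ) (E : MvPolynomial (Fin (N + 1)) K), E.IsHomogeneous d →
    (aeval ξ₀ E = 0 → ∀ᶠ n in atTop, aeval (x (a * n + b)) E = 0) ∧
    (aeval ξ₀ E ≠ 0 → ∀ᶠ n in atTop, aeval (x (a * n + b)) E ≠ 0)) →
  ∃ (δ : ℕ) (Γ : Fin (N + 1) → MvPolynomial (Fin (N + 1)) K) (ξ : ℕ → Fin (N + 1) → ℂ), ξ 0 = ξ₀ ∧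
    GenAP K N δ Γ ξ x a b

/-- PACKET QORB (0.6 h): orbits of a rational map.

PROOF.  (1) `maps`: `E(G_l(x)) = 0`, `G_l(x) = c y`, so `c^d E(y) = 0`.  (2) `y_i / y_j = G_l,i(x)/G_l,j(x)`; divide numerator and denominator by `x_p^(deg l)`, `x_p ≠ 0`: polynomials over `K` in the ratios `x_j/x_p`.  (See `Pool/Agent/Helper73/HD/ORB.lean`.)  (3), (4) induction. -/
def S_QORB : Prop := ∀ (K : Type) [Field K] [Algebra K ℂ] (N : ℕ) (f : QMap K N),
  (∀ x y, f.Mem x → f.IsImage x y → f.Mem y) ∧ (∀ x y, f.IsImage x y → x ≠ 0 → ratioField K y ≤ ratioField K x) ∧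
  ∀ x : ℕ → Fin (N + 1) → ℂ, f.IsOrbit x → (∀ n, f.Mem (x n)) ∧
    ∀ n m, n ≤ m → ratioField K (x m) ≤ ratioField K (x n)

end Pool.Agent.Helper10.GO
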