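import Pool.Agent.Helper10.GO.GoalsP

/-!
# Project GO (MP_6af536_nt), module P2: the same as module P with a weaker hypothesis.

The polynomial map is étale only at the points of the orbit, in the form: there is a polynomial `u` with
`u(x n) * (jac f).det(x n) = 1` for all `n`.  (This covers the étale self-maps of affine varieties.)
-/

set_option autoImplicit false

open MvPolynomial Filter Topology

noncomputable section

namespace Pool.Agent.Helper10.GO

/-- PACKET CHN2: as CHN (2), along an orbit.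

PROOF.  CHN (1) gives `jac (pit f (m+1)) = (jac f).map (aeval (pit f m)) * jac (pit f m)`; evaluate the determinants at
`a n`: `det (pit f (m+1)) (a n) = (jac f).det (a (n + m)) * det (pit f m) (a n)` with CHN (3); induction on `m`. -/
def S_CHN2 : Prop := ∀ (R : Type) [CommRing R] (N : ℕ) (f : Fin N → MvPolynomial (Fin N) R) (a : ℕ → Fin N → R),
  (∀ n i, a (n + 1) i = eval (a n) (f i)) → (∀ n, IsUnit (eval (a n) (jac f).det)) →
    ∀ n m : ℕ, IsUnit (Matrix.of fun i j => eval (a n) (pderiv j (pit f m i))).det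

/-- PACKET LIN2 (uses CHN, CHN2, TAY, AFP): the same proof as LIN (CHN (2) is used there only at the points of the orbit). -/
def S_LIN2 : Prop := ∀ (p : ℕ) [Fact p.Prime] (N : ℕ) (f : Fin N → MvPolynomial (Fin N) ℤ_[p])
  (a : ℕ → Fin N → ℤ_[p]), (∀ n, IsUnit (eval (a n) (jac f).det)) → (∀ n i, a (n + 1) i = eval (a n) (f i)) →
    ∃ n₀ M : ℕ, 1 ≤ M ∧ ∀ r : ℕ, ∃ (b : Fin N → ℤ_[p]) (H : Fin N → MvPolynomial (Fin N) ℤ_[p])
      (y : ℕ → Fin N → ℤ_[p]), (∀ i, ∃ Q : MvPolynomial (Fin N) ℤ_[p], H i = X i + C (p : ℤ_[p]) * Q) ∧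
        (∀ n i, y (n + 1) i = eval (y n) (H i)) ∧ ∀ n i, a (n₀ + r + M * n) i = b i + p * y n i

/-- PACKET PDM2 (uses LIN2, INT, STR): the same proof as PDM. -/
def S_PDM2 : Prop := ∀ (p : ℕ) [Fact p.Prime] (N : ℕ) (f : Fin N → MvPolynomial (Fin N) ℤ_[p])
  (a : ℕ → Fin N → ℤ_[p]) (φ : MvPolynomial (Fin N) ℤ_[p]), 3 ≤ p → (∀ n, IsUnit (eval (a n) (jac f).det)) →
    (∀ n i, a (n + 1) i = eval (a n) (f i)) → EvPer fun n => eval (a n) φ = 0

/-- PACKET ETD2 (uses EMB, PDM2): the same proof as ETD (with the coefficients of the given polynomial `u` in `S`). -/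
def S_ETD2 : Prop := ∀ (K : Type) [Field K] [Algebra K ℂ] (N : ℕ) (f : Fin N → MvPolynomial (Fin N) K)
  (u : MvPolynomial (Fin N) K) (x : ℕ → Fin N → ℂ) (φ : MvPolynomial (Fin N) K),
    (∀ n, aeval (x n) u * aeval (x n) (jac f).det = 1) →
    (∀ n i, x (n + 1) i = aeval (x n) (f i)) → EvPer fun n => aeval (x n) φ = 0

end Pool.Agent.Helper10.GO
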