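import Pool.Agent.Helper80.HD.Stmt

/-!
# Project GO (MP_6af536_nt): the definitions used in the final statement.

`K` is a number field inside `ℂ` (`[Algebra K ℂ]`).  A point of `ℙ^N(ℂ)` is given by a nonzero vector `x : Fin (N+1) → ℂ`.
The irreducible closed subvarieties `V` of dimension `k` of `ℙ^N`, defined over `K`, are the `K`-closures of the points `x`
such that the field `K(x) = ratioField K x` generated by the ratios of the coordinates has transcendence degree `k`
over `K`.  `arithDeg K k x n` is `[K(x_0) : K(x_n)] (h(V_n) + deg V_n)` (`Pool/Agent/Helper80/HD/Stmt.lean`).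
-/

set_option autoImplicit false

open MvPolynomial Filter Topology

noncomputable section

namespace Pool.Agent.Helper10.GOS

open Pool.Agent.Helper80.HD

/-- A projective set `X ⊂ ℙ^N` over `K` together with a rational self-map over `K`, given by finitely many tuples of
forms (which may all vanish at some points of `X`: the points where the map is not defined). -/
structure RatMap (K : Type) [Field K] [Algebra K ℂ] (N : ℕ) where
  /-- equations of `X` -/
  eqs : Set (MvPolynomial (Fin (N + 1)) K)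
  eqs_homog : ∀ E ∈ eqs, ∃ d, E.IsHomogeneous d
  /-- number of formulas -/
  r : ℕ
  /-- the degrees of the formulas -/
  deg : Fin r → ℕ
  /-- `x ↦ (G l 0 (x) : … : G l N (x))` -/
  G : Fin r → Fin (N + 1) → MvPolynomial (Fin (N + 1)) K
  G_homog : ∀ l j, (G l j).IsHomogeneous (deg l)
  /-- the formulas agree -/
  agree : ∀ x : Fin (N + 1) → ℂ, x ≠ 0 → (∀ E ∈ eqs, aeval x E = 0) → ∀ l l' i j,
    aeval x (G l i) * aeval x (G l' j) = aeval x (G l j) * aeval x (G l' i)
  /-- the values are in `X` -/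
  maps : ∀ x : Fin (N + 1) → ℂ, x ≠ 0 → (∀ E ∈ eqs, aeval x E = 0) → ∀ l, ∀ E ∈ eqs,
    aeval (fun j => aeval x (G l j)) E = 0

variable {K : Type} [Field K] [Algebra K ℂ] {N : ℕ}

/-- `x ∈ X` -/
def RatMap.Mem (f : RatMap K N) (x : Fin (N + 1) → ℂ) : Prop := x ≠ 0 ∧ ∀ E ∈ f.eqs, aeval x E = 0

/-- `f` is defined at `x` and `y = f(x)` in `ℙ^N`: some formula takes at `x` a value which is a nonzero multiple of `y`. -/
def RatMap.IsImage (f : RatMap K N) (x y : Fin (N + 1) → ℂ) : Prop :=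
  y ≠ 0 ∧ ∃ l, ∃ c : ℂ, c ≠ 0 ∧ ∀ j, aeval x (f.G l j) = c * y j

/-- `x 0, x 1, …` is an orbit in `X` (so `f` is defined at all `x n`). -/
def RatMap.IsOrbit (f : RatMap K N) (x : ℕ → Fin (N + 1) → ℂ) : Prop :=
  f.Mem (x 0) ∧ ∀ n, f.IsImage (x n) (x (n + 1))

/-- a set of natural numbers is eventually periodic -/
def EvPer (P : ℕ → Prop) : Prop := ∃ p : ℕ, 1 ≤ p ∧ ∃ n₀ : ℕ, ∀ n, n₀ ≤ n → (P n ↔ P (n + p))

/-- Every homogeneous equation over `K` holds at an eventually periodic set of times. -/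
def DML (K : Type) [Field K] [Algebra K ℂ] {N : ℕ} (x : ℕ → Fin (N + 1) → ℂ) : Prop :=
  ∀ (d : ℕ) (E : MvPolynomial (Fin (N + 1)) K), E.IsHomogeneous d → EvPer fun n => aeval (x n) E = 0

/-- `y` is in the `K`-closure of `{x 0, x 1, …}` -/
def InClosure (K : Type) [Field K] [Algebra K ℂ] {N : ℕ} (x : ℕ → Fin (N + 1) → ℂ) (y : Fin (N + 1) → ℂ) : Prop :=
  y ≠ 0 ∧ ∀ (d : ℕ) (E : MvPolynomial (Fin (N + 1)) K), E.IsHomogeneous d → (∀ n, aeval (x n) E = 0) → aeval y E = 0

/-- For `U = {y ∈ X : some P c is not 0 at y}`: `f(U) ⊂ U` and `f` is unramified on `U` (on the affine cones: the differential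
of a formula of `f`, defined at `y`, is injective on the tangent space of the cone of `X` at `y`). -/
def UnrOn (f : RatMap K N) {ι : Type} (P : ι → MvPolynomial (Fin (N + 1)) K) : Prop :=
  ∀ y : Fin (N + 1) → ℂ, f.Mem y → (∃ c, aeval y (P c) ≠ 0) →
    ∃ l, (∃ c', aeval (fun j => aeval y (f.G l j)) (P c') ≠ 0) ∧
      ∀ v : Fin (N + 1) → ℂ, (∀ i, ∑ j, aeval y (pderiv j (f.G l i)) * v j = 0) →
        (∀ (d : ℕ) (E : MvPolynomial (Fin (N + 1)) K), E.IsHomogeneous d → (∀ z, f.Mem z → aeval z E = 0) →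
          ∑ j, aeval y (pderiv j E) * v j = 0) → v = 0

/-- The progression `x b, x (a + b), x (2 a + b), …` is generic on the closed set with the generic point `η`: a form over
`K` vanishes at all its points with finitely many exceptions if it vanishes at `η`, and only at finitely many of them
otherwise. -/
def GenericAt (K : Type) [Field K] [Algebra K ℂ] {N : ℕ} (η : Fin (N + 1) → ℂ) (x : ℕ → Fin (N + 1) → ℂ)
    (a b : ℕ) : Prop :=
  ∀ (d : ℕ) (E : MvPolynomial (Fin (N + 1)) K), E.IsHomogeneous d →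
    (aeval η E = 0 → ∀ᶠ n in atTop, aeval (x (a * n + b)) E = 0) ∧
    (aeval η E ≠ 0 → ∀ᶠ n in atTop, aeval (x (a * n + b)) E ≠ 0)

/-- `D` is, up to constant factors, the sequence `A`. -/
def Cmp (D A : ℕ → ℝ) : Prop := ∃ c₁ c₂ : ℝ, 0 < c₁ ∧ 0 < c₂ ∧ ∀ n, c₁ * A n ≤ D n ∧ D n ≤ c₂ * A n

end Pool.Agent.Helper10.GOS
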