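import Pool.Agent.Helper10.GO.AllP
import Pool.Agent.Helper10.GO.Stmt

/-!
# Project GO (MP_6af536_nt): the final statement with the definitions of `Stmt.lean`.
-/

set_option autoImplicit false

open MvPolynomial Filter Topology

noncomputable section

namespace Pool.Agent.Helper10.GOS

open Pool.Agent.Helper80.HD

/-- the same map -/
def RatMap.toQ {K : Type} [Field K] [Algebra K ℂ] {N : ℕ} (f : RatMap K N) : Pool.Agent.Helper10.GO.QMap K N where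
  eqs := f.eqs
  eqs_homog := f.eqs_homog
  r := f.r
  deg := f.deg
  G := f.G
  G_homog := f.G_homog
  agree := f.agree
  maps := f.maps

theorem final (K : Type) [Field K] [NumberField K] [Algebra K ℂ] (N : ℕ) (f : RatMap K N) :
    (∀ (k : ℕ) (x : ℕ → Fin (N + 1) → ℂ), f.IsOrbit x → Algebra.trdeg K (ratioField K (x 0)) = k →
      (DML K x ∨ (∀ y, InClosure K x y → Algebra.trdeg K (ratioField K y) ≤ (k : Cardinal) + 1) ∨
        ∃ (r : ℕ) (P : Fin r → MvPolynomial (Fin (N + 1)) K), (∀ c, ∃ e : ℕ, 1 ≤ e ∧ (P c).IsHomogeneous e) ∧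
          (∃ c, aeval (x 0) (P c) ≠ 0) ∧ UnrOn f P) →
      ∃ α : ℝ, (1 ≤ α ∨ α = 0 ∧ ∀ᶠ n in atTop, arithDeg K k x n = 0) ∧ ∀ D : ℕ → ℝ, Cmp D (arithDeg K k x) →
        Tendsto (fun n : ℕ => D n ^ (1 / (n : ℝ))) atTop (𝓝 α)) ∧
    ∀ (a : ℕ) (η : Fin (N + 1) → ℂ), 1 ≤ a → η ≠ 0 →
      ∃ M : Finset ℝ, (M.card : Cardinal) ≤ Algebra.trdeg K (ratioField K η) ∧ (∀ m ∈ M, 0 < m) ∧
        ∀ (k b : ℕ) (x : ℕ → Fin (N + 1) → ℂ), f.IsOrbit x → Algebra.trdeg K (ratioField K (x 0)) = k →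
          GenericAt K η x a b →
          (∀ᶠ n in atTop, arithDeg K k x n = 0) ∨ ∃ l : Fin (k + 1) → ℝ, (∀ i, l i ∈ insert 1 M) ∧
            ∀ D : ℕ → ℝ, Cmp D (arithDeg K k x) →
              Tendsto (fun n : ℕ => D n ^ (1 / (n : ℝ))) atTop (𝓝 ((∏ i, l i) ^ (1 / (a : ℝ)))) :=
  Pool.Agent.Helper10.GO.res K N f.toQ

end Pool.Agent.Helper10.GOS
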