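import Mathlib

/-!
# Project GO (MP_6af536_nt): common definitions of the algebraic part.
-/

set_option autoImplicit false

open MvPolynomial Filter Topology

noncomputable section

namespace Pool.Agent.Helper10.GO

/-- the `K`-span of the coordinates of `x` -/
def sp (K : Type) {L : Type} [Field K] [Field L] [Algebra K L] {N : ℕ} (x : Fin (N + 1) → L) : Submodule K L :=
  Submodule.span K (Set.range x)

/-! ## Multigraded Hilbert functions -/

/-- the degree of the variable `(i, j)` is the `i`-th unit vector -/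
def bw (r N : ℕ) : Fin r × Fin (N + 1) → (Fin r → ℕ) := fun p => Pi.single p.1 1

/-- the multihomogeneous polynomials of multidegree `β` -/
abbrev mh (K : Type) [Field K] (r N : ℕ) (β : Fin r → ℕ) : Submodule K (MvPolynomial (Fin r × Fin (N + 1)) K) :=
  weightedHomogeneousSubmodule K (bw r N) β

/-- the ideal is multihomogeneous -/
def MH {K : Type} [Field K] {r N : ℕ} (I : Ideal (MvPolynomial (Fin r × Fin (N + 1)) K)) : Prop :=
  ∀ Q ∈ I, ∀ β : Fin r → ℕ, weightedHomogeneousComponent (bw r N) β Q ∈ I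

/-- the Hilbert function of `K[X] / I` -/
def HF {K : Type} [Field K] {r N : ℕ} (I : Ideal (MvPolynomial (Fin r × Fin (N + 1)) K)) (β : Fin r → ℕ) : ℤ :=
  (Module.finrank K (mh K r N β) : ℤ) -
    Module.finrank K ((Submodule.restrictScalars K I ⊓ mh K r N β : Submodule K (MvPolynomial (Fin r × Fin (N + 1)) K)))

/-- forward difference in the direction `j` -/
def fd {r : ℕ} (j : Fin r) (h : (Fin r → ℕ) → ℤ) (β : Fin r → ℕ) : ℤ := h (β + Pi.single j 1) - h β

/-- iterated forward differences -/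
def fds {r : ℕ} (js : List (Fin r)) (h : (Fin r → ℕ) → ℤ) : (Fin r → ℕ) → ℤ := js.foldl (fun g j => fd j g) h

/-- `dim_K ∏_i (span of the coordinates of y_i)^(β_i)` -/
def hf (K : Type) {L : Type} [Field K] [Field L] [Algebra K L] {r N : ℕ} (y : Fin r → Fin (N + 1) → L)
    (β : Fin r → ℕ) : ℤ :=
  Module.finrank K (∏ i, sp K (y i) ^ β i : Submodule K L)

/-! ## Growth -/

/-- `∑_i D_i a^(d-i) e^i` -/
def vp (d : ℕ) (D : Fin (d + 1) → ℝ) (a e : ℝ) : ℝ := ∑ i : Fin (d + 1), D i * a ^ (d - (i : ℕ)) * e ^ (i : ℕ)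

end Pool.Agent.Helper10.GO
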