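import Pool.Agent.Helper10.GO.Defs
import Pool.Agent.Helper80.AD.Defs

/-!
# Project GO (MP_6af536_nt): definitions for the modules C (volumes), T (heights) and E (reduction).
-/

set_option autoImplicit false

open MvPolynomial Filter Topology

noncomputable section

namespace Pool.Agent.Helper10.GO

open Pool.Agent.Helper80.HD Pool.Agent.Helper80.AD

/-- the iterates of a tuple of polynomials -/
def it {K : Type} [Field K] {N : ℕ} (Γ : Fin (N + 1) → MvPolynomial (Fin (N + 1)) K) :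
    ℕ → Fin (N + 1) → MvPolynomial (Fin (N + 1)) K
  | 0 => X
  | (m + 1) => fun j => aeval (it Γ m) (Γ j)

/-- `Γ` is a tuple of forms of degree `δ ≥ 1`, `ξ (n + 1) = Γ (ξ n)`, and all `ξ n` satisfy the same homogeneous
equations over `K`. -/
structure GenData (K : Type) [Field K] [Algebra K ℂ] (N δ : ℕ) (Γ : Fin (N + 1) → MvPolynomial (Fin (N + 1)) K)
    (ξ : ℕ → Fin (N + 1) → ℂ) : Prop where
  one_le : 1 ≤ δ
  hom : ∀ j, (Γ j).IsHomogeneous δ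
  step : ∀ n j, ξ (n + 1) j = aeval (ξ n) (Γ j)
  ne : ξ 0 ≠ 0
  same : ∀ (n d : ℕ) (E : MvPolynomial (Fin (N + 1)) K), E.IsHomogeneous d →
    (aeval (ξ n) E = 0 ↔ aeval (ξ 0) E = 0)

/-- The limits `vp d (D m) a e` of `dim (X_0^(at) X_m^(et)) / t^d`, `X_n` the span of the coordinates of `ξ n`. -/
structure VolData (K : Type) [Field K] [Algebra K ℂ] {N : ℕ} (d : ℕ) (ξ : ℕ → Fin (N + 1) → ℂ)
    (D : ℕ → Fin (d + 1) → ℝ) : Prop where
  nn : ∀ m i, 0 ≤ D m i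
  lim : ∀ (m a e : ℕ), 1 ≤ a → 1 ≤ e →
    Tendsto (fun t : ℕ => (Module.finrank K (sp K (ξ 0) ^ (a * t) * sp K (ξ m) ^ (e * t) : Submodule K ℂ) : ℝ) /
      (t : ℝ) ^ d) atTop (𝓝 (vp d (D m) a e))
  low : ∀ t : ℕ, (t : ℝ) ^ d / (d.factorial : ℝ) ≤ Module.finrank K (sp K (ξ 0) ^ t : Submodule K ℂ)
  low0 : ∀ m, 1 / (d.factorial : ℝ) ≤ D m 0
  lowd : ∀ m, 1 / (d.factorial : ℝ) ≤ D m (Fin.last d)

/-- submultiplicativity of the volumes -/
def VSub (d : ℕ) (D : ℕ → Fin (d + 1) → ℝ) : Prop := ∀ (n m : ℕ) (a b e : ℝ), 0 < a → 0 < b → 0 < e →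
  vp d (D (n + m)) a e * b ^ d ≤ (d.factorial : ℝ) * vp d (D n) a b * vp d (D m) b e

/-- `σ₁ < σ₂` and there is no point of `Λ` strictly between them -/
def IsGap (Λ : Finset ℝ) (σ₁ σ₂ : ℝ) : Prop := σ₁ < σ₂ ∧ ∀ l ∈ Λ, l ≤ σ₁ ∨ σ₂ ≤ l

/-- A section: `s (ξ_q)_i^b` is in `X_p^A X_q^B X_r^E` for all `i`. -/
def Sec (K : Type) [Field K] [Algebra K ℂ] {N : ℕ} (ξ : ℕ → Fin (N + 1) → ℂ) (p q r A b B E : ℕ) : Prop :=
  ∃ s : ℂ, s ≠ 0 ∧ ∀ i, s * ξ q i ^ b ∈ (sp K (ξ p) ^ A * sp K (ξ q) ^ B * sp K (ξ r) ^ E : Submodule K ℂ)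

/-- The sequence `y n` of normalized points over `F` is generic on the closed set with the generic point `ξ 0`, and
`y (n + 1) = Γ (y n)` in `ℙ^N`, for large `n`. -/
structure GenOrb (K : Type) [Field K] [Algebra K ℂ] (F : IntermediateField K ℂ) (N δ : ℕ)
    (Γ : Fin (N + 1) → MvPolynomial (Fin (N + 1)) K) (ξ : ℕ → Fin (N + 1) → ℂ) (y : ℕ → BV F N) : Prop where
  gen : GenData K N δ Γ ξ
  zero : ∀ (d : ℕ) (E : MvPolynomial (Fin (N + 1)) K), E.IsHomogeneous d → aeval (ξ 0) E = 0 →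
    ∀ᶠ n in atTop, aeval (cv (y n).1) E = 0
  nonzero : ∀ (d : ℕ) (E : MvPolynomial (Fin (N + 1)) K), E.IsHomogeneous d → aeval (ξ 0) E ≠ 0 →
    ∀ᶠ n in atTop, aeval (cv (y n).1) E ≠ 0
  step : ∀ᶠ n in atTop, ∃ c : ℂ, c ≠ 0 ∧ ∀ j, aeval (cv (y n).1) (Γ j) = c * cv (y (n + 1)).1 j

/-- `E(Y) + ∑_i D(Y without Y_i)` -/
def UU {k : ℕ} {B : Type} (E : (Fin (k + 1) → B) → ℝ) (D : (Fin k → B) → ℝ) (Y : Fin (k + 1) → B) : ℝ :=
  E Y + ∑ i : Fin (k + 1), D (fun s => Y (i.succAbove s))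

/-! ## Rational self-maps -/

/-- A projective set `X ⊂ ℙ^N` over `K` together with a rational self-map over `K`, given by finitely many tuples of
forms (which may all vanish at some points of `X`: the points where the map is not defined). -/
structure QMap (K : Type) [Field K] [Algebra K ℂ] (N : ℕ) where
  /-- equations of `X` -/
  eqs : Set (MvPolynomial (Fin (N + 1)) K)
  eqs_homog : ∀ E ∈ eqs, ∃ d, E.IsHomogeneous d
  /-- number of formulas -/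
  r : ℕ
  /-- the degrees of the formulas -/
  deg : Fin r → ℕ
  /-- `x ↦ (G l 0 (x) : … : G l N (x))` -/
  G : Fin r → Fin (N + 1) → MvPolynomial (Fin (N + 1)) K
  G_homog : ∀ l j, (G l j).IsHomogeneous (deg l)
  /-- the formulas agree -/
  agree : ∀ x : Fin (N + 1) → ℂ, x ≠ 0 → (∀ E ∈ eqs, aeval x E = 0) → ∀ l l' i j,
    aeval x (G l i) * aeval x (G l' j) = aeval x (G l j) * aeval x (G l' i)
  /-- the values are in `X` -/
  maps : ∀ x : Fin (N + 1) → ℂ, x ≠ 0 → (∀ E ∈ eqs, aeval x E = 0) → ∀ l, ∀ E ∈ eqs,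
    aeval (fun j => aeval x (G l j)) E = 0

section maps

variable {K : Type} [Field K] [Algebra K ℂ] {N : ℕ}

/-- `x ∈ X` -/
def QMap.Mem (f : QMap K N) (x : Fin (N + 1) → ℂ) : Prop := x ≠ 0 ∧ ∀ E ∈ f.eqs, aeval x E = 0

/-- `f` is defined at `x` and `y = f(x)` in `ℙ^N`: some formula takes at `x` a value which is a nonzero multiple of `y`. -/
def QMap.IsImage (f : QMap K N) (x y : Fin (N + 1) → ℂ) : Prop :=
  y ≠ 0 ∧ ∃ l, ∃ c : ℂ, c ≠ 0 ∧ ∀ j, aeval x (f.G l j) = c * y j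

/-- `x 0, x 1, …` is an orbit in `X` (so `f` is defined at all `x n`). -/
def QMap.IsOrbit (f : QMap K N) (x : ℕ → Fin (N + 1) → ℂ) : Prop :=
  f.Mem (x 0) ∧ ∀ n, f.IsImage (x n) (x (n + 1))

end maps

/-- a set of natural numbers is eventually periodic -/
def EvPer (P : ℕ → Prop) : Prop := ∃ p : ℕ, 1 ≤ p ∧ ∃ n₀ : ℕ, ∀ n, n₀ ≤ n → (P n ↔ P (n + p))

/-- Every homogeneous equation over `K` holds at an eventually periodic set of times (the conclusion of the dynamical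
Mordell-Lang conjecture for this orbit). -/
def DML (K : Type) [Field K] [Algebra K ℂ] {N : ℕ} (x : ℕ → Fin (N + 1) → ℂ) : Prop :=
  ∀ (d : ℕ) (E : MvPolynomial (Fin (N + 1)) K), E.IsHomogeneous d → EvPer fun n => aeval (x n) E = 0

/-- the arithmetic progression `b, a + b, 2 a + b, …` of the sequence `x` is generic on the closed set with the generic
point `ξ 0`, and `Γ` represents the `a`-th iterate there -/
structure GenAP (K : Type) [Field K] [Algebra K ℂ] (N δ : ℕ) (Γ : Fin (N + 1) → MvPolynomial (Fin (N + 1)) K)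
    (ξ : ℕ → Fin (N + 1) → ℂ) (x : ℕ → Fin (N + 1) → ℂ) (a b : ℕ) : Prop where
  gen : GenData K N δ Γ ξ
  zero : ∀ (d : ℕ) (E : MvPolynomial (Fin (N + 1)) K), E.IsHomogeneous d → aeval (ξ 0) E = 0 →
    ∀ᶠ n in atTop, aeval (x (a * n + b)) E = 0
  nonzero : ∀ (d : ℕ) (E : MvPolynomial (Fin (N + 1)) K), E.IsHomogeneous d → aeval (ξ 0) E ≠ 0 →
    ∀ᶠ n in atTop, aeval (x (a * n + b)) E ≠ 0
  step : ∀ᶠ n in atTop, ∃ c : ℂ, c ≠ 0 ∧ ∀ j, aeval (x (a * n + b)) (Γ j) = c * x (a * (n + 1) + b) j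

end Pool.Agent.Helper10.GO
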