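import Mathlib

/-!
# Project GO (MP_6af536_nt), module D (real analysis): the interface.
-/

set_option autoImplicit false

open Filter Topology

noncomputable section

namespace Pool.Agent.Helper10.GO

/-- The data of the real analysis: `U > 0` on `ℕ^(k+1)`, `κ i` does not depend on the coordinate `i`, `κ i ≤ U`; Lipschitz
bounds for `log U`; and the jump property in every coordinate for every gap of the finite set `Λ`. -/
structure JumpData (k : ℕ) (U : (Fin (k + 1) → ℕ) → ℝ) (κ : Fin (k + 1) → (Fin (k + 1) → ℕ) → ℝ) (Λ : Finset ℝ) :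
    Prop where
  κpos : ∀ i J, 0 < κ i J
  κupd : ∀ i J n, κ i (Function.update J i n) = κ i J
  κle : ∀ i J, κ i J ≤ U J
  lip : ∃ (C : ℝ) (n₀ : ℕ), 1 ≤ C ∧ ∀ i J, n₀ ≤ J i →
    U (Function.update J i (J i + 1)) ≤ C * U J ∧ U J ≤ C * U (Function.update J i (J i + 1))
  jump : ∀ σ₁ σ₂ : ℝ, σ₁ < σ₂ → (∀ l ∈ Λ, l ≤ σ₁ ∨ σ₂ ≤ l) → ∀ ε : ℝ, 0 < ε →
    ∃ m : ℕ, 1 ≤ m ∧ ∃ (C : ℝ) (n₀ : ℕ), 1 ≤ C ∧ ∀ i J, n₀ ≤ J i →
      Real.exp ((σ₁ + ε) * m) * U J ≤ U (Function.update J i (J i + m)) →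
      C * κ i J ≤ U (Function.update J i (J i + m)) →
        Real.exp ((σ₂ - ε) * m) * U (Function.update J i (J i + m)) ≤ U (Function.update J i (J i + 2 * m))

/-- The result of the real analysis. -/
def S_MAIND : Prop := ∀ (k : ℕ) (U : (Fin (k + 1) → ℕ) → ℝ) (κ : Fin (k + 1) → (Fin (k + 1) → ℕ) → ℝ)
  (Λ : Finset ℝ), JumpData k U κ Λ →
    ∃ l : Fin (k + 1) → ℝ, (∀ i, l i ∈ insert 0 Λ) ∧
      Tendsto (fun n : ℕ => Real.log (U fun _ => n) / n) atTop (𝓝 (∑ i, l i))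

end Pool.Agent.Helper10.GO
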