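import Pool.Agent.Helper10.GO.Final
import Pool.Agent.Helper10.GO.GoalsP2
import Pool.Agent.Helper42.AD.LOCF

/-!
# Project GO (MP_6af536_nt), part P: the consequences for étale maps.
-/

set_option autoImplicit false

open MvPolynomial Filter Topology

noncomputable section

namespace Pool.Agent.Helper10.GO

open Pool.Agent.Helper80.HD Pool.Agent.Helper80.AD

theorem aeval_mul_left {K : Type} [Field K] [Algebra K ℂ] {N d : ℕ} {E : MvPolynomial (Fin N) K}
    (hE : E.IsHomogeneous d) (c : ℂ) (x : Fin N → ℂ) : aeval (fun i => c * x i) E = c ^ d * aeval x E := by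
  rw [aeval_def, aeval_def]
  exact Pool.Agent.Helper42.AD.eval_smul hE _ _ _

/-- an orbit which is the image of an orbit of a polynomial map that is étale at the points of the orbit -/
def EtaleCover (K : Type) [Field K] [Algebra K ℂ] {N : ℕ} (x : ℕ → Fin (N + 1) → ℂ) : Prop :=
  ∃ (M : ℕ) (g : Fin M → MvPolynomial (Fin M) K) (u : MvPolynomial (Fin M) K)
    (Q : Fin (N + 1) → MvPolynomial (Fin M) K) (z : ℕ → Fin M → ℂ),
    (∀ n i, z (n + 1) i = aeval (z n) (g i)) ∧
    (∀ n, aeval (z n) u * aeval (z n) (Matrix.of fun i j => pderiv j (g i)).det = 1) ∧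
    ∀ n, ∃ c : ℂ, c ≠ 0 ∧ ∀ j, aeval (z n) (Q j) = c * x n j

theorem dml_of_cover (hE : S_ETD2) {K : Type} [Field K] [Algebra K ℂ] {N : ℕ} {x : ℕ → Fin (N + 1) → ℂ}
    (h : EtaleCover K x) : DML K x := by
  obtain ⟨M, g, u, Q, z, hz, hu, hQ⟩ := h
  intro d E hEd
  have h1 := hE K M g u z (aeval Q E) hu hz
  have h2 : ∀ n, aeval (z n) (aeval Q E) = 0 ↔ aeval (x n) E = 0 := by
    intro n
    obtain ⟨c, hc, hn⟩ := hQ n
    have h3 : aeval (z n) (aeval Q E) = aeval (fun j => aeval (z n) (Q j)) E := by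
      rw [← AlgHom.comp_apply, comp_aeval]
    rw [h3, funext hn, aeval_mul_left hEd c (x n), mul_eq_zero]
    exact ⟨fun h => h.resolve_left (pow_ne_zero _ hc), Or.inr⟩
  obtain ⟨p, hp, n₀, hn₀⟩ := h1
  refine ⟨p, hp, n₀, fun n hn => ?_⟩
  show aeval (x n) E = 0 ↔ aeval (x (n + p)) E = 0
  rw [← h2 n, ← h2 (n + p)]
  exact hn₀ n hn

/-- The limit exists for the orbits dominated by étale maps. -/
def S_ETA : Prop := ∀ (K : Type) [Field K] [NumberField K] [Algebra K ℂ] (N : ℕ) (f : QMap K N) (k : ℕ)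
  (x : ℕ → Fin (N + 1) → ℂ), f.IsOrbit x → Algebra.trdeg K (ratioField K (x 0)) = k → EtaleCover K x →
    ∃ α : ℝ, (1 ≤ α ∨ α = 0 ∧ ∀ᶠ n in atTop, arithDeg K k x n = 0) ∧ ∀ D : ℕ → ℝ, Cmp D (arithDeg K k x) →
      Tendsto (fun n : ℕ => D n ^ (1 / (n : ℝ))) atTop (𝓝 α)

theorem eta_of (hG : S_GO) (hE : S_ETD2) : S_ETA := fun K _ _ _ N f k x hx htr hc =>
  hG K N f k x hx htr fun _ => dml_of_cover hE hc

/-! ## Polynomial maps of the affine space as rational self-maps of `ℙ^N` -/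

theorem aff_zero {N : ℕ} (x : Fin N → ℂ) : aff x 0 = 1 := rfl

theorem aff_succ {N : ℕ} (x : Fin N → ℂ) (i : Fin N) : aff x i.succ = x i := rfl

section poly

variable {K : Type} [Field K] {N : ℕ}

theorem hmg_isHomogeneous {d : ℕ} (P : MvPolynomial (Fin N) K) :
    (Pool.Agent.Helper42.AD.hmg d P).IsHomogeneous d := by
  unfold Pool.Agent.Helper42.AD.hmg
  refine IsHomogeneous.sum _ _ _ fun j hj => ?_
  have hj' : d - j + j = d := Nat.sub_add_cancel (Nat.lt_succ_iff.1 (Finset.mem_range.1 hj))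
  have h1 : (X 0 ^ (d - j) : MvPolynomial (Fin (N + 1)) K).IsHomogeneous (d - j) := by
    have := (isHomogeneous_X K (0 : Fin (N + 1))).pow (d - j)
    rwa [one_mul] at this
  have h2 : (rename Fin.succ (homogeneousComponent j P) : MvPolynomial (Fin (N + 1)) K).IsHomogeneous j :=
    (homogeneousComponent_isHomogeneous j P).rename_isHomogeneous
  have h3 := h1.mul h2
  rwa [hj'] at h3

/-- a bound for the degrees -/
def pdeg (f : Fin N → MvPolynomial (Fin N) K) : ℕ := ∑ i, (f i).totalDegree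

theorem le_pdeg (f : Fin N → MvPolynomial (Fin N) K) (i : Fin N) : (f i).totalDegree ≤ pdeg f :=
  Finset.single_le_sum (f := fun i => (f i).totalDegree) (fun _ _ => Nat.zero_le _) (Finset.mem_univ i)

variable [Algebra K ℂ]

/-- the rational self-map of `ℙ^N` defined by a polynomial self-map of the affine space -/
def polyMap (f : Fin N → MvPolynomial (Fin N) K) : QMap K N where
  eqs := ∅
  eqs_homog := by simp
  r := 1
  deg := fun _ => pdeg f
  G := fun _ => Fin.cons (X 0 ^ pdeg f) fun i => Pool.Agent.Helper42.AD.hmg (pdeg f) (f i)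
  G_homog := by
    intro _ j
    refine Fin.cases ?_ (fun i => ?_) j
    · rw [Fin.cons_zero]
      have := (isHomogeneous_X K (0 : Fin (N + 1))).pow (pdeg f)
      rwa [one_mul] at this
    · rw [Fin.cons_succ]
      exact hmg_isHomogeneous _
  agree := by
    intro x _ _ l l' i j
    exact mul_comm _ _
  maps := by simp

theorem polyMap_isOrbit {f : Fin N → MvPolynomial (Fin N) K} {x : ℕ → Fin N → ℂ}
    (hx : ∀ n i, x (n + 1) i = aeval (x n) (f i)) : (polyMap f).IsOrbit fun n => aff (x n) := by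
  have hne : ∀ n, aff (x n) ≠ 0 := fun n h => one_ne_zero (α := ℂ) (congrFun h 0)
  refine ⟨⟨hne 0, by simp [polyMap]⟩, fun n => ⟨hne _, (0 : Fin 1), 1, one_ne_zero, fun j => ?_⟩⟩
  rw [one_mul]
  refine Fin.cases ?_ (fun i => ?_) j
  · show aeval (aff (x n)) (X 0 ^ pdeg f : MvPolynomial (Fin (N + 1)) K) = aff (x (n + 1)) 0
    rw [map_pow, aeval_X, aff_zero, aff_zero, one_pow]
  · show aeval (aff (x n)) (Pool.Agent.Helper42.AD.hmg (pdeg f) (f i)) = aff (x (n + 1)) i.succ
    rw [aff_succ, hx, aeval_def, aeval_def]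
    exact Pool.Agent.Helper42.AD.eval_hmg_one _ _ (le_pdeg f i)

theorem cover_of_unit {f : Fin N → MvPolynomial (Fin N) K} (hf : IsUnit (jac f).det) {x : ℕ → Fin N → ℂ}
    (hx : ∀ n i, x (n + 1) i = aeval (x n) (f i)) : EtaleCover K fun n => aff (x n) := by
  obtain ⟨u, hu⟩ := hf.exists_left_inv
  refine ⟨N, f, u, Fin.cons 1 X, x, hx, fun n => ?_, fun n => ⟨1, one_ne_zero, fun j => ?_⟩⟩
  · show aeval (x n) u * aeval (x n) (jac f).det = 1
    rw [← map_mul, hu, map_one]
  · rw [one_mul]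
    refine Fin.cases ?_ (fun i => ?_) j
    · rw [Fin.cons_zero, map_one]
      exact (aff_zero _).symm
    · rw [Fin.cons_succ, aeval_X]
      exact (aff_succ _ _).symm

end poly

/-- The limit exists for the étale polynomial self-maps of the affine space. -/
def S_ETP : Prop := ∀ (K : Type) [Field K] [NumberField K] [Algebra K ℂ] (N : ℕ)
  (f : Fin N → MvPolynomial (Fin N) K) (k : ℕ) (x : ℕ → Fin N → ℂ),
  IsUnit (Matrix.of fun i j => pderiv j (f i)).det → (∀ n i, x (n + 1) i = aeval (x n) (f i)) →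
  Algebra.trdeg K (ratioField K (aff (x 0))) = k →
    ∃ α : ℝ, (1 ≤ α ∨ α = 0 ∧ ∀ᶠ n in atTop, arithDeg K k (fun n => aff (x n)) n = 0) ∧
      ∀ D : ℕ → ℝ, Cmp D (arithDeg K k fun n => aff (x n)) →
        Tendsto (fun n : ℕ => D n ^ (1 / (n : ℝ))) atTop (𝓝 α)

theorem etp_of (hE : S_ETA) : S_ETP := fun K _ _ _ N f k _ hf hx htr =>
  hE K N (polyMap f) k _ (polyMap_isOrbit hx) htr (cover_of_unit hf hx)

end Pool.Agent.Helper10.GO
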