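import Pool.Agent.Helper10.GO.DefsC

/-!
# Project GO: preparations for the final assembly.
-/

set_option autoImplicit false

open MvPolynomial Filter Topology
open scoped IntermediateField.algebraAdjoinAdjoin

noncomputable section

namespace Pool.Agent.Helper10.GO

open Pool.Agent.Helper80.HD Pool.Agent.Helper80.AD

/-! ## Real sequences -/

/-- From an arithmetic progression to the whole sequence. -/
theorem lim_of_ap {L : ℕ → ℝ} {c β : ℝ} {a b : ℕ} (ha : 1 ≤ a) (hc : 0 ≤ c) (hL : ∀ n, L (n + 1) ≤ L n + c)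
    (h : Tendsto (fun n : ℕ => L (a * n + b) / n) atTop (𝓝 β)) :
    Tendsto (fun n : ℕ => L n / n) atTop (𝓝 (β / a)) := by
  have haR : (0 : ℝ) < a := by exact_mod_cast ha
  -- growth over several steps
  have hstep : ∀ n r : ℕ, L (n + r) ≤ L n + c * r := by
    intro n r
    induction r with
    | zero => simp
    | succ r ih =>
      have h1 := hL (n + r)
      rw [← add_assoc]
      push_cast
      linarith
  -- the quotient
  set q : ℕ → ℕ := fun n => (n - b) / a with hq
  have hqt : Tendsto q atTop atTop := by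
    have h1 : Tendsto (fun n : ℕ => n - b) atTop atTop := tendsto_sub_atTop_nat b
    exact (Nat.tendsto_div_const_atTop (by omega)).comp h1
  have hqlow : ∀ n, b ≤ n → a * q n + b ≤ n := by
    intro n hn
    have := Nat.mul_div_le (n - b) a
    simp only [hq]
    omega
  have hqup : ∀ n, b ≤ n → n ≤ a * (q n + 1) + b := by
    intro n hn
    have := Nat.lt_mul_div_succ (n - b) (show 0 < a by omega)
    simp only [hq]
    omega
  -- q n / n → 1 / a
  have hqn : Tendsto (fun n : ℕ => (q n : ℝ) / n) atTop (𝓝 (1 / a)) := by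
    have hl : Tendsto (fun n : ℕ => (1 - (a + b : ℝ) / n) / a) atTop (𝓝 (1 / a)) := by
      have : Tendsto (fun n : ℕ => (a + b : ℝ) / n) atTop (𝓝 0) := tendsto_const_div_atTop_nhds_zero_nat _
      have h5 := ((tendsto_const_nhds (x := (1 : ℝ))).sub this).div_const (a : ℝ)
      rwa [sub_zero] at h5
    have hu : Tendsto (fun n : ℕ => (1 : ℝ) / a) atTop (𝓝 (1 / a)) := tendsto_const_nhds
    refine tendsto_of_tendsto_of_tendsto_of_le_of_le' hl hu ?_ ?_
    · filter_upwards [eventually_ge_atTop (max b 1)] with n hn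
      have h1 : b ≤ n := le_of_max_le_left hn
      have h2 : (1 : ℝ) ≤ n := by exact_mod_cast le_of_max_le_right hn
      have h3 : (n : ℝ) ≤ a * (q n + 1) + b := by exact_mod_cast hqup n h1
      rw [div_le_div_iff₀ haR (by linarith), sub_mul, one_mul, div_mul_cancel₀ _ (by linarith)]
      nlinarith
    · filter_upwards [eventually_ge_atTop (max b 1)] with n hn
      have h1 : b ≤ n := le_of_max_le_left hn
      have h2 : (1 : ℝ) ≤ n := by exact_mod_cast le_of_max_le_right hn
      have h3 : (a : ℝ) * q n + b ≤ n := by exact_mod_cast hqlow n h1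
      rw [div_le_div_iff₀ (by linarith) haR]
      have : (0 : ℝ) ≤ b := Nat.cast_nonneg b
      nlinarith
  have hqn' : Tendsto (fun n : ℕ => ((q n + 1 : ℕ) : ℝ) / n) atTop (𝓝 (1 / a)) := by
    have h1 : Tendsto (fun n : ℕ => (1 : ℝ) / n) atTop (𝓝 0) := tendsto_const_div_atTop_nhds_zero_nat _
    have h2 := hqn.add h1
    rw [add_zero] at h2
    refine h2.congr fun n => ?_
    push_cast
    ring
  -- the bounds
  have e1 : Tendsto (fun n : ℕ => L (a * (q n) + b) / (q n : ℝ) * ((q n : ℝ) / n) + c * a / n) atTop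
      (𝓝 (β / a)) := by
    have h1 := (h.comp hqt).mul hqn
    have h2 : Tendsto (fun n : ℕ => c * a / (n : ℝ)) atTop (𝓝 0) := tendsto_const_div_atTop_nhds_zero_nat _
    have h3 := h1.add h2
    rw [add_zero, mul_one_div] at h3
    exact h3
  have e2 : Tendsto (fun n : ℕ => L (a * (q n + 1) + b) / ((q n + 1 : ℕ) : ℝ) * (((q n + 1 : ℕ) : ℝ) / n) -
      c * a / n) atTop (𝓝 (β / a)) := by
    have hqt' : Tendsto (fun n => q n + 1) atTop atTop := (tendsto_add_atTop_nat 1).comp hqt
    have h1 := (h.comp hqt').mul hqn'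
    have h2 : Tendsto (fun n : ℕ => c * a / (n : ℝ)) atTop (𝓝 0) := tendsto_const_div_atTop_nhds_zero_nat _
    have h3 := h1.sub h2
    rw [sub_zero, mul_one_div] at h3
    exact h3
  refine tendsto_of_tendsto_of_tendsto_of_le_of_le' e2 e1 ?_ ?_
  · filter_upwards [eventually_ge_atTop (max b 1), hqt.eventually_ge_atTop 1] with n hn hq1
    have h1 : b ≤ n := le_of_max_le_left hn
    have h2 : (1 : ℝ) ≤ n := by exact_mod_cast le_of_max_le_right hn
    have hn0 : (0 : ℝ) < n := by linarith
    obtain ⟨r, hr⟩ := Nat.exists_eq_add_of_le (hqup n h1)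
    have h3 := hstep n r
    rw [← hr] at h3
    have h4 : r ≤ a := by
      have := hqlow n h1
      have e : a * (q n + 1) + b = a * q n + b + a := by ring
      omega
    have h5 : c * r ≤ c * a := mul_le_mul_of_nonneg_left (by exact_mod_cast h4) hc
    have hq0 : ((q n + 1 : ℕ) : ℝ) ≠ 0 := by positivity
    rw [div_mul_div_comm, mul_comm (L _) _, mul_div_mul_left _ _ hq0, ← sub_div]
    exact div_le_div_of_nonneg_right (by linarith) hn0.le
  · filter_upwards [eventually_ge_atTop (max b 1), hqt.eventually_ge_atTop 1] with n hn hq1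
    have h1 : b ≤ n := le_of_max_le_left hn
    have h2 : (1 : ℝ) ≤ n := by exact_mod_cast le_of_max_le_right hn
    have hn0 : (0 : ℝ) < n := by linarith
    obtain ⟨r, hr⟩ := Nat.exists_eq_add_of_le (hqlow n h1)
    have h3 := hstep (a * q n + b) r
    rw [← hr] at h3
    have h4 : r ≤ a := by
      have := hqup n h1
      have e : a * (q n + 1) + b = a * q n + b + a := by ring
      omega
    have h5 : c * r ≤ c * a := mul_le_mul_of_nonneg_left (by exact_mod_cast h4) hc
    have hq0 : (q n : ℝ) ≠ 0 := by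
      have : (1 : ℝ) ≤ q n := by exact_mod_cast hq1
      positivity
    rw [div_mul_div_comm, mul_comm (L _) _, mul_div_mul_left _ _ hq0, ← add_div]
    exact div_le_div_of_nonneg_right (by linarith) hn0.le

/-- The `n`-th roots. -/
theorem root_of_log {b D : ℕ → ℝ} {β c₁ c₂ : ℝ} (hb : ∀ n, 0 < b n) (hc₁ : 0 < c₁) (hc₂ : 0 < c₂)
    (h : Tendsto (fun n : ℕ => Real.log (b n) / n) atTop (𝓝 β)) (h1 : ∀ n, c₁ * b n ≤ D n)
    (h2 : ∀ n, D n ≤ c₂ * b n) : Tendsto (fun n : ℕ => D n ^ (1 / (n : ℝ))) atTop (𝓝 (Real.exp β)) := by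
  have hD : ∀ n, 0 < D n := fun n => (mul_pos hc₁ (hb n)).trans_le (h1 n)
  have hlog : Tendsto (fun n : ℕ => Real.log (D n) / n) atTop (𝓝 β) := by
    have e1 : Tendsto (fun n : ℕ => (Real.log c₁ + Real.log (b n)) / n) atTop (𝓝 β) := by
      have := (tendsto_const_div_atTop_nhds_zero_nat (Real.log c₁)).add h
      rw [zero_add] at this
      exact this.congr fun n => by rw [add_div]
    have e2 : Tendsto (fun n : ℕ => (Real.log c₂ + Real.log (b n)) / n) atTop (𝓝 β) := by
      have := (tendsto_const_div_atTop_nhds_zero_nat (Real.log c₂)).add h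
      rw [zero_add] at this
      exact this.congr fun n => by rw [add_div]
    refine tendsto_of_tendsto_of_tendsto_of_le_of_le e1 e2 (fun n => ?_) fun n => ?_
    · show (Real.log c₁ + Real.log (b n)) / n ≤ Real.log (D n) / n
      rw [← Real.log_mul hc₁.ne' (hb n).ne']
      exact div_le_div_of_nonneg_right (Real.log_le_log (mul_pos hc₁ (hb n)) (h1 n)) (Nat.cast_nonneg n)
    · show Real.log (D n) / n ≤ (Real.log c₂ + Real.log (b n)) / n
      rw [← Real.log_mul hc₂.ne' (hb n).ne']
      exact div_le_div_of_nonneg_right (Real.log_le_log (hD n) (h2 n)) (Nat.cast_nonneg n)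
  refine ((Real.continuous_exp.tendsto β).comp hlog).congr fun n => ?_
  show Real.exp (Real.log (D n) / n) = _
  rw [Real.rpow_def_of_pos (hD n), mul_one_div]

/-! ## Fields -/

theorem trdeg_fin (K : Type) [Field K] [Algebra K ℂ] {N : ℕ} (x : Fin (N + 1) → ℂ) :
    ∃ d : ℕ, Algebra.trdeg K (ratioField K x) = d := by
  set S : Set ℂ := {c : ℂ | ∃ i j, c = x i / x j} with hS
  have hfin : S.Finite := by
    have : S = Set.range (fun p : Fin (N + 1) × Fin (N + 1) => x p.1 / x p.2) := by
      ext c
      constructor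
      · rintro ⟨i, j, h⟩; exact ⟨(i, j), h.symm⟩
      · rintro ⟨⟨i, j⟩, h⟩; exact ⟨i, j, h.symm⟩
    rw [this]
    exact Set.finite_range _
  have hft : Algebra.FiniteType K (Algebra.adjoin K S) := by
    rw [← Subalgebra.fg_iff_finiteType]
    exact ⟨hfin.toFinset, by simp⟩
  have h1 : Algebra.trdeg K (Algebra.adjoin K S) < Cardinal.aleph0 := trdeg_lt_aleph0_of_finiteType
  have h3 : Algebra.trdeg (Algebra.adjoin K S) (IntermediateField.adjoin K S) = 0 := trdeg_eq_zero
  have h4 : Algebra.trdeg K (IntermediateField.adjoin K S) < Cardinal.aleph0 := by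
    rw [← trdeg_add_eq K (Algebra.adjoin K S) (A := IntermediateField.adjoin K S), h3, add_zero]
    exact h1
  exact Cardinal.lt_aleph0.1 h4

end Pool.Agent.Helper10.GO
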