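import Pool.Agent.Helper10.GO.Defs

/-!
# Project GO (MP_6af536_nt), modules A and B: dimensions of products of subspaces of a field, Hilbert functions.

Every `def S_XXX : Prop` is a packet; the packets are independent of each other unless the docstring says
`uses …` (then the named statements are hypotheses of your theorem).  No arithmetic here.
Notation: `S = K[X_(i,j)]`, `i < r` the block, `j ≤ N`; `e_j` the `j`-th unit vector; `mh β` the multihomogeneous polynomials of multidegree `β`.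
-/

set_option autoImplicit false

open MvPolynomial Filter Topology

noncomputable section

namespace Pool.Agent.Helper10.GO

/-- PACKET PET (1.8 h): the inequality of Petridis for subspaces of a field.

PROOF.  Dimensions are over `K`; everything is finite-dimensional.  If `Y = ⊥` or `A = ⊥` or `C = ⊥` the left-hand side is `0`.  Let `Y ≠ ⊥`.  Choose a nonzero subspace `X ≤ Y` for which `dim(XA)/dim X` is minimal (the possible pairs `(dim(XA), dim X)` are bounded natural numbers, so a minimum exists):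
(M) `dim(XA) · dim X' ≤ dim(X'A) · dim X` for all subspaces `X' ≤ Y` (trivial if `X' = ⊥`).
Claim: `dim(CXA) · dim X ≤ dim(XA) · dim(CX)` for all finite-dimensional `C`.  Induction on `dim C`.  `C = ⊥`: `0 ≤ 0`.  Let `C = C' + Kc`, `dim C' = dim C - 1`, `c ≠ 0`.  Let `X' = {x ∈ X : c x ∈ C'X}`, a subspace of `X`.
`CX = C'X + cX` and the kernel of `X → CX/C'X, x ↦ cx` is `X'` (it is surjective): `dim(CX) = dim(C'X) + dim X - dim X'`.
`CXA = C'XA + c·XA` and `c·X'A ≤ C'XA`, so `dim(CXA) ≤ dim(C'XA) + dim(XA) - dim(X'A)` (the map `XA → CXA/C'XA, z ↦ cz` is surjective and its kernel contains `X'A`).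
So `dim(CXA) dim X ≤ dim(C'XA) dim X + dim(XA) dim X - dim(X'A) dim X ≤ dim(XA) dim(C'X) + dim(XA) dim X - dim(XA) dim X' = dim(XA) dim(CX)` (induction and (M)).
End: take `0 ≠ x ∈ X`: `x·CA ≤ CXA`, so `dim(CA) · dim X ≤ dim(CXA) dim X ≤ dim(XA) dim(CX) ≤ dim(XA) dim(CY)` (`CX ≤ CY`), and by (M) for `X' = Y`: `dim(XA) dim Y ≤ dim(YA) dim X`.  Multiply: `dim(CA) dim X dim Y ≤ dim(YA) dim X dim(CY)`; cancel `dim X > 0`. -/
def S_PET : Prop := ∀ (K L : Type) [Field K] [Field L] [Algebra K L] (A Y C : Submodule K L), A.FG → Y.FG → C.FG →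
  Module.finrank K (A * C : Submodule K L) * Module.finrank K Y ≤
    Module.finrank K (A * Y : Submodule K L) * Module.finrank K (Y * C : Submodule K L)

/-- PACKET SATL (2 h): saturation and a nonzerodivisor.

PROOF.  `𝔪 = (X_(j,0), …, X_(j,N))`, `J = {Q | ∃ s, every monomial μ of degree s in the variables of the block j satisfies μ Q ∈ I}` (`= ⋃_s (I : 𝔪^s)`), an ideal `≥ I`; `S` is Noetherian, so `J = (I : 𝔪^s₀)` for some `s₀`.
`MH J`: if `μ Q ∈ I` then the components of `μ Q` are in `I`; the component of `μ Q` of degree `β + s e_j` is `μ Q_β`.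
`B`: `J` is generated by finitely many multihomogeneous `b_1, …, b_n` (components of generators), of degrees `β^i`; `B = s₀ + max_i β^i_j`.  Let `Q ∈ J` be of degree `β`, `β j ≥ B`: `Q = ∑ q_i b_i`, and taking components we may take `q_i` homogeneous of degree `β - β^i` (`0` if this is not `≥ 0`), so every monomial of `q_i` has degree `≥ s₀` in the block `j`, `q_i b_i ∈ I`.
`c`: let `𝔭` be an associated prime of `S/J`, `𝔭 = Ann(x̄)`, `x ∉ J`.  If `𝔪 ≤ 𝔭` then `𝔪 x ≤ J`, `𝔪^(s₀+1) x ≤ I`, so `x ∈ J`: contradiction.  So `{c ∈ K^(N+1) | ∑ c_i X_(j,i) ∈ 𝔭}` is a proper subspace of `K^(N+1)`.  There are finitely many associated primes (`associatedPrimes.finite`), `K` is infinite, so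
some `c` is in none of these subspaces (`Subspace.exists_eq_top_of_iUnion_eq_univ` or similar); the union of the associated primes is the set of zero divisors of `S/J` (`biUnion_associatedPrimes_eq_compl_nonZeroDivisors` or similar).  (If `J = ⊤` every `c` works.) -/
def S_SATL : Prop := ∀ (K : Type) [Field K] [Infinite K] (r N : ℕ)
  (I : Ideal (MvPolynomial (Fin r × Fin (N + 1)) K)), MH I → ∀ j : Fin r,
    ∃ J : Ideal (MvPolynomial (Fin r × Fin (N + 1)) K), I ≤ J ∧ MH J ∧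
      (∃ B : ℕ, ∀ β : Fin r → ℕ, B ≤ β j → ∀ Q ∈ mh K r N β, Q ∈ J → Q ∈ I) ∧
      ∃ c : Fin (N + 1) → K, ∀ Q, (∑ i, C (c i) * X (j, i)) * Q ∈ J → Q ∈ J

/-- PACKET HDF (1.5 h): the difference of the Hilbert function.

PROOF.  `ℓ = ∑ c_i X_(j,i)`, homogeneous of degree `e_j`; `J' = J + (ℓ)`.  If `ℓ = 0` then `ℓ · 1 ∈ J`, `J = ⊤` and all Hilbert functions are `0` (`⊤ ⊓ mh β = mh β`).  Let `ℓ ≠ 0`.  `mh β` is finite-dimensional (finitely many monomials of multidegree `β`).  `J' ` is multihomogeneous.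
`J' ∩ mh(β + e_j) = (J ∩ mh(β + e_j)) + ℓ · mh β` (take the component of degree `β + e_j` of `q + ℓ p`, `q ∈ J`).  `J ∩ ℓ · mh β = ℓ · (J ∩ mh β)` (hypothesis on `c`), and multiplication by `ℓ` is injective.  So
`dim(J' ∩ mh(β+e_j)) = dim(J ∩ mh(β+e_j)) + dim(mh β) - dim(J ∩ mh β)`, which is the claim. -/
def S_HDF : Prop := ∀ (K : Type) [Field K] (r N : ℕ)
  (J : Ideal (MvPolynomial (Fin r × Fin (N + 1)) K)), MH J → ∀ (j : Fin r) (c : Fin (N + 1) → K),
    (∀ Q, (∑ i, C (c i) * X (j, i)) * Q ∈ J → Q ∈ J) →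
      MH (J ⊔ Ideal.span {∑ i, C (c i) * X (j, i)}) ∧ ∀ β : Fin r → ℕ,
        HF J (β + Pi.single j 1) - HF J β =
          HF (J ⊔ Ideal.span {∑ i, C (c i) * X (j, i)}) (β + Pi.single j 1)

/-- PACKET DIF (1 h; uses SATL, HDF): the iterated differences of a Hilbert function are nonnegative from some `B` on.

PROOF.  Induction on `q`, for all `I`.  `js = []`: `HF I β ≥ 0` (dimension of a subspace of the finite-dimensional `mh β`).  `js = j :: js'`, `length js' ≤ q`: let `J_j, B_j, c_j` be given by SATL for `(I, j)`, `𝒥_j = J_j + (ℓ_j)`.  For `β j ≥ B_j` the spaces `I ⊓ mh β` and `J_j ⊓ mh β` are equal, so `HF I β = HF J_j β`, and HDF gives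
`fd j (HF I) β = HF 𝒥_j (β + e_j)` for all `β` with `β j ≥ B_j`.  `fds (j :: js') (HF I) = fds js' (fd j (HF I))`, and `fds js' g β` depends only on the values of `g` at points `≥ β`; `fds` commutes with translations.  So for `β ≥ B_j`: `fds (j :: js') (HF I) β = fds js' (HF 𝒥_j) (β + e_j) ≥ 0` if `β ≥ B'_j` (induction for `𝒥_j`).
`B` = maximum over the finitely many `j` of `B_j, B'_j`. -/
def S_DIF : Prop := ∀ (K : Type) [Field K] [Infinite K] (r N q : ℕ)
  (I : Ideal (MvPolynomial (Fin r × Fin (N + 1)) K)), MH I →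
    ∃ B : ℕ, ∀ js : List (Fin r), js.length ≤ q → ∀ β : Fin r → ℕ, (∀ i, B ≤ β i) → 0 ≤ fds js (HF I) β

/-- PACKET TRN (1.5 h): the dimensions of products of spans are Hilbert functions.

PROOF.  `I` = kernel of the `K`-algebra homomorphism `φ : S → L[T_1, …, T_r]`, `X_(i,j) ↦ C (y i j) * T_i`.  For `Q ∈ mh β`: `φ Q = C (Q(y)) T^β`.  So `φ Q` for a general `Q` has the component `C (Q_β(y)) T^β`, and `Q ∈ I` iff `Q_β(y) = 0` for all `β`: `MH I` and the last claim.
The linear map `mh β → L`, `Q ↦ Q(y)`, has the kernel `I ⊓ mh β`; its image is spanned by the values of the monomials of multidegree `β`, i.e. by the products `∏_i ∏_(l < β_i) y i (j_(i,l))`, which is `∏_i (sp K (y i))^(β i)` (`Submodule.span_pow`, `Submodule.span_mul_span`, …).  Rank-nullity (`mh β` is finite-dimensional). -/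
def S_TRN : Prop := ∀ (K L : Type) [Field K] [Field L] [Algebra K L] (r N : ℕ) (y : Fin r → Fin (N + 1) → L),
  ∃ I : Ideal (MvPolynomial (Fin r × Fin (N + 1)) K), MH I ∧ (∀ β : Fin r → ℕ, HF I β = hf K y β) ∧
    ∀ β : Fin r → ℕ, ∀ Q ∈ mh K r N β, Q ∈ I ↔ aeval (fun p : Fin r × Fin (N + 1) => y p.1 p.2) Q = 0

/-- PACKET UPG (1.8 h): the growth of the powers of a subspace, upper bound.

PROOF.  `Y` contains a transcendence basis `z_1, …, z_d` of `K(Y)/K` (the generating set `Y` contains one).  `K(Y)` is algebraic over `K(z)` and finitely generated (`Y` is spanned by finitely many `y_i`), so finite: basis `ω_1, …, ω_s` over `K(z)`.  There are `Q, p_ijl, p_l ∈ K[z]`, `Q ≠ 0`, with `y_i ω_j = ∑_l (p_ijl/Q) ω_l`, `1 = ∑_l (p_l/Q) ω_l`; let `D` bound all the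
total degrees.  By induction on `t` every element of `Y^t` is `Q^(-(t+1)) ∑_l P_l ω_l` with `P_l ∈ K[z]` of total degree `≤ D (t+1)`.  So `dim Y^t ≤ s · binom(D(t+1) + d, d) ≤ s (D(t+1) + d)^d ≤ s (D + d)^d (t+1)^d` (dimension of the polynomials of degree `≤ D(t+1)` in `d` variables; any bound `C (t+1)^d` is enough: e.g. exponents `≤ D(t+1)` in every
variable: `(D(t+1)+1)^d`). -/
def S_UPG : Prop := ∀ (K L : Type) [Field K] [Field L] [Algebra K L] (Y : Submodule K L) (d : ℕ), Y.FG → 1 ∈ Y →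
  Algebra.trdeg K (IntermediateField.adjoin K (Y : Set L)) = d →
    ∃ C : ℝ, 0 ≤ C ∧ ∀ t : ℕ, (Module.finrank K (Y ^ t : Submodule K L) : ℝ) ≤ C * ((t : ℝ) + 1) ^ d

/-- PACKET LOG (1 h): the growth of the powers of a subspace, lower bound.

PROOF.  `z_1, …, z_d ∈ Y` algebraically independent (a transcendence basis of `K(Y)/K` contained in `Y`).  As `1 ∈ Y`, all monomials in the `z_i` of degree `≤ t` are in `Y^t`, and they are linearly independent; there are `binom(t + d, d)` of them.  (`Y^t` is finite-dimensional.)  `binom(t+d, d) ≥ t^d/d!`. -/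
def S_LOG : Prop := ∀ (K L : Type) [Field K] [Field L] [Algebra K L] (Y : Submodule K L) (d : ℕ), Y.FG → 1 ∈ Y →
  Algebra.trdeg K (IntermediateField.adjoin K (Y : Set L)) = d →
    ∀ t : ℕ, (t : ℝ) ^ d / (d.factorial : ℝ) ≤ Module.finrank K (Y ^ t : Submodule K L)

/-- PACKET NUMV (2 h): limits for functions with nonnegative differences (combinatorics).

PROOF.  For `i + j = d` let `h_ij = Δ_0^i Δ_1^j h` (`fds (replicate i 0 ++ replicate j 1) h`; differences commute), on `β ≥ (B,B)`: `h_ij ≥ 0`, and `h_ij` is nondecreasing in both variables (differences of order `d + 1`).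
It is bounded: let `h_ij(β₁) = M`, so `h_ij ≥ M` on `β ≥ β₁`.  Summing up and using that the lower differences are `≥ 0`: `(Δ_0^i' Δ_1^j' h)(β₁ + (s,s')) ≥ M binom(s, i-i') binom(s', j-j')`; in particular `M binom(s,i) binom(s,j) ≤ h(β₁ + (s,s)) ≤ C (|β₁| + 2s + 1)^d` for all `s`; divide by `s^d`, `s → ∞`: `M ≤ C 2^d i! j!`.
A bounded integer-valued function, nondecreasing in both variables, is constant for `β ≥` the point where its maximum is attained: there are `B₁` and `D'_ij ≥ 0` with `h_ij(β) = D'_ij` for all `β ≥ (B₁,B₁)`, all `i + j = d`.  Hence all differences of order `d + 1` vanish on `β ≥ (B₁,B₁)`, and Newton's formula (`shift_eq_sum_fwdDiff_iter` in Mathlib, in both variables) gives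
`h(B₁ + p, B₁ + q) = ∑_(i+j ≤ d) (Δ_0^i Δ_1^j h)(B₁,B₁) binom(p,i) binom(q,j)`.  With `p = a t - B₁`, `q = e t - B₁`: `binom(p,i) binom(q,j)/t^d → a^i e^j/(i! j!)` if `i + j = d` and `→ 0` if `i + j < d`.  So the limit is `∑_(i+j=d) D'_ij/(i! j!) a^i e^j`; `D_j = D'_(d-j, j)/((d-j)! j!)`. -/
def S_NUMV : Prop := ∀ (d : ℕ) (h : (Fin 2 → ℕ) → ℤ) (B : ℕ) (C : ℝ),
  (∀ js : List (Fin 2), js.length ≤ d + 1 → ∀ β : Fin 2 → ℕ, (∀ i, B ≤ β i) → 0 ≤ fds js h β) →
  (∀ β : Fin 2 → ℕ, (h β : ℝ) ≤ C * ((β 0 : ℝ) + β 1 + 1) ^ d) →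
    ∃ D : Fin (d + 1) → ℝ, (∀ i, 0 ≤ D i) ∧ ∀ a e : ℕ, 1 ≤ a → 1 ≤ e →
      Tendsto (fun t : ℕ => (h ![a * t, e * t] : ℝ) / (t : ℝ) ^ d) atTop (𝓝 (vp d D a e))

/-- PACKET NEAR (2 h): a common multiple of small degree.

PROOF.  Write `X, Y, W` for the three spans, `g_t(β) = dim(X^(at) Y^β W^(et))`.  For `t ≥ B` (so `at, et ≥ B`) the hypothesis says that `g_t` is convex on `[B, ∞)`.  Multiplication by a power of a nonzero coordinate of `y` shows that `g_t` is nondecreasing; `g_t(0) > 0`.  Let `𝒰 = X^(at) Y^B W^(et)`, `dim 𝒰 = g_t(B) ≥ g_t(0)`.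
Let `I'` be the set of the `i` with `y i ≠ 0`, `n + 1 = card I' ≤ N + 1`, `π = ∏_(i ∈ I') (y i)^(bt)`.  For `i ∈ I'`: `(y i)^(-bt) 𝒰 ≤ π⁻¹ Y^(n b t) 𝒰 = π⁻¹ · X^(at) Y^(B + nbt) W^(et)`, of dimension `g_t(B + nbt) ≤ g_t(B + Nbt)`.  The `n + 1` subspaces `(y i)^(-bt) 𝒰`, of dimension `g_t(B)`, have a common nonzero element `s` if `n (g_t(B + nbt) - g_t(B)) < g_t(B)`; then
`s (y i)^(bt) ∈ 𝒰` for `i ∈ I'`, and for the other `i` it is `0` (`bt ≥ 1`).
If `N = 0` this is clear.  Let `N ≥ 1`.  For large `t`, `1 ≤ Kc` (`g_t(0) ≤ g_t(B't) ≤ Kc g_t(0)`), so `N b ≤ N² b Kc < B'` and `B't - B ≥ Nbt` for large `t`.  Convexity: `(B't - B) (g_t(B + Nbt) - g_t(B)) ≤ N b t (g_t(B't) - g_t(B)) ≤ N b t Kc g_t(0) ≤ N b t Kc g_t(B)`.  So `N (g_t(B + Nbt) - g_t(B)) ≤ (N² b Kc t/(B't - B)) g_t(B)`, and `N² b Kc t/(B't - B) → N² b Kc/B' < 1`. -/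
def S_NEAR : Prop := ∀ (K L : Type) [Field K] [Field L] [Algebra K L] (N : ℕ) (x y w : Fin (N + 1) → L) (B : ℕ),
  x ≠ 0 → y ≠ 0 → w ≠ 0 →
  (∀ β : Fin 3 → ℕ, (∀ i, B ≤ β i) → 0 ≤ fds [1, 1] (hf K ![x, y, w]) β) →
  ∀ (a B' b e : ℕ) (Kc : ℝ), 1 ≤ a → 1 ≤ b → 1 ≤ e → (N : ℝ) ^ 2 * b * Kc < B' →
    (∀ᶠ t : ℕ in atTop,
      (Module.finrank K (sp K x ^ (a * t) * sp K y ^ (B' * t) * sp K w ^ (e * t) : Submodule K L) : ℝ) ≤
        Kc * Module.finrank K (sp K x ^ (a * t) * sp K w ^ (e * t) : Submodule K L)) →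
      ∀ T : ℕ, ∃ t, T ≤ t ∧ ∃ s : L, s ≠ 0 ∧ ∀ i,
        s * y i ^ (b * t) ∈ (sp K x ^ (a * t) * sp K y ^ B * sp K w ^ (e * t) : Submodule K L)

end Pool.Agent.Helper10.GO
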