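import Pool.Agent.Helper10.GO.DefsC
import Pool.Agent.Helper10.GO.GoalsA

/-!
# Project GO (MP_6af536_nt), module C: volumes.

Every `def S_XXX : Prop` is a packet.  `uses A, B` means that the statements `S_A`, `S_B` are hypotheses of your theorem.
Notation: `X_n = sp K (ξ n)`, `dim = finrank K`, `d = trdeg K (ratioField K (ξ 0))`, `φ_n(σ) = vp d (D n) (exp (n σ)) 1`.
`vp d D` is homogeneous of degree `d` in `(a, e)` and, for `D ≥ 0`, nondecreasing in `a, e ≥ 0`.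
-/

set_option autoImplicit false

open MvPolynomial Filter Topology

noncomputable section

namespace Pool.Agent.Helper10.GO

open Pool.Agent.Helper80.HD Pool.Agent.Helper80.AD

/-- PACKET ISO (1 h; uses TRN): the dimensions do not depend on `n`.

PROOF.  (1), (2): induction on `m` (`aeval (ξ n) (aeval (it Γ m) (Γ j)) = aeval (fun i => aeval (ξ n) (it Γ m i)) (Γ j)`; a form of degree `δ` of forms of degree `δ^m` is a form of degree `δ^(m+1)`).  (3) If `ξ n = 0` all the forms `X i` vanish at `ξ n`, hence at `ξ 0` (`same`).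
(4) TRN for `![ξ n, ξ (n+m)]` and for `![ξ 0, ξ m]`, `β = ![a, e]`: both sides are `HF`-values `finrank (mh β) - finrank (I ⊓ mh β)` (`hf K ![x, y] ![a, e] = finrank (sp x ^ a * sp y ^ e)`, `Fin.prod_univ_two`), and the subspaces `I ⊓ mh β` are the same: for `Q ∈ mh β`, `Q(ξ n, ξ (n+m)) = Q(X, it Γ m)(ξ n)`, where `Q(X, it Γ m)` is a form of degree
`a + e δ^m` in `X`, and `Q(ξ 0, ξ m)` is its value at `ξ 0`; use `same`. -/
def S_ISO : Prop := ∀ (K : Type) [Field K] [Algebra K ℂ] (N δ : ℕ)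
  (Γ : Fin (N + 1) → MvPolynomial (Fin (N + 1)) K) (ξ : ℕ → Fin (N + 1) → ℂ), GenData K N δ Γ ξ →
    (∀ n m j, ξ (n + m) j = aeval (ξ n) (it Γ m j)) ∧ (∀ m j, (it Γ m j).IsHomogeneous (δ ^ m)) ∧
    (∀ n, ξ n ≠ 0) ∧ ∀ n m a e : ℕ,
      Module.finrank K (sp K (ξ n) ^ a * sp K (ξ (n + m)) ^ e : Submodule K ℂ) =
        Module.finrank K (sp K (ξ 0) ^ a * sp K (ξ m) ^ e : Submodule K ℂ)

/-- PACKET VOL (2 h; uses TRN, DIF, UPG, LOG, NUMV, ISO): the volumes exist.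

PROOF.  Fix `m`, `x = ξ 0`, `y = ξ m`; `y_i = (it Γ m i)(x)`, forms of the same degree, so `y_i / y_j ∈ ratioField K x`.  Choose `x_p ≠ 0`, `y_q ≠ 0`; `X̃ = x_p⁻¹ X_0`, `Ỹ = y_q⁻¹ X_m` (spans of the `x_i/x_p`, resp. `y_i/y_q`), `Z = X̃ + Ỹ ∋ 1`; `K(X̃) = K(Z) = ratioField K x` (`x_i/x_j = (x_i/x_p)/(x_j/x_p)`).  `dim(X_0^a X_m^e) = dim(X̃^a Ỹ^e)` (multiplication by a nonzero
number) `≤ dim Z^(a+e) ≤ C (a + e + 1)^d` (`1 ∈ Z`; UPG).  NUMV for `h = hf K ![x, y]` (`= HF I`, TRN; DIF with `q = d + 1`): `D m`, `nn` and `lim` (`h ![a t, e t] = dim(X_0^(at) X_m^(et))`, `Fin.prod_univ_two`).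
`low`: LOG for `X̃`, `dim X_0^t = dim X̃^t`.  `low0`: `dim(X_0^(at) X_m^(et)) ≥ dim X_0^(at) ≥ (at)^d/d!` (multiply by a power of `y_q`), so `vp d (D m) a 1 ≥ a^d/d!` for all `a ≥ 1`; divide by `a^d`, `a → ∞`.  `lowd`: `dim(X_0^(at) X_m^(et)) ≥ dim X_m^(et) = dim X_0^(et)` (ISO with `n = m`, exponents `(et, 0)`) `≥ (et)^d/d!`; `a = 1`, divide by `e^d`, `e → ∞`. -/
def S_VOL : Prop := ∀ (K : Type) [Field K] [Infinite K] [Algebra K ℂ] (N δ d : ℕ)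
  (Γ : Fin (N + 1) → MvPolynomial (Fin (N + 1)) K) (ξ : ℕ → Fin (N + 1) → ℂ), GenData K N δ Γ ξ →
    Algebra.trdeg K (ratioField K (ξ 0)) = d → ∃ D : ℕ → Fin (d + 1) → ℝ, VolData K d ξ D

/-- PACKET VSUB (1.5 h; uses PET, ISO): submultiplicativity.

PROOF.  Natural numbers `a, b, e ≥ 1`: PET for `A = X_0^(at)`, `Y = X_n^(bt)`, `C = X_(n+m)^(et)`: `dim(AC) dim Y ≤ dim(AY) dim(YC)`.  `dim Y = dim X_0^(bt) ≥ (bt)^d/d!` (ISO, `low`); `dim(YC) = dim(X_0^(bt) X_m^(et))` (ISO).  Divide by `t^(2d)` and let `t → ∞` (`lim`): the claim.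
Positive rational numbers: multiply by a common denominator `q`; `vp d` is homogeneous of degree `d`, both sides are multiplied by `q^(2d)`.  Real numbers: continuity of the polynomials and density. -/
def S_VSUB : Prop := ∀ (K : Type) [Field K] [Algebra K ℂ] (N δ d : ℕ)
  (Γ : Fin (N + 1) → MvPolynomial (Fin (N + 1)) K) (ξ : ℕ → Fin (N + 1) → ℂ) (D : ℕ → Fin (d + 1) → ℝ),
    GenData K N δ Γ ξ → VolData K d ξ D → VSub d D

/-- PACKET VTRI (1 h; uses PET, ISO): the triple products.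

PROOF.  PET for `A = X_0^(at) X_m^(b't)`, `Y = X_m^(bt)`, `C = X_(2m)^(et)`: `dim(AC) dim Y ≤ dim(AY) dim(YC)`, `AC` is the space in the claim (commutativity), `dim Y = dim X_0^(bt) ≥ (bt)^d/d!` (ISO with `n = m`, exponents `(bt, 0)`; `low`), `AY = X_0^(at) X_m^((b+b')t)`, `dim(YC) = dim(X_0^(bt) X_m^(et))` (ISO with `n = m`, `2m = m + m`).
So for `t ≥ 1`: `dim(AC) b^d / t^d ≤ d! (dim(AY)/t^d) (dim(YC)/t^d) → d! vp(a, b+b') vp(b, e)` (`lim`). -/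
def S_VTRI : Prop := ∀ (K : Type) [Field K] [Algebra K ℂ] (N δ d : ℕ)
  (Γ : Fin (N + 1) → MvPolynomial (Fin (N + 1)) K) (ξ : ℕ → Fin (N + 1) → ℂ) (D : ℕ → Fin (d + 1) → ℝ),
    GenData K N δ Γ ξ → VolData K d ξ D → ∀ m a b b' e : ℕ, 1 ≤ a → 1 ≤ b → 1 ≤ e → ∀ ε : ℝ, 0 < ε →
      ∀ᶠ t : ℕ in atTop,
        (Module.finrank K (sp K (ξ 0) ^ (a * t) * sp K (ξ m) ^ (b' * t) * sp K (ξ (2 * m)) ^ (e * t) :
          Submodule K ℂ) : ℝ) * (b : ℝ) ^ d ≤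
          ((d.factorial : ℝ) * vp d (D m) a ((b : ℝ) + b') * vp d (D m) b e + ε) * (t : ℝ) ^ d

/-- PACKET FEK (2 h): the growth function of the volumes (real analysis).

PROOF.  `c_n(σ) = log(d! φ_n(σ))`, `φ_n(σ) = vp d (D n) (e^(nσ)) 1 ≥ D n d ≥ 1/d!`, so `c_n ≥ 0`.  VSub with `a = e^((n+m)σ)`, `b = e^(mσ)`, `e = 1`, and `vp d (D n) (e^((n+m)σ)) (e^(mσ)) = e^(mσd) φ_n(σ)`: `c_(n+m) ≤ c_n + c_m`.  Fekete (`Subadditive.tendsto_lim`): `c_n(σ)/n → G(σ)`, and `log(φ_n(σ))/n → G(σ)`.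
Let `g_(n,i) = log(D n i)/n` (if `D n i > 0`), `M_n(σ)` = maximum over the `i` with `D n i > 0` of `g_(n,i) + (d-i)σ`.  `M_n ≤ log(φ_n)/n ≤ M_n + log(d+1)/n`, so `M_n(σ) → G(σ)`; in particular all `g_(n,i)` are bounded above by a constant (`σ = 0`), and `g_(n,0) ≥ -log(d!)/n`.
Take the limits along the ultrafilter `hyperfilter ℕ` in `[-∞, ∞)`: `g_(n,i) → g_i`; let `I` be the set of the `i` with `g_i > -∞` (`0 ∈ I`).  For fixed `σ` the terms with `i ∉ I` tend to `-∞` (or are absent), so `G(σ) = max_(i ∈ I) (g_i + (d-i)σ)` for all `σ`.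
`Λ` = set of the `σ` at which the maximum is attained by at least two `i ∈ I` (two affine functions of different slopes agree in at most one point, so `Λ` is finite).  Map `l ∈ Λ` to the smallest slope `d - i` attained at `l`: this map to `{0, …, d-1}` is strictly increasing (for `l < l'` in `Λ` the largest slope attained at `l` is at most the smallest one attained at `l'`), so
`card Λ ≤ d`.  If there is no point of `Λ` strictly between `σ₁ < σ₂`, then one `i ∈ I` attains the maximum on the whole interval `[σ₁, σ₂]`: let `i` be the unique index that attains it at the midpoint; the set of points of the open interval where `i` attains the maximum is closed, and open as it is the unique such index there; at the ends by continuity.  So `G` is affine on `[σ₁, σ₂]`.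
(Or: if `i` is the only maximal index at the midpoint `μ` and another index `j` is strictly larger at `σ₂`, let `s` be the infimum of the points of `[μ, σ₂]` where `i` is not maximal; at `s` both `i` and another index are maximal, `s ∈ Λ`, `μ < s < σ₂`.) -/
def S_FEK : Prop := ∀ (d : ℕ) (D : ℕ → Fin (d + 1) → ℝ), (∀ m i, 0 ≤ D m i) →
  (∀ m, 1 / (d.factorial : ℝ) ≤ D m 0) → (∀ m, 1 / (d.factorial : ℝ) ≤ D m (Fin.last d)) → VSub d D →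
    ∃ (Λ : Finset ℝ) (G : ℝ → ℝ), Λ.card ≤ d ∧
      (∀ σ : ℝ, Tendsto (fun n : ℕ => Real.log (vp d (D n) (Real.exp (n * σ)) 1) / n) atTop (𝓝 (G σ))) ∧
      ∀ σ₁ σ₂ : ℝ, IsGap Λ σ₁ σ₂ → G σ₁ + G σ₂ = 2 * G ((σ₁ + σ₂) / 2)

/-- PACKET RECK (2 h; uses TRN, DIF, NEAR, ISO, VTRI): the sections for a gap.

PROOF.  `φ_n(σ) = vp d (D n) (e^(nσ)) 1 > 0`.  `Q_m = 2 d! 8^d φ_m(σ₁) φ_m(σ₂) / φ_(2m)((σ₁+σ₂)/2)`: `(1/m) log Q_m → G σ₁ + G σ₂ - 2 G((σ₁+σ₂)/2) = 0`, so `Q_m ≤ e^(εm/2)` for large `m`.  Fix a large `m`.  Let `E₁` be a large natural number (depending on `m`), `a = ⌈e^((σ₁+σ₂)m) E₁⌉ ≤ 2 e^((σ₁+σ₂)m) E₁`, `b₁ = ⌈e^(σ₂ m) E₁⌉ ∈ [e^(σ₂m) E₁, 2 e^(σ₂m) E₁]`.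
Let `κ = d! vp(D_m)(a, 2b₁) vp(D_m)(b₁, E₁)/b₁^d`, `κ' = vp(D_(2m))(a, E₁) > 0`, `Kc = 2κ/κ'`.  For large `t`: `dim(X_0^(at) X_m^(b₁t) X_(2m)^(E₁t)) ≤ Kc dim(X_0^(at) X_(2m)^(E₁t))` (VTRI with `b = b' = b₁`, and `lim`).  As `vp` is monotone and homogeneous: `vp(D_m)(a, 2b₁) ≤ (4e^(σ₂m)E₁)^d φ_m(σ₁)`, `vp(D_m)(b₁,E₁) ≤ (2E₁)^d φ_m(σ₂)`,
`b₁^d ≥ (e^(σ₂m)E₁)^d`, `κ' ≥ E₁^d φ_(2m)((σ₁+σ₂)/2)`.  So `Kc ≤ Q_m`.  Let `b₂ = ⌊b₁/(N² Q_m + 1)⌋`.  If `E₁` is large, `b₂ ≥ 1`, `b₂ ≥ ½ b₁/(N² Q_m + 1)`, so `b₂/E₁ ≥ ½ e^(σ₂m)/(N² e^(εm/2) + 1) ≥ e^((σ₂-ε)m)` for large `m`; and `N² b₂ Kc < (N² Q_m + 1) b₂ ≤ b₁`.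
NEAR for `x, y, w = ξ 0, ξ m, ξ (2m)` (nonzero by ISO), `(a, B', b, e) = (a, b₁, b₂, E₁)`; its hypothesis on the second differences: TRN and DIF (`q = 2`) for `![ξ 0, ξ m, ξ (2m)]`, which give `B`.  Take `T = 2B + 1`: `t ≥ T` and `s ≠ 0` with `s (ξ m i)^(b₂t) ∈ X_0^(at) X_m^B X_(2m)^(E₁t)`.  The result: `(A, b, B, E) = (a t, b₂ t, B, E₁ t)`. -/
def S_RECK : Prop := ∀ (K : Type) [Field K] [Infinite K] [Algebra K ℂ] (N δ d : ℕ)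
  (Γ : Fin (N + 1) → MvPolynomial (Fin (N + 1)) K) (ξ : ℕ → Fin (N + 1) → ℂ) (D : ℕ → Fin (d + 1) → ℝ)
  (G : ℝ → ℝ) (σ₁ σ₂ : ℝ), GenData K N δ Γ ξ → VolData K d ξ D → σ₁ < σ₂ →
    (∀ σ : ℝ, Tendsto (fun n : ℕ => Real.log (vp d (D n) (Real.exp (n * σ)) 1) / n) atTop (𝓝 (G σ))) →
    G σ₁ + G σ₂ = 2 * G ((σ₁ + σ₂) / 2) → ∀ ε : ℝ, 0 < ε → ∀ᶠ m : ℕ in atTop,
      ∃ A b B E : ℕ, 1 ≤ b ∧ 1 ≤ E ∧ 2 * B ≤ b ∧ (A : ℝ) ≤ 2 * Real.exp ((σ₁ + σ₂) * m) * E ∧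
        Real.exp ((σ₂ - ε) * m) * E ≤ b ∧ Sec K ξ 0 m (2 * m) A b B E

/-- PACKET LLIP (1.2 h; uses TRN, DIF, NEAR, ISO): the section for the lower bound.

PROOF.  `κ₁ = d! ∑_i D 1 i`, `M` a natural number `> N² (κ₁ + 1)`, `M ≥ 1`.  NEAR for `x = w = ξ 1`, `y = ξ 0`, `(a, B', b, e) = (M, M, 1, M)`, `Kc = κ₁ + 1`: the large space is `X_1^(Mt) X_0^(Mt) X_1^(Mt) = X_0^(Mt) X_1^(2Mt)`, of dimension `~ vp(D_1)(M, 2M) t^d`, `vp(D_1)(M, 2M) ≤ (2M)^d ∑ D 1 i`, and the small one is `X_1^(2Mt)`, `dim X_1^(2Mt) = dim X_0^(2Mt) ≥ (2Mt)^d/d!` (ISO with `n = 1`, `low`);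
so the quotient is `≤ κ₁ + 1` for large `t`.  `B` from TRN and DIF (`q = 2`) for `![ξ 1, ξ 0, ξ 1]`.  `T = 2B + 1`: `t ≥ T`, `s (ξ 0 i)^t ∈ X_1^(Mt) X_0^B X_1^(Mt)`; `(A, b, B, E) = (Mt, t, B, Mt)`. -/
def S_LLIP : Prop := ∀ (K : Type) [Field K] [Infinite K] [Algebra K ℂ] (N δ d : ℕ)
  (Γ : Fin (N + 1) → MvPolynomial (Fin (N + 1)) K) (ξ : ℕ → Fin (N + 1) → ℂ) (D : ℕ → Fin (d + 1) → ℝ),
    GenData K N δ Γ ξ → VolData K d ξ D → ∃ A b B E : ℕ, 1 ≤ b ∧ 2 * B ≤ b ∧ Sec K ξ 1 0 1 A b B E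

end Pool.Agent.Helper10.GO
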