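import Pool.Agent.Helper10.GO.DefsD

/-!
# Project GO (MP_6af536_nt), module D: real analysis.

Every `def S_XXX : Prop` is a packet; `uses A` means that `S_A` is a hypothesis of your theorem.  No arithmetic and no geometry.
`𝒰` is the ultrafilter `Filter.hyperfilter ℕ` (it is finer than `atTop`: `Nat.hyperfilter_le_atTop`); bounded real sequences converge along `𝒰`.
-/

set_option autoImplicit false

open Filter Topology

noncomputable section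

namespace Pool.Agent.Helper10.GO

/-! ## Blow-downs -/

/-- PACKET JMP (1.2 h): a discrete jump lemma.

PROOF.  `Big a`: `c₀ + c ≤ W a`; `High a`: `μ ≤ W (a+1) - W a`.  The rule: `High a`, `Big (a+1)` imply `ν ≤ W (a+2) - W (a+1)`, so `High (a+1)`.
Case `0 ≤ μ`.  `V a = W a - μ a`; let `a₀ ≤ q` minimize `V` on `[0, q]`; `V q > V 0 + c ≥ V a₀ + c`, so `a₀ < q`.  Let `a₁` be the last index in `[a₀, q)` with `V a₁ < V a₀ + c` (`a₀` is one).  Then `V (a₁+1) ≥ V a₀ + c > V a₁`, so `High a₁`, and `W (a₁+1) = V (a₁+1) + μ (a₁+1) ≥ V a₀ + c + μ a₀ = W a₀ + c ≥ c₀ + c`, so `Big (a₁+1)`.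
By induction all `a ≥ a₁ + 1` satisfy `W (a+1) - W a ≥ ν ≥ μ ≥ 0`, `Big (a+1)`.  As `q ≥ a₁ + 1`: `W r - W q ≥ ν (r - q)`.
Case `ν ≤ 0` (so `μ ≤ 0`).  (i) Suppose there is `a < q` with `High a` and `Big b` for all `b ∈ [a+1, q]`.  By induction `High b` for `b ∈ [a, q]`, and the step from `q` is `≥ ν` (`High (q-1)`, `Big q`).  If `Big b` for all `b ∈ [q, r)` all steps from `q` to `r` are `≥ ν`.  Otherwise let `b ∈ (q, r)` be the first one with not `Big b`: the steps from `q` to `b` are `≥ ν`, and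
`W r ≥ c₀ > W b - c`, so `W r - W q ≥ ν (b - q) - c ≥ ν (r - q) - c`.
(ii) Otherwise: some `a < q` is `High` (if all steps before `q` are `< μ` then `W q - W 0 ≤ μ q`, contradiction), so some `b ∈ [1, q]` is not `Big`; let `b` be the last one.  No `a ∈ [b, q)` is `High` (otherwise (i)), so `W q - W b ≤ μ (q - b) ≤ 0`, `W q ≤ W b < c₀ + c ≤ W r + c`, and `W r - W q ≥ -c ≥ ν (r - q) - c`. -/
def S_JMP : Prop := ∀ (W : ℕ → ℝ) (c₀ c μ ν : ℝ) (q r : ℕ), 0 < c → μ ≤ ν → (0 ≤ μ ∨ ν ≤ 0) → (∀ a, c₀ ≤ W a) →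
  (∀ a, μ ≤ W (a + 1) - W a → c₀ + c ≤ W (a + 1) → ν ≤ W (a + 2) - W (a + 1)) →
  μ * q + c < W q - W 0 → q ≤ r → ν * ((r : ℝ) - q) - c ≤ W r - W q

/-- the Lipschitz condition from `n₀` on, in every coordinate -/
def LipU {r : ℕ} (U : (Fin r → ℕ) → ℝ) (C : ℝ) (n₀ : ℕ) : Prop := 1 ≤ C ∧ (∀ J, 0 < U J) ∧
  ∀ (i : Fin r) (J : Fin r → ℕ), n₀ ≤ J i →
    U (Function.update J i (J i + 1)) ≤ C * U J ∧ U J ≤ C * U (Function.update J i (J i + 1))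

/-- the blow-down of `log U` along the sequence of scales `R` -/
def blow {r : ℕ} (U : (Fin r → ℕ) → ℝ) (R : ℕ → ℕ) (n₀ : ℕ) (s : Fin r → ℝ) : ℝ :=
  limUnder (Filter.hyperfilter ℕ : Filter ℕ)
    (fun j => Real.log (U (fun i => ⌊(R j : ℝ) * s i⌋₊ + n₀)) / (R j : ℝ))

/-- PACKET BLOW (1.5 h): blow-downs exist and are Lipschitz.

PROOF.  Changing one coordinate by one changes `log U` by at most `log C` (as long as it is `≥ n₀`), so `|log U(J) - log U(J')| ≤ log C · ∑ |J i - J' i|` if all `J i, J' i ≥ n₀` (change the coordinates one after the other).  For `J_j = ⌊R_j s⌋ + n₀` and `s ≥ 0`: `|log U(J_j) - log U(n₀, …, n₀)| ≤ log C · R_j ∑ s_i`, so the sequence is bounded (for large `j`), and converges along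
the ultrafilter.  (b): `|⌊R s⌋ - ⌊R s'⌋| ≤ R |s - s'| + 1`, divide by `R_j → ∞`.  (c): `log U(n₀, …, n₀)/R_j → 0`. -/
def S_BLOW : Prop := ∀ (r : ℕ) (U : (Fin r → ℕ) → ℝ) (C : ℝ) (n₀ : ℕ), LipU U C n₀ →
  (∀ J J' : Fin r → ℕ, (∀ i, n₀ ≤ J i) → (∀ i, n₀ ≤ J' i) →
    |Real.log (U J) - Real.log (U J')| ≤ Real.log C * ∑ i, |(J i : ℝ) - J' i|) ∧
  ∀ R : ℕ → ℕ, Tendsto R atTop atTop →
    (∀ s : Fin r → ℝ, (∀ i, 0 ≤ s i) →
      Tendsto (fun j => Real.log (U (fun i => ⌊(R j : ℝ) * s i⌋₊ + n₀)) / (R j : ℝ))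
        (Filter.hyperfilter ℕ : Filter ℕ) (𝓝 (blow U R n₀ s))) ∧
    (∀ s s' : Fin r → ℝ, (∀ i, 0 ≤ s i) → (∀ i, 0 ≤ s' i) →
      |blow U R n₀ s - blow U R n₀ s'| ≤ Real.log C * ∑ i, |s i - s' i|) ∧
    blow U R n₀ (fun _ => 0) = 0

/-- PACKET ONE (2 h; uses JMP, BLOW): the jump property of a blow-down in each variable.

PROOF.  `F = blow U R n₀`, `f(x) = F (update s i x)`, continuous on `[0, ∞)`.  If `p = 0`, replace it by a small `p > 0` (the strict inequality persists).  Let `ε > 0` be small: `σ₁ + ε ≤ σ₂ - ε`, `(σ₁ + 2ε)(q - p) < f q - f p`.  Let `m, C', n₁` be given by `jump` for `(σ₁, σ₂, ε)` (a gap of `insert 0 Λ` is a gap of `Λ`); `μ = (σ₁+ε) m`, `ν = (σ₂-ε) m`; `0` is not strictly between `σ₁` and `σ₂`, so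
`0 ≤ μ` or `ν ≤ 0`.  For `j` (large, along `𝒰`) let `N_p = ⌊R_j p⌋ + n₀ ≥ n₁`, `J_j(l) = ⌊R_j s_l⌋ + n₀` (`l ≠ i`), `W a = log U(J_j with the coordinate i equal to N_p + a m)`, `c₀ = log κ_i(J_j)` (does not depend on the coordinate `i`; `κ_i ≤ U`), `c = log C' + 1 > 0`.  The rule of JMP is the property `jump` (logarithms).
`a_q = ⌊(⌊R_j q⌋ - ⌊R_j p⌋)/m⌋`, `a_r` in the same way, `a_q ≤ a_r`; `N_p + a_q m` differs from `⌊R_j q⌋ + n₀` by at most `m`, so `|W a_q - log U(…, ⌊R_j q⌋ + n₀, …)| ≤ m log C` (BLOW).  So `(W a_q - W 0)/R_j → f q - f p`, `(μ a_q + c)/R_j → (σ₁+ε)(q - p)`: the hypothesis of JMP holds for `𝒰`-almost all `j`, and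
`ν (a_r - a_q) - c ≤ W a_r - W a_q`; divide by `R_j`: `(σ₂ - ε)(r - q) ≤ f r - f q`.  `ε → 0`. -/
def S_ONE : Prop := ∀ (k : ℕ) (U : (Fin (k + 1) → ℕ) → ℝ) (κ : Fin (k + 1) → (Fin (k + 1) → ℕ) → ℝ)
  (Λ : Finset ℝ) (C : ℝ) (n₀ : ℕ), JumpData k U κ Λ → LipU U C n₀ → ∀ R : ℕ → ℕ, Tendsto R atTop atTop →
    ∀ σ₁ σ₂ : ℝ, σ₁ < σ₂ → (∀ l ∈ insert 0 Λ, l ≤ σ₁ ∨ σ₂ ≤ l) →
      ∀ (i : Fin (k + 1)) (s : Fin (k + 1) → ℝ), (∀ l, 0 ≤ s l) → ∀ p q r : ℝ, 0 ≤ p → p < q → q < r →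
        σ₁ * (q - p) < blow U R n₀ (Function.update s i q) - blow U R n₀ (Function.update s i p) →
          σ₂ * (r - q) ≤ blow U R n₀ (Function.update s i r) - blow U R n₀ (Function.update s i q)

/-! ## Supporting lines -/

/-- at every point of `[0, S]` there is a supporting line with slope in `M` -/
def SL (M : Finset ℝ) (S : ℝ) (f : ℝ → ℝ) : Prop := ∀ x ∈ Set.Icc 0 S, ∃ l ∈ M, ∀ y ∈ Set.Icc 0 S,
  f x + l * (y - x) ≤ f y

/-- PACKET SLO (1.5 h): from the jump property to supporting lines.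

PROOF.  Write `slope(p,q) = (f q - f p)/(q - p)`; all slopes are in `[-c, c]`.
`0 < x < S`: `α₋ = sup_(0≤p<x) slope(p,x)`, `α₊ = inf_(x<r≤S) slope(x,r)`.  If some `l ∈ M` has `α₋ ≤ l ≤ α₊` it is a supporting slope.  Otherwise every `l ∈ M` with `l ≥ α₋` has `l > α₊`.  `σ₁` = largest `l ∈ M` with `l < α₋` (or `α₋ - 1` if there is none), `σ₂` = smallest `l ∈ M` with `l ≥ α₋` (or `max α₋ α₊ + 1`): a gap, `σ₂ > α₊`.
Some `p < x` has `slope(p,x) > σ₁`, so all `slope(x,r) ≥ σ₂ > α₊`: contradiction.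
`x = 0`: `α₊ = inf_(0<r≤S) slope(0,r)`; if all `l ∈ M` are `> α₊`, `σ₂` = smallest element of `M`, `σ₁ < min(-c, σ₂)`: a gap; some `r` has `slope(0,r) < σ₂`; for `0 < p < q < r`: `slope(p,q) ≥ -c > σ₁`, so `slope(q,r) ≥ σ₂`; `q → 0` (continuity): `slope(0,r) ≥ σ₂`, contradiction.
`x = S`: `α₋ = sup_(p<S) slope(p,S)`; if all `l ∈ M` are `< α₋`, `σ₁` = largest element of `M`, `σ₂ = max(σ₁, c) + 1`: a gap.  Some `slope(p,S) > σ₁`, so `slope(p,q) > σ₁` for `q < S` near `S`, so `slope(q,S) ≥ σ₂ > c`: contradiction. -/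
def S_SLO : Prop := ∀ (M : Finset ℝ) (S c : ℝ) (f : ℝ → ℝ), M.Nonempty → 0 < S →
  (∀ x y : ℝ, 0 ≤ x → 0 ≤ y → |f x - f y| ≤ c * |x - y|) →
  (∀ σ₁ σ₂ : ℝ, σ₁ < σ₂ → (∀ l ∈ M, l ≤ σ₁ ∨ σ₂ ≤ l) → ∀ p q r : ℝ, 0 ≤ p → p < q → q < r →
    σ₁ * (q - p) < f q - f p → σ₂ * (r - q) ≤ f r - f q) → SL M S f

/-- PACKET LTG (1 h): from local to global supporting lines.

PROOF.  Step 1: for `0 < p < q < S` and `y ∈ [p,q]`, `c y ≤` the chord of `c` over `[p,q]`.  Otherwise `g = c - chord` has a positive maximum on `[p,q]`; let `y₁` be the largest maximizer, `p < y₁ < q`.  The local supporting line at `y₁` gives `λ'` with `g y ≥ g y₁ + λ' (y - y₁)` near `y₁`, and `g ≤ g y₁`, so `λ' = 0` and `g = g y₁` near `y₁`: contradiction to the choice of `y₁`.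
So `c` is convex on `(0, S)`, by continuity on `[0,S]`.  Step 2: for `y₁ ∈ (0,S)` a local supporting line of a convex function is a global one.  Step 3: at `y = 0`: let `y_n → 0`, `y_n > 0`, with slopes `λ_n ∈ M'`; `M'` is finite, so some `λ` occurs infinitely often, and in the limit `c 0 + λ y' ≤ c y'` for all `y' ∈ [0,S]` (continuity).  The same at `S`. -/
def S_LTG : Prop := ∀ (M' : Finset ℝ) (S : ℝ) (c : ℝ → ℝ), 0 < S → ContinuousOn c (Set.Icc 0 S) →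
  (∀ y ∈ Set.Ioo 0 S, ∃ l ∈ M', ∀ᶠ y' in 𝓝 y, c y + l * (y' - y) ≤ c y') → SL M' S c

/-- `min_x (F(x,y) - l x)` over `x ∈ [0,S]` -/
def cl (S : ℝ) (F : ℝ → ℝ → ℝ) (l : ℝ) (y : ℝ) : ℝ := sInf ((fun x => F x y - l * x) '' Set.Icc 0 S)

/-- PACKET JC2 (2.5 h; uses LTG): two variables.

PROOF.  `M'` = set of the `θ q + (1-θ) q'`, `q, q' ∈ M`, `θ ∈ {0, 1} ∪ {(l_b - l)/(l_b - l_a) : l_a, l, l_b ∈ M, l_a < l < l_b}` (finite).  `F` is Lipschitz on `[0,S]²` (constant `max |M|` in each variable), and `c_l := cl S F l` is Lipschitz.  By SL in `x`: for `x ∈ [0,S]` and a supporting slope `l ∈ M` at `x`: `F x y = l x + c_l(y)`; and `F x y ≥ l x + c_l(y)` for all `l ∈ M`.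
So for fixed `y`, `F(·,y)` is a maximum of finitely many affine functions; for every `x₁ < S` there are `η > 0`, `l ∈ M` with `F(x,y) = F(x₁,y) + l (x - x₁)` on `[x₁, x₁+η]`, and the same on the left of every `x₁ > 0`.
(1) Let `y₁ ∈ (0,S)`, `l ∈ M`, and suppose `F(x,y₁) = l x + c_l(y₁)` on an interval `[x₁-η, x₁+η] ⊂ [0,S]`, `η > 0`.  Claim: `c_l(y) = F(x₁,y) - l x₁` for `y` near `y₁`.  Let `l'` be a supporting slope of `F(·,y)` at `x₁`: `F(x₁+η,y) - F(x₁,y) ≥ l'η` and `F(x₁-η,y) - F(x₁,y) ≥ -l'η`; the left-hand sides tend to `lη`, `-lη` for `y → y₁`, and `M` is finite, so `l' = l` for `y` near `y₁`: the claim.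
With a supporting slope `q ∈ M` of `F(x₁,·)` at `y₁`: `c_l(y) ≥ c_l(y₁) + q (y - y₁)` near `y₁`.
(2) In general let `y₁ ∈ (0,S)`, `l ∈ M`; `T = {x ∈ [0,S] : F(x,y₁) = l x + c_l(y₁)}` is a nonempty closed interval (convexity in `x`).  If it has an interior point: (1).  Otherwise `T = {x₁}`.  If `x₁ > 0` the slope of `F(·,y₁)` on some `[x₁-η,x₁]` is `l_a ∈ M`, `l_a < l`; if `x₁ < S` the slope on some `[x₁,x₁+η]` is `l_b > l`.  By (1) (at an interior point of these intervals)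
`c_(l_a)(y) ≥ c_(l_a)(y₁) + q_a (y - y₁)` near `y₁`, the same for `l_b`.  `F(x₁,y₁) = l_a x₁ + c_(l_a)(y₁) = l_b x₁ + c_(l_b)(y₁) = l x₁ + c_l(y₁)`.
`0 < x₁ < S`: `θ = (l_b - l)/(l_b - l_a)`, `l = θ l_a + (1-θ) l_b`: for all `x`: `F(x,y) ≥ θ (l_a x + c_(l_a)(y)) + (1-θ)(l_b x + c_(l_b)(y))`, so `c_l(y) ≥ θ c_(l_a)(y) + (1-θ) c_(l_b)(y) ≥ c_l(y₁) + (θ q_a + (1-θ) q_b)(y - y₁)` near `y₁`.
`x₁ = 0`: `F(x,y) - l x ≥ c_(l_b)(y) + (l_b - l) x ≥ c_(l_b)(y)`, so `c_l(y) ≥ c_(l_b)(y) ≥ c_(l_b)(y₁) + q_b (y - y₁)`, `c_(l_b)(y₁) = F(0,y₁) = c_l(y₁)`.  `x₁ = S`: `F(x,y) - l x ≥ c_(l_a)(y) + (l_a - l) S`, and `c_l(y₁) = c_(l_a)(y₁) + (l_a - l) S`.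
So `c_l` is continuous with local supporting lines with slopes in `M'` at all points of `(0,S)`: LTG. -/
def S_JC2 : Prop := ∀ M : Finset ℝ, ∃ M' : Finset ℝ, ∀ (S : ℝ) (F : ℝ → ℝ → ℝ), 0 < S →
  (∀ y ∈ Set.Icc 0 S, SL M S (fun x => F x y)) → (∀ x ∈ Set.Icc 0 S, SL M S (F x)) →
    ∀ l ∈ M, SL M' S (cl S F l)

/-- at every point of the box `[0, S]^r` there is a supporting hyperplane with gradient in `G` -/
def SLr {r : ℕ} (G : Finset (Fin r → ℝ)) (S : ℝ) (F : (Fin r → ℝ) → ℝ) : Prop :=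
  ∀ s : Fin r → ℝ, (∀ i, s i ∈ Set.Icc 0 S) → ∃ g ∈ G, ∀ s' : Fin r → ℝ, (∀ i, s' i ∈ Set.Icc 0 S) →
    F s + ∑ i, g i * (s' i - s i) ≤ F s'

/-- PACKET JCN (1.5 h; uses JC2): several variables.

PROOF.  Induction on `r`, for all `M`.  `r = 0`: `G = {0}` (the box is one point).  `r + 1`: coordinates `(x, y)`, `y : Fin r → ℝ` (`Fin.cons x y`).  For `l ∈ M` let `c_l(y) = min_(x ∈ [0,S]) (F(x,y) - l x)` (`= cl S (fun x _ => …)`).  For `i : Fin r` and `y` in the box the function `(x,t) ↦ F(x, update y i t)` has `SL M` in both variables, so by JC2 `t ↦ c_l(update y i t)` has `SL M'`.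
By induction for `M'`: `SLr G' S c_l`, `G'` depends only on `M', r`.  Let `(x,y)` be in the box.  By SL in `x` there is `l ∈ M` with `F(x,y) = l x + c_l(y)`; let `g ∈ G'` be a supporting gradient of `c_l` at `y`: `F(x',y') ≥ l x' + c_l(y') ≥ F(x,y) + l (x'-x) + ∑ g_i (y'_i - y_i)`.  `G = {cons l g : l ∈ M, g ∈ G'}`. -/
def S_JCN : Prop := ∀ (r : ℕ) (M : Finset ℝ), ∃ G : Finset (Fin r → ℝ), ∀ (S : ℝ) (F : (Fin r → ℝ) → ℝ), 0 < S →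
  (∀ s : Fin r → ℝ, (∀ i, s i ∈ Set.Icc 0 S) → ∀ i, SL M S (fun x => F (Function.update s i x))) → SLr G S F

/-- PACKET RED (1.5 h): the gradients are in `M^r`.

PROOF.  For `g ∈ G` let `A_g(s) = g·s + c_g`, `c_g = inf_box (F - g·)`; `F ≥ A_g`, and for every `s` in the box some `g ∈ G` has `F s = A_g s`; `F` is continuous on the box (maximum of finitely many affine functions).  Let `G₀` be the set of the `g ∈ G` such that `{F = A_g}` contains a nonempty open subset of the open box.  If `s` is a point of such an open set, then `F (update s i ·)` is affine with slope `g i` near `s i`,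
and has a supporting line with slope `l ∈ M` at `s i`: `g i = l ∈ M`.  So `G₀ ⊂ M^r`.  The sets `{s ∈ box : F s = A_g s}`, `g ∉ G₀`, are closed and have no interior in the open box, so their finite union has no interior; so on a dense subset of the open box, hence (continuity) on the whole box, `F s = A_g s` for some `g ∈ G₀` (the union over `g ∈ G₀` of the closed sets `{F = A_g}` is closed).
Such a `g` is a supporting gradient at `s`.  (`r = 0`: `G` is nonempty and its element is the only function `Fin 0 → ℝ`, which is in `M^0`.) -/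
def S_RED : Prop := ∀ (r : ℕ) (M : Finset ℝ) (G : Finset (Fin r → ℝ)) (S : ℝ) (F : (Fin r → ℝ) → ℝ), 0 < S →
  SLr G S F →
  (∀ s : Fin r → ℝ, (∀ i, s i ∈ Set.Icc 0 S) → ∀ i, SL M S (fun x => F (Function.update s i x))) →
    SLr (Fintype.piFinset fun _ : Fin r => M) S F

/-- PACKET FINB (2 h): the last-exit argument.

PROOF.  `|L n| ≤ |L 0| + c n`, so `L n/n` is bounded; `μ = limsup L n/n`, `μ' = liminf L n/n`.  (1) If `μ' = μ` then `L n/n → μ`; for `R_j = j` and `S = 1` the function `φ` is `φ x = μ x`; the supporting line at `1/2` has a slope `l` with `0 ≥ μ/2 - l/2`, `μ ≥ μ/2 + l/2`, so `l = μ ∈ T`.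
(2) Suppose `μ' < μ`.  Choose `v ∈ (μ', μ)`, `v ∉ T`.  For every `j` choose `n₁(j) ≥ j + 1` with `L(n₁) ≥ (μ - 1/(j+1)) n₁` and `> v n₁` (`limsup`; for large `j` the second follows from the first), and let `n₂(j)` be the first `n > n₁(j)` with `L n ≤ v n` (exists: `liminf < v`).  `L(n₂) ≥ L(n₂-1) - c > v (n₂-1) - c` or `n₂ - 1 = n₁`, in all cases `v n₂ - |v| - c ≤ L(n₂) ≤ v n₂`.
Let `θ = lim_𝒰 n₁(j)/n₂(j) ∈ [0,1]`.  Suppose `θ > 0`, `S = 1/θ + 1`, blow-down with `R = n₁`: `φ(0) = 0` (`L 0/R_j → 0`), `φ(x) ≤ μ x` for `x > 0` (`limsup`), `φ(1) = μ`.  Supporting slope `l` at `1`: `0 = φ(0) ≥ μ - l`, so `l ≥ μ`, `φ(x) ≥ μ + l(x-1) ≥ μ x` for `x ≥ 1`; so `φ(x) = μ x` on `[1,S]`.  But `n₂/n₁ → 1/θ =: x` and `|L(⌊n₁ x⌋) - L(n₂)| ≤ c |⌊n₁ x⌋ - n₂| = o(n₁)`,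
so `φ(x) = v x`: contradiction, `x ≥ 1`.  So `θ = 0`.  Blow-down with `R = n₂`, `S = 1`: `φ(1) = v`, and for `0 < x < 1`, `n₁ ≤ ⌊n₂ x⌋ < n₂` for `𝒰`-almost all `j`, so `L(⌊n₂ x⌋) ≥ v ⌊n₂ x⌋`, `φ(x) ≥ v x`.  Supporting slope `l ∈ T` at `1/2`: `0 = φ(0) ≥ φ(1/2) - l/2 ≥ v/2 - l/2` gives `l ≥ v`, `v = φ(1) ≥ φ(1/2) + l/2 ≥ v/2 + l/2` gives `l ≤ v`.  So `v ∈ T`: contradiction.
(`n₁, n₂ → ∞`.) -/
def S_FINB : Prop := ∀ (L : ℕ → ℝ) (c : ℝ) (T : Finset ℝ), (∀ n, |L (n + 1) - L n| ≤ c) →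
  (∀ R : ℕ → ℕ, Tendsto R atTop atTop → ∀ S : ℝ, 0 < S → ∃ φ : ℝ → ℝ,
    (∀ x : ℝ, 0 ≤ x → Tendsto (fun j => L ⌊(R j : ℝ) * x⌋₊ / (R j : ℝ)) (Filter.hyperfilter ℕ : Filter ℕ) (𝓝 (φ x))) ∧
      SL T S φ) →
    ∃ β ∈ T, Tendsto (fun n : ℕ => L n / n) atTop (𝓝 β)

/-- PACKET JD (1 h): from recurrences to the jump data (arithmetic of inequalities).

PROOF.  `u = U - κ ≥ 0`.  Upper Lipschitz bound: `U(J+1) ≤ δ U J + (C+1) κ ≤ (δ + C + 1) U J`.  Lower one: `(b - B)(U J - κ) ≤ A U(J+1) + C κ`, `b - B ≥ b/2 ≥ 1/2`, so `U J ≤ κ + 2 A U(J+1) + 2 C κ ≤ (1 + 2A + 2C) U(J+1)` (`κ_i(J) = κ_i(update …) ≤ U(J+1)`).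
Jump: `ε' = ε/4`; take `m ≥ 1` so large that the recurrence for `ε'` exists and `e^(3εm/4) ≥ 32`; let `A, b, B, E, C, n₀` be its data, `C' = max(2, 16 C e^(-(σ₂-ε')m))`.  Write `U₀, U_m, U_2m`.  Suppose `e^((σ₁+ε)m) U₀ ≤ U_m`, `C' κ ≤ U_m`; so `u_m ≥ U_m/2`.  `(b - B) u_m ≤ A u₀ + E u_2m + C κ`, `b - B ≥ ½ e^((σ₂-ε')m) E`, `A u₀ ≤ 2 e^((σ₁+σ₂)m) E U₀ ≤ 2 e^((σ₂-ε)m) E U_m ≤ (1/16) e^((σ₂-ε')m) E U_m`,
`C κ ≤ (1/16) e^((σ₂-ε')m) E U_m`.  So `E u_2m ≥ (1/4 - 1/8) e^((σ₂-ε')m) E U_m ≥ e^((σ₂-ε)m) E U_m`. -/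
def S_JD : Prop := ∀ (k : ℕ) (U : (Fin (k + 1) → ℕ) → ℝ) (κ : Fin (k + 1) → (Fin (k + 1) → ℕ) → ℝ) (Λ : Finset ℝ),
  (∀ i J, 0 < κ i J) → (∀ i J n, κ i (Function.update J i n) = κ i J) → (∀ i J, κ i J ≤ U J) →
  (∃ (δ C : ℝ) (n₀ : ℕ), 0 ≤ δ ∧ 0 ≤ C ∧ ∀ i J, n₀ ≤ J i →
    U (Function.update J i (J i + 1)) - κ i J ≤ δ * (U J - κ i J) + C * κ i J) →
  (∃ (A b B : ℕ) (C : ℝ) (n₀ : ℕ), 1 ≤ b ∧ 2 * B ≤ b ∧ 0 ≤ C ∧ ∀ i J, n₀ ≤ J i →
    b * (U J - κ i J) ≤ A * (U (Function.update J i (J i + 1)) - κ i J) + B * (U J - κ i J) + C * κ i J) →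
  (∀ σ₁ σ₂ : ℝ, σ₁ < σ₂ → (∀ l ∈ Λ, l ≤ σ₁ ∨ σ₂ ≤ l) → ∀ ε : ℝ, 0 < ε → ∀ᶠ m : ℕ in atTop,
    ∃ (A b B E : ℕ) (C : ℝ) (n₀ : ℕ), 1 ≤ b ∧ 1 ≤ E ∧ 2 * B ≤ b ∧ (A : ℝ) ≤ 2 * Real.exp ((σ₁ + σ₂) * m) * E ∧
      Real.exp ((σ₂ - ε) * m) * E ≤ b ∧ 0 ≤ C ∧ ∀ i J, n₀ ≤ J i →
        b * (U (Function.update J i (J i + m)) - κ i J) ≤ A * (U J - κ i J) +
          B * (U (Function.update J i (J i + m)) - κ i J) +
          E * (U (Function.update J i (J i + 2 * m)) - κ i J) + C * κ i J) →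
    JumpData k U κ Λ

end Pool.Agent.Helper10.GO
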