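import Pool.Agent.Helper10.GO.Fin0
import Pool.Agent.Helper10.GO.GoalsC
import Pool.Agent.Helper10.GO.GoalsD
import Pool.Agent.Helper10.GO.GoalsT
import Pool.Agent.Helper9.GO.LINK
import Pool.Agent.Helper98.GO.GENB
import Pool.Agent.Helper80.AD.Fin0

/-!
# Project GO: the final assembly.
-/

set_option autoImplicit false

open MvPolynomial Filter Topology

noncomputable section

namespace Pool.Agent.Helper10.GO

open Pool.Agent.Helper80.HD Pool.Agent.Helper80.AD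
open Pool.Agent.Helper9.GO (ratioField_smul)
open Pool.Agent.Helper98.GO (scl)

section

variable {K : Type} [Field K] [NumberField K] [Algebra K ℂ] {F : IntermediateField K ℂ} {N k : ℕ}

omit [NumberField K] in
theorem exists_bv {x : Fin (N + 1) → ℂ} (h : Big K F x) :
    ∃ y : BV F N, ∃ c : ℂ, c ≠ 0 ∧ ∀ j, x j = c * cv y.1 j := by
  obtain ⟨p, hp⟩ : ∃ p, x p ≠ 0 := by
    by_contra hcon
    push Not at hcon
    exact h.1 (funext hcon)
  set y : Fin (N + 1) → F := fun j => ⟨x j / x p, h.2.1 (IntermediateField.subset_adjoin K _ ⟨j, p, rfl⟩)⟩ with hy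
  have hcv : ∀ j, x j = x p * cv y j := by
    intro j
    show x j = x p * (x j / x p)
    field_simp
  have hr : ratioField K x = ratioField K (cv y) := ratioField_smul hp hcv
  refine ⟨⟨y, ⟨?_, ?_, ?_⟩, p, ?_⟩, x p, hp, hcv⟩
  · intro h0
    apply hp
    have := hcv p
    rw [h0] at this
    simpa using this
  · rw [← hr]; exact h.2.1
  · rw [← hr]; exact h.2.2
  · refine Subtype.ext ?_
    show x p / x p = 1
    exact div_self hp

/-- the exact functional for all constants -/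
def XAll (F : IntermediateField K ℂ) (k N : ℕ) (E : (Fin (k + 1) → BV F N) → ℝ) (D : (Fin k → BV F N) → ℝ) : Prop :=
  ∀ (Γc : AbsoluteValue K ℝ → ℝ) (Γ' : ℝ), GoodGam K Γc → 0 ≤ Γ' →
    ∃ C : ℝ, ExData k (hV F) (cst F Γc Γ') (Pr F) (E₀ F) D (gt K Γc Γ') E C

variable {E : (Fin (k + 1) → BV F N) → ℝ} {D : (Fin k → BV F N) → ℝ}

omit [Algebra K ℂ] in
theorem goodGam_one : GoodGam K (fun _ => (1 : ℝ)) :=
  ⟨fun _ => le_rfl, fun _ _ => rfl, by simp⟩

theorem XAll.basic (hX : XAll F k N E D) : (∀ Y, 0 ≤ E Y) ∧ (∀ Z, 1 ≤ D Z) := by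
  obtain ⟨C, h⟩ := hX (fun _ => 1) 0 goodGam_one le_rfl
  exact ⟨h.E0, h.D1⟩

/-- the relation in one slot -/
theorem XAll.rel (hUREL : S_UREL) (hX : XAll F k N E D) {Γc : AbsoluteValue K ℝ → ℝ} {Γ' : ℝ}
    (hΓ : GoodGam K Γc) (hΓ' : 1 ≤ Γ') {m : ℕ} (a : Fin (m + 1) → ℤ) (b : Fin (m + 1) → BV F N) (g : F)
    (hg : g ≠ 0) (h : ∀ v : Place F, Real.log (v.1 g) ≤ ∑ j, (a j : ℝ) * hV F (b j) v + cst F Γc Γ' v)
    (Y : Fin (k + 1) → BV F N) (i : Fin (k + 1)) :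
    0 ≤ ∑ j, (a j : ℝ) * (UU E D (Function.update Y i (b j)) - D (fun s => Y (i.succAbove s))) +
      gt K Γc Γ' * D (fun s => Y (i.succAbove s)) := by
  obtain ⟨C, hC⟩ := hX Γc Γ' hΓ (by linarith)
  have h1 := hUREL k _ _ _ _ _ _ _ _ _ _ hC m a b 1 (fun v => Real.log (v.1 g)) ⟨g, hg, fun v => rfl⟩
    (fun v => by have := h v; simpa using this) Y i
  simpa using h1

omit [NumberField K] in
theorem UU_ge (hE : ∀ Y, 0 ≤ E Y) (hD : ∀ Z, 1 ≤ D Z) (Y : Fin (k + 1) → BV F N) (i : Fin (k + 1)) :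
    D (fun s => Y (i.succAbove s)) ≤ UU E D Y := by
  unfold UU
  have h1 : D (fun s => Y (i.succAbove s)) ≤ ∑ i : Fin (k + 1), D (fun s => Y (i.succAbove s)) :=
    Finset.single_le_sum (f := fun i : Fin (k + 1) => D (fun s => Y (i.succAbove s)))
      (fun j _ => zero_le_one.trans (hD _)) (Finset.mem_univ i)
  have := hE Y
  linarith

theorem sum2 (f : Fin (1 + 1) → ℝ) : ∑ j, f j = f 0 + f 1 := Fin.sum_univ_two f

theorem sum4 (f : Fin (3 + 1) → ℝ) : ∑ j, f j = f 0 + f 1 + f 2 + f 3 := Fin.sum_univ_four f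

/-- the upper bound for one step of the orbit, in one slot -/
theorem XAll.step (hUREL : S_UREL) (hX : XAll F k N E D) {Γc : AbsoluteValue K ℝ → ℝ} {Γ' : ℝ}
    (hΓ : GoodGam K Γc) (hΓ' : 1 ≤ Γ') {δ : ℕ} {y y' : BV F N} {g : F} (hg : g ≠ 0)
    (h : ∀ v : Place F, Real.log (v.1 g) ≤ δ * hV F y v - hV F y' v + cst F Γc Γ' v)
    (Y : Fin (k + 1) → BV F N) (i : Fin (k + 1)) :
    UU E D (Function.update Y i y') - D (fun s => Y (i.succAbove s)) ≤
      δ * (UU E D (Function.update Y i y) - D (fun s => Y (i.succAbove s))) +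
        gt K Γc Γ' * D (fun s => Y (i.succAbove s)) := by
  have h1 := hX.rel hUREL hΓ hΓ' (m := 1) ![(δ : ℤ), -1] ![y, y'] g hg (fun v => by
    have := h v
    rw [sum2]
    show _ ≤ ((δ : ℤ) : ℝ) * hV F y v + ((-1 : ℤ) : ℝ) * hV F y' v + _
    push_cast
    linarith) Y i
  rw [sum2] at h1
  change 0 ≤ ((δ : ℤ) : ℝ) * (UU E D (Function.update Y i y) - _) +
    ((-1 : ℤ) : ℝ) * (UU E D (Function.update Y i y') - _) + _ at h1
  push_cast at h1
  linarith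

/-- the relation of a section, in one slot -/
theorem XAll.sec (hUREL : S_UREL) (hX : XAll F k N E D) {Γc : AbsoluteValue K ℝ → ℝ} {Γ' : ℝ}
    (hΓ : GoodGam K Γc) (hΓ' : 1 ≤ Γ') {A b B C : ℕ} {yp yq yr : BV F N} {g : F} (hg : g ≠ 0)
    (h : ∀ v : Place F, Real.log (v.1 g) ≤ A * hV F yp v + B * hV F yq v + C * hV F yr v - b * hV F yq v +
      cst F Γc Γ' v)
    (Y : Fin (k + 1) → BV F N) (i : Fin (k + 1)) :
    b * (UU E D (Function.update Y i yq) - D (fun s => Y (i.succAbove s))) ≤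
      A * (UU E D (Function.update Y i yp) - D (fun s => Y (i.succAbove s))) +
      B * (UU E D (Function.update Y i yq) - D (fun s => Y (i.succAbove s))) +
      C * (UU E D (Function.update Y i yr) - D (fun s => Y (i.succAbove s))) +
        gt K Γc Γ' * D (fun s => Y (i.succAbove s)) := by
  have h1 := hX.rel hUREL hΓ hΓ' (m := 3) ![(A : ℤ), B, C, -b] ![yp, yq, yr, yq] g hg (fun v => by
    have := h v
    rw [sum4]
    show _ ≤ ((A : ℤ) : ℝ) * hV F yp v + ((B : ℤ) : ℝ) * hV F yq v + ((C : ℤ) : ℝ) * hV F yr v +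
      ((-(b : ℤ) : ℤ) : ℝ) * hV F yq v + _
    push_cast
    linarith) Y i
  rw [sum4] at h1
  change 0 ≤ ((A : ℤ) : ℝ) * (UU E D (Function.update Y i yp) - _) +
    ((B : ℤ) : ℝ) * (UU E D (Function.update Y i yq) - _) +
    ((C : ℤ) : ℝ) * (UU E D (Function.update Y i yr) - _) +
    ((-(b : ℤ) : ℤ) : ℝ) * (UU E D (Function.update Y i yq) - _) + _ at h1
  push_cast at h1
  linarith

omit [Algebra K ℂ] in
theorem gt_nonneg {Γc : AbsoluteValue K ℝ → ℝ} {Γ' : ℝ} (hΓ : GoodGam K Γc) (hΓ' : 1 ≤ Γ') :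
    0 ≤ gt K Γc Γ' := (gt_pos K hΓ hΓ').le

/-- The jump data along a generic orbit. -/
theorem jumpData (hUREL : S_UREL) (hUPL : S_UPL) (hTRANS : S_TRANS) (hRECK : S_RECK) (hLLIP : S_LLIP) (hJD : S_JD)
    (hX : XAll F k N E D) {δ d : ℕ} {Γ : Fin (N + 1) → MvPolynomial (Fin (N + 1)) K}
    {ξ : ℕ → Fin (N + 1) → ℂ} {y : ℕ → BV F N} (hy : GenOrb K F N δ Γ ξ y)
    {V : ℕ → Fin (d + 1) → ℝ} (hV' : VolData K d ξ V) {Λ : Finset ℝ} {G : ℝ → ℝ}
    (hG : ∀ σ : ℝ, Tendsto (fun n : ℕ => Real.log (vp d (V n) (Real.exp (n * σ)) 1) / n) atTop (𝓝 (G σ)))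
    (hgap : ∀ σ₁ σ₂ : ℝ, IsGap Λ σ₁ σ₂ → G σ₁ + G σ₂ = 2 * G ((σ₁ + σ₂) / 2)) :
    JumpData k (fun J => UU E D (fun i => y (J i))) (fun i J => D (fun s => y (J (i.succAbove s)))) Λ := by
  obtain ⟨hE, hD⟩ := hX.basic
  have hupd : ∀ (J : Fin (k + 1) → ℕ) (i : Fin (k + 1)) (n : ℕ),
      (fun i' => y (Function.update J i n i')) = Function.update (fun i' => y (J i')) i (y n) := by
    intro J i n
    funext i'
    by_cases h : i' = i
    · subst h; simp
    · simp [Function.update_of_ne h]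
  have hκ : ∀ (J : Fin (k + 1) → ℕ) (i : Fin (k + 1)) (n : ℕ),
      (fun s => y (Function.update J i n (i.succAbove s))) = fun s => y (J (i.succAbove s)) := by
    intro J i n
    funext s
    rw [Function.update_of_ne (Fin.succAbove_ne i s)]
  have hself : ∀ (J : Fin (k + 1) → ℕ) (i : Fin (k + 1)),
      UU E D (Function.update (fun i' => y (J i')) i (y (J i))) = UU E D (fun i' => y (J i')) := by
    intro J i
    rw [← hupd, Function.update_eq_self]
  refine hJD k _ _ Λ (fun i J => zero_lt_one.trans_le (hD _)) (fun i J n => ?_) (fun i J => UU_ge hE hD (fun i => y (J i)) i) ?_ ?_ ?_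
  · show D _ = D _
    rw [hκ]
  · -- one step
    obtain ⟨Γc, Γ', hΓ, hΓ', h1⟩ := hUPL K N 1 (fun _ => δ) (fun _ => Γ) (fun _ j => hy.gen.hom j)
    obtain ⟨n₀, hn₀⟩ := eventually_atTop.1 hy.step
    refine ⟨δ, gt K Γc Γ', n₀, Nat.cast_nonneg _, gt_nonneg hΓ hΓ', fun i J hJ => ?_⟩
    obtain ⟨c, hc, h2⟩ := hn₀ (J i) hJ
    obtain ⟨g, hg, h3⟩ := h1 F 0 (y (J i)) (y (J i + 1)) c hc h2
    have h4 := hX.step hUREL hΓ hΓ' hg h3 (fun i' => y (J i')) i
    rw [hself] at h4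
    show UU E D (fun i' => y (Function.update J i (J i + 1) i')) - _ ≤ _
    rw [hupd]
    exact h4
  · -- the lower bound
    obtain ⟨A, b, B, C, hb, hB, hsec⟩ := hLLIP K N δ d Γ ξ V hy.gen hV'
    obtain ⟨Γc, Γ', hΓ, hΓ', h1⟩ := hTRANS K F N δ Γ ξ y hy 1 0 1 A b B C hsec
    obtain ⟨n₀, hn₀⟩ := eventually_atTop.1 h1
    refine ⟨A + C, b, B, gt K Γc Γ', n₀, hb, hB, gt_nonneg hΓ hΓ', fun i J hJ => ?_⟩
    obtain ⟨g, hg, h2⟩ := hn₀ (J i) hJ
    have h3 := hX.sec hUREL hΓ hΓ' hg h2 (fun i' => y (J i')) i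
    rw [add_zero, hself] at h3
    show (b : ℝ) * _ ≤ ((A + C : ℕ) : ℝ) * (UU E D (fun i' => y (Function.update J i (J i + 1) i')) - _) + _ + _
    rw [hupd]
    push_cast
    linarith
  · -- the gaps
    intro σ₁ σ₂ h12 hl ε hε
    filter_upwards [hRECK K N δ d Γ ξ V G σ₁ σ₂ hy.gen hV' h12 hG (hgap σ₁ σ₂ ⟨h12, hl⟩) ε hε] with m hm
    obtain ⟨A, b, B, C, hb, hC, hB, hA, hbC, hsec⟩ := hm
    obtain ⟨Γc, Γ', hΓ, hΓ', h1⟩ := hTRANS K F N δ Γ ξ y hy 0 m (2 * m) A b B C hsec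
    obtain ⟨n₀, hn₀⟩ := eventually_atTop.1 h1
    refine ⟨A, b, B, C, gt K Γc Γ', n₀, hb, hC, hB, hA, hbC, gt_nonneg hΓ hΓ', fun i J hJ => ?_⟩
    obtain ⟨g, hg, h2⟩ := hn₀ (J i) hJ
    have h3 := hX.sec hUREL hΓ hΓ' hg h2 (fun i' => y (J i')) i
    rw [add_zero, hself] at h3
    show (b : ℝ) * (UU E D (fun i' => y (Function.update J i (J i + m) i')) - _) ≤ _ +
      (B : ℝ) * (UU E D (fun i' => y (Function.update J i (J i + m) i')) - _) +
      (C : ℝ) * (UU E D (fun i' => y (Function.update J i (J i + 2 * m) i')) - _) + _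
    rw [hupd, hupd]
    exact h3

/-- All points of the orbit at once: one step changes the value by a bounded factor. -/
theorem step_all (hUREL : S_UREL) (hUPL : S_UPL) (hX : XAll F k N E D) {f : QMap K N} {x : ℕ → Fin (N + 1) → ℂ}
    (hx : f.IsOrbit x) {y : ℕ → BV F N} (hxy : ∀ n, ∃ c : ℂ, c ≠ 0 ∧ ∀ j, x n j = c * cv (y n).1 j) :
    ∃ C : ℝ, 1 ≤ C ∧ ∀ n, UU E D (fun _ : Fin (k + 1) => y (n + 1)) ≤ C * UU E D (fun _ => y n) := by
  obtain ⟨hE, hD⟩ := hX.basic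
  obtain ⟨Γc, Γ', hΓ, hΓ', h1⟩ := hUPL K N f.r f.deg f.G f.G_homog
  have hg := gt_nonneg hΓ hΓ'
  set Δ : ℝ := ∑ l, (f.deg l : ℝ) with hΔ
  have hΔ0 : 0 ≤ Δ := Finset.sum_nonneg fun l _ => Nat.cast_nonneg _
  set C₂ : ℝ := Δ + gt K Γc Γ' + 1 with hC₂
  have hC1 : 1 ≤ C₂ := by linarith
  -- one slot
  have key : ∀ (n : ℕ) (Y : Fin (k + 1) → BV F N) (i : Fin (k + 1)),
      UU E D (Function.update Y i (y (n + 1))) ≤ C₂ * UU E D (Function.update Y i (y n)) := by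
    intro n Y i
    obtain ⟨-, l, c, hc, h2⟩ := hx.2 n
    obtain ⟨c₁, hc₁, h3⟩ := hxy n
    obtain ⟨c₂, hc₂, h4⟩ := hxy (n + 1)
    have h5 : ∀ j, aeval (cv (y n).1) (f.G l j) = c₁⁻¹ ^ f.deg l * (c * c₂) * cv (y (n + 1)).1 j := by
      intro j
      have e1 : cv (y n).1 = fun j => c₁⁻¹ * x n j := by
        funext j
        rw [h3 j]
        field_simp
      rw [e1, scl (f.G_homog l j), h2 j, h4 j]
      ring
    obtain ⟨g, hg0, h6⟩ := h1 F l (y n) (y (n + 1)) _ (mul_ne_zero (pow_ne_zero _ (inv_ne_zero hc₁))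
      (mul_ne_zero hc hc₂)) h5
    have h7 := hX.step hUREL hΓ hΓ' hg0 h6 Y i
    have h8 : D (fun s => Y (i.succAbove s)) ≤ UU E D (Function.update Y i (y n)) := by
      have := UU_ge hE hD (Function.update Y i (y n)) i
      have e : (fun s => Function.update Y i (y n) (i.succAbove s)) = fun s => Y (i.succAbove s) := by
        funext s
        rw [Function.update_of_ne (Fin.succAbove_ne i s)]
      rwa [e] at this
    have h9 : (f.deg l : ℝ) ≤ Δ :=
      Finset.single_le_sum (f := fun l => (f.deg l : ℝ)) (fun l _ => Nat.cast_nonneg _) (Finset.mem_univ l)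
    have h10 := hD (fun s => Y (i.succAbove s))
    set u := UU E D (Function.update Y i (y n))
    set κ := D (fun s => Y (i.succAbove s))
    have h11 : (f.deg l : ℝ) * (u - κ) ≤ Δ * (u - κ) := mul_le_mul_of_nonneg_right h9 (by linarith)
    have h12 : gt K Γc Γ' * κ ≤ gt K Γc Γ' * u := mul_le_mul_of_nonneg_left h8 hg
    have h13 : 0 ≤ Δ * κ := mul_nonneg hΔ0 (by linarith)
    rw [hC₂]
    nlinarith
  refine ⟨C₂ ^ (k + 1), one_le_pow₀ hC1, fun n => ?_⟩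
  have hyb : ∀ s : Finset (Fin (k + 1)), UU E D (fun i => if i ∈ s then y (n + 1) else y n) ≤
      C₂ ^ s.card * UU E D (fun _ : Fin (k + 1) => y n) := by
    intro s
    induction s using Finset.induction_on with
    | empty => simp
    | insert a s ha ih =>
      have e1 : (fun i => if i ∈ insert a s then y (n + 1) else y n) =
          Function.update (fun i => if i ∈ s then y (n + 1) else y n) a (y (n + 1)) := by
        funext i
        by_cases h : i = a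
        · subst h; simp
        · simp [Function.update_of_ne h, h]
      have e2 : Function.update (fun i => if i ∈ s then y (n + 1) else y n) a (y n) =
          fun i => if i ∈ s then y (n + 1) else y n := by
        funext i
        by_cases h : i = a
        · subst h; simp [ha]
        · simp [h]
      have h2 := key n (fun i => if i ∈ s then y (n + 1) else y n) a
      rw [e2] at h2
      rw [e1, Finset.card_insert_of_notMem ha, pow_succ]
      have h3 := mul_le_mul_of_nonneg_left ih (zero_le_one.trans hC1)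
      linarith
  have := hyb Finset.univ
  simpa using this

omit [NumberField K] in
/-- from progressions of an orbit to sequences of normalized vectors -/
theorem genOrb_of {δ : ℕ} {Γ : Fin (N + 1) → MvPolynomial (Fin (N + 1)) K} {ξ x : ℕ → Fin (N + 1) → ℂ}
    {a b : ℕ} (h : GenAP K N δ Γ ξ x a b) {y : ℕ → BV F N}
    (hxy : ∀ n, ∃ c : ℂ, c ≠ 0 ∧ ∀ j, x n j = c * cv (y n).1 j) :
    GenOrb K F N δ Γ ξ (fun n => y (a * n + b)) := by
  have hs : ∀ (n d : ℕ) (Q : MvPolynomial (Fin (N + 1)) K), Q.IsHomogeneous d →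
      ∃ c : ℂ, c ≠ 0 ∧ aeval (cv (y n).1) Q = c * aeval (x n) Q := by
    intro n d Q hQ
    obtain ⟨c, hc, h1⟩ := hxy n
    have e1 : cv (y n).1 = fun j => c⁻¹ * x n j := by
      funext j
      rw [h1 j]
      field_simp
    exact ⟨c⁻¹ ^ d, pow_ne_zero _ (inv_ne_zero hc), by rw [e1, scl hQ]⟩
  refine ⟨h.gen, fun d Q hQ h0 => ?_, fun d Q hQ h0 => ?_, ?_⟩
  · refine (h.zero d Q hQ h0).mono fun n hn => ?_
    obtain ⟨c, hc, h1⟩ := hs (a * n + b) d Q hQ
    show aeval (cv (y (a * n + b)).1) Q = 0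
    rw [h1, hn, mul_zero]
  · refine (h.nonzero d Q hQ h0).mono fun n hn => ?_
    obtain ⟨c, hc, h1⟩ := hs (a * n + b) d Q hQ
    show aeval (cv (y (a * n + b)).1) Q ≠ 0
    rw [h1]
    exact mul_ne_zero hc hn
  · refine h.step.mono fun n hn => ?_
    obtain ⟨c, hc, h1⟩ := hn
    obtain ⟨c₁, hc₁, h2⟩ := hxy (a * n + b)
    obtain ⟨c₂, hc₂, h3⟩ := hxy (a * (n + 1) + b)
    refine ⟨c₁⁻¹ ^ δ * (c * c₂), mul_ne_zero (pow_ne_zero _ (inv_ne_zero hc₁)) (mul_ne_zero hc hc₂), fun j => ?_⟩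
    have e1 : cv (y (a * n + b)).1 = fun j => c₁⁻¹ * x (a * n + b) j := by
      funext j
      rw [h2 j]
      field_simp
    show aeval (cv (y (a * n + b)).1) (Γ j) = _
    rw [e1, scl (h.gen.hom j), h1 j, h3 j]
    ring

/-- the set `Λ` of the map `Γ` at its generic point -/
structure Lam (K : Type) [Field K] [Algebra K ℂ] {N : ℕ} (ξ : ℕ → Fin (N + 1) → ℂ) (Λ : Finset ℝ) (d : ℕ)
    (V : ℕ → Fin (d + 1) → ℝ) (G : ℝ → ℝ) : Prop where
  tr : Algebra.trdeg K (ratioField K (ξ 0)) = d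
  vol : VolData K d ξ V
  card : Λ.card ≤ d
  lim : ∀ σ : ℝ, Tendsto (fun n : ℕ => Real.log (vp d (V n) (Real.exp (n * σ)) 1) / n) atTop (𝓝 (G σ))
  gap : ∀ σ₁ σ₂ : ℝ, IsGap Λ σ₁ σ₂ → G σ₁ + G σ₂ = 2 * G ((σ₁ + σ₂) / 2)

theorem exists_lam (hVOL : S_VOL) (hVSUB : S_VSUB) (hFEK : S_FEK) {δ : ℕ}
    {Γ : Fin (N + 1) → MvPolynomial (Fin (N + 1)) K} {ξ : ℕ → Fin (N + 1) → ℂ} (h : GenData K N δ Γ ξ) :
    ∃ (Λ : Finset ℝ) (d : ℕ) (V : ℕ → Fin (d + 1) → ℝ) (G : ℝ → ℝ), Lam K ξ Λ d V G := by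
  obtain ⟨d, hd⟩ := trdeg_fin K (ξ 0)
  obtain ⟨V, hV⟩ := hVOL K N δ d Γ ξ h hd
  obtain ⟨Λ, G, hc, hl, hg⟩ := hFEK d V hV.nn hV.low0 hV.lowd (hVSUB K N δ d Γ ξ V h hV)
  exact ⟨Λ, d, V, G, hd, hV, hc, hl, hg⟩

/-- The limit for a generic progression of an orbit. -/
theorem ap_limit (hUREL : S_UREL) (hUPL : S_UPL) (hTRANS : S_TRANS) (hRECK : S_RECK) (hLLIP : S_LLIP) (hJD : S_JD)
    (hMAIND : S_MAIND) (hX : XAll F k N E D) {f : QMap K N} {x : ℕ → Fin (N + 1) → ℂ} (hx : f.IsOrbit x)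
    {y : ℕ → BV F N} (hxy : ∀ n, ∃ c : ℂ, c ≠ 0 ∧ ∀ j, x n j = c * cv (y n).1 j) {δ : ℕ}
    {Γ : Fin (N + 1) → MvPolynomial (Fin (N + 1)) K} {ξ : ℕ → Fin (N + 1) → ℂ} {a b : ℕ} (ha : 1 ≤ a)
    (hAP : GenAP K N δ Γ ξ x a b) {Λ : Finset ℝ} {d : ℕ} {V : ℕ → Fin (d + 1) → ℝ} {G : ℝ → ℝ}
    (hL : Lam K ξ Λ d V G) :
    ∃ l : Fin (k + 1) → ℝ, (∀ i, l i ∈ insert 0 Λ) ∧
      Tendsto (fun n : ℕ => Real.log (UU E D (fun _ : Fin (k + 1) => y n)) / n) atTop (𝓝 ((∑ i, l i) / a)) := by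
  obtain ⟨hE, hD⟩ := hX.basic
  have hpos : ∀ Y : Fin (k + 1) → BV F N, 0 < UU E D Y := fun Y =>
    zero_lt_one.trans_le ((hD _).trans (UU_ge hE hD Y 0))
  obtain ⟨l, hl, hlim⟩ := hMAIND k _ _ Λ (jumpData hUREL hUPL hTRANS hRECK hLLIP hJD hX (genOrb_of hAP hxy) hL.vol
    hL.lim hL.gap)
  obtain ⟨C, hC, hstep⟩ := step_all hUREL hUPL hX hx hxy
  refine ⟨l, hl, lim_of_ap (c := Real.log C) ha (Real.log_nonneg hC) (fun n => ?_) hlim⟩
  have h1 := Real.log_le_log (hpos _) (hstep n)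
  rw [Real.log_mul (by linarith) (hpos _).ne'] at h1
  linarith

end

/-! ## The theorems -/

/-- `D` is, up to constant factors, the sequence `A`. -/
def Cmp (D A : ℕ → ℝ) : Prop := ∃ c₁ c₂ : ℝ, 0 < c₁ ∧ 0 < c₂ ∧ ∀ n, c₁ * A n ≤ D n ∧ D n ≤ c₂ * A n

/-- the facts used for the theorems -/
structure Facts : Prop where
  UREL : S_UREL
  UPL : S_UPL
  TRANS : S_TRANS
  RECK : S_RECK
  LLIP : S_LLIP
  JD : S_JD
  MAIND : S_MAIND
  VOL : S_VOL
  VSUB : S_VSUB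
  FEK : S_FEK
  XALL : S_XALL
  LINK : S_LINK
  GENA : S_GENA
  GENB : S_GENB
  QORB : S_QORB

theorem trdeg_eq_of_big {K : Type} [Field K] [Algebra K ℂ] {N k : ℕ} {F : IntermediateField K ℂ}
    {x : Fin (N + 1) → ℂ} (h : Big K F x) (htr : Algebra.trdeg K F = k) :
    Algebra.trdeg K (ratioField K x) = k := by
  let _ : Algebra (ratioField K x) F := (IntermediateField.inclusion h.2.1).toRingHom.toAlgebra
  have : IsScalarTower K (ratioField K x) F := IsScalarTower.of_algebraMap_eq fun _ => rfl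
  have : IsScalarTower (ratioField K x) F ℂ := IsScalarTower.of_algebraMap_eq fun _ => rfl
  have : Algebra.IsAlgebraic (ratioField K x) F := ⟨fun a => by
    have h1 := h.2.2 (a : ℂ) a.2
    exact (isAlgebraic_algebraMap_iff (R := ratioField K x) (A := ℂ) (algebraMap F ℂ).injective).1 h1⟩
  have h1 := trdeg_add_eq K (ratioField K x) (A := F)
  have h2 : Algebra.trdeg (ratioField K x) F = 0 := trdeg_eq_zero
  rw [h2, add_zero] at h1
  rw [h1, htr]

/-- The degenerate case and the comparison. -/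
theorem setup (hF : Facts) {K : Type} [Field K] [NumberField K] [Algebra K ℂ] {N k : ℕ} {f : QMap K N}
    {x : ℕ → Fin (N + 1) → ℂ} (hx : f.IsOrbit x) (htr : Algebra.trdeg K (ratioField K (x 0)) = k) :
    (∀ᶠ n in atTop, arithDeg K k x n = 0) ∨ ((∀ n, Algebra.trdeg K (ratioField K (x n)) = k) ∧
      ∃ (E : (Fin (k + 1) → BV (ratioField K (x 0)) N) → ℝ) (D : (Fin k → BV (ratioField K (x 0)) N) → ℝ)
        (y : ℕ → BV (ratioField K (x 0)) N) (C : ℝ), XAll (ratioField K (x 0)) k N E D ∧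
        (∀ n, ∃ c : ℂ, c ≠ 0 ∧ ∀ j, x n j = c * cv (y n).1 j) ∧ 1 ≤ C ∧
        ∀ n, UU E D (fun _ => y n) ≤ C * arithDeg K k x n ∧ arithDeg K k x n ≤ C * UU E D (fun _ => y n)) := by
  obtain ⟨hmem, hanti⟩ := (hF.QORB K N f).2.2 x hx
  have hne : ∀ n, x n ≠ 0 := fun n => (hmem n).1
  by_cases hdeg : ∃ n₀, (ratioField K (x n₀)).relfinrank (ratioField K (x 0)) = 0
  · left
    obtain ⟨n₀, hn₀⟩ := hdeg
    filter_upwards [eventually_ge_atTop n₀] with n hn
    have h1 : (ratioField K (x n)).relfinrank (ratioField K (x 0)) = 0 := by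
      rw [← IntermediateField.relfinrank_mul_relfinrank (hanti n₀ n hn) (hanti 0 n₀ (Nat.zero_le _)), hn₀,
        mul_zero]
    unfold arithDeg
    rw [h1]
    simp
  · right
    push Not at hdeg
    have hFG : (ratioField K (x 0)).FG := ratioField_fg K (x 0)
    have hB : ∀ n, Big K (ratioField K (x 0)) (x n) := fun n => big_of (hne n) (hanti 0 n (Nat.zero_le _)) (hdeg n)
    refine ⟨fun n => trdeg_eq_of_big (hB n) htr, ?_⟩
    have hy : ∀ n, ∃ y : BV (ratioField K (x 0)) N, ∃ c : ℂ, c ≠ 0 ∧ ∀ j, x n j = c * cv y.1 j :=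
      fun n => exists_bv (hB n)
    choose y hxy using hy
    have : Nonempty (BV (ratioField K (x 0)) N) := ⟨y 0⟩
    obtain ⟨E, D, hbd, hX⟩ := hF.XALL K (ratioField K (x 0)) k N hFG htr
    have hX' : XAll (ratioField K (x 0)) k N E D := hX
    obtain ⟨hE, hD⟩ := hX'.basic
    obtain ⟨C, hC⟩ := hX (fun _ => 1) 0 goodGam_one le_rfl
    obtain ⟨C₁, hC₁, hcmp⟩ := hF.LINK K (ratioField K (x 0)) k N x y D E C rfl htr hxy hbd hE hD hC.cmp
    exact ⟨E, D, y, C₁, hX', hxy, hC₁, hcmp⟩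

/-- The main theorem: the limit exists for every orbit with the Mordell-Lang property. -/
def S_GO : Prop := ∀ (K : Type) [Field K] [NumberField K] [Algebra K ℂ] (N : ℕ) (f : QMap K N) (k : ℕ)
  (x : ℕ → Fin (N + 1) → ℂ), f.IsOrbit x → Algebra.trdeg K (ratioField K (x 0)) = k →
    ((∀ n, Algebra.trdeg K (ratioField K (x n)) = k) → DML K x) →
      ∃ α : ℝ, (1 ≤ α ∨ α = 0 ∧ ∀ᶠ n in atTop, arithDeg K k x n = 0) ∧ ∀ D : ℕ → ℝ, Cmp D (arithDeg K k x) →
        Tendsto (fun n : ℕ => D n ^ (1 / (n : ℝ))) atTop (𝓝 α)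

/-- Generic orbits: the values of the limits. -/
def S_GEN : Prop := ∀ (K : Type) [Field K] [NumberField K] [Algebra K ℂ] (N : ℕ) (f : QMap K N)
  (η : Fin (N + 1) → ℂ), f.Mem η →
  (∀ (d : ℕ) (E : MvPolynomial (Fin (N + 1)) K), E.IsHomogeneous d → aeval η E = 0 → ∀ y, f.Mem y → aeval y E = 0) →
  ∃ M : Finset ℝ, (M.card : Cardinal) ≤ Algebra.trdeg K (ratioField K η) ∧ (∀ m ∈ M, 0 < m) ∧
    ∀ (k : ℕ) (x : ℕ → Fin (N + 1) → ℂ), f.IsOrbit x → Algebra.trdeg K (ratioField K (x 0)) = k →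
      (∀ (d : ℕ) (E : MvPolynomial (Fin (N + 1)) K), E.IsHomogeneous d → aeval η E ≠ 0 →
        ∀ᶠ n in atTop, aeval (x n) E ≠ 0) →
      (∀ᶠ n in atTop, arithDeg K k x n = 0) ∨ ∃ l : Fin (k + 1) → ℝ, (∀ i, l i ∈ insert 1 M) ∧
        ∀ D : ℕ → ℝ, Cmp D (arithDeg K k x) → Tendsto (fun n : ℕ => D n ^ (1 / (n : ℝ))) atTop (𝓝 (∏ i, l i))

theorem tendsto_zero_of {A D : ℕ → ℝ} (hA : ∀ᶠ n in atTop, A n = 0) (hD : Cmp D A) :
    Tendsto (fun n : ℕ => D n ^ (1 / (n : ℝ))) atTop (𝓝 0) := by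
  obtain ⟨c₁, c₂, hc₁, hc₂, hcD⟩ := hD
  refine tendsto_const_nhds.congr' ?_
  filter_upwards [hA, eventually_ge_atTop 1] with n hn h1
  have h3 := hcD n
  rw [hn, mul_zero, mul_zero] at h3
  rw [le_antisymm h3.2 h3.1, Real.zero_rpow]
  have : (1 : ℝ) ≤ n := by exact_mod_cast h1
  positivity

theorem root_final {A B D : ℕ → ℝ} {β C : ℝ} (hB : ∀ n, 0 < B n) (hC : 1 ≤ C)
    (hcmp : ∀ n, B n ≤ C * A n ∧ A n ≤ C * B n) (h : Tendsto (fun n : ℕ => Real.log (B n) / n) atTop (𝓝 β))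
    (hD : Cmp D A) : Tendsto (fun n : ℕ => D n ^ (1 / (n : ℝ))) atTop (𝓝 (Real.exp β)) := by
  obtain ⟨c₁, c₂, hc₁, hc₂, hcD⟩ := hD
  have hC0 : 0 < C := by linarith
  refine root_of_log (c₁ := c₁ / C) (c₂ := c₂ * C) hB (by positivity) (by positivity) h (fun n => ?_) fun n => ?_
  · refine le_trans ?_ (hcD n).1
    rw [div_mul_eq_mul_div, div_le_iff₀ hC0]
    have := mul_le_mul_of_nonneg_left (hcmp n).1 hc₁.le
    linarith
  · refine (hcD n).2.trans ?_
    have := mul_le_mul_of_nonneg_left (hcmp n).2 hc₂.le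
    linarith

theorem go_of (hF : Facts) : S_GO := by
  intro K _ _ _ N f k x hx htr hDML
  rcases setup hF hx htr with h0 | ⟨htn, E, D, y, C, hX, hxy, hC, hcmp⟩
  · exact ⟨0, Or.inr ⟨rfl, h0⟩, fun D hD => tendsto_zero_of h0 hD⟩
  obtain ⟨hmem, -⟩ := (hF.QORB K N f).2.2 x hx
  obtain ⟨a, b, ξ₀, ha, hξ, hgen⟩ := hF.GENA K N x (fun n => (hmem n).1) (hDML htn)
  obtain ⟨δ, Γ, ξ, -, hAP⟩ := hF.GENB K N f x a b ξ₀ hx ha hξ hgen
  obtain ⟨Λ, d, V, G, hL⟩ := exists_lam hF.VOL hF.VSUB hF.FEK hAP.gen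
  obtain ⟨l, -, hlim⟩ := ap_limit hF.UREL hF.UPL hF.TRANS hF.RECK hF.LLIP hF.JD hF.MAIND hX hx hxy ha hAP hL
  obtain ⟨hE, hD1⟩ := hX.basic
  have hB1 := fun n : ℕ => (hD1 _).trans (UU_ge hE hD1 (fun _ => y n) 0)
  refine ⟨Real.exp ((∑ i, l i) / a), Or.inl ?_, fun D' hD' => ?_⟩
  · rw [Real.one_le_exp_iff]
    exact ge_of_tendsto' hlim fun n => div_nonneg (Real.log_nonneg (hB1 n)) (Nat.cast_nonneg n)
  exact root_final (fun n => zero_lt_one.trans_le ((hD1 _).trans (UU_ge hE hD1 _ 0))) hC hcmp hlim hD'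

theorem gen_of (hF : Facts) : S_GEN := by
  intro K _ _ _ N f η hη hX
  by_cases hex : ∃ x : ℕ → Fin (N + 1) → ℂ, f.IsOrbit x ∧
      ∀ (d : ℕ) (E : MvPolynomial (Fin (N + 1)) K), E.IsHomogeneous d → aeval η E ≠ 0 →
        ∀ᶠ n in atTop, aeval (x n) E ≠ 0
  swap
  · refine ⟨∅, by simp, by simp, fun k x hx _ hg => (hex ⟨x, hx, hg⟩).elim⟩
  obtain ⟨z, hz, hzg⟩ := hex
  obtain ⟨hzm, -⟩ := (hF.QORB K N f).2.2 z hz
  have hzgen : ∀ (d : ℕ) (E : MvPolynomial (Fin (N + 1)) K), E.IsHomogeneous d →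
      (aeval η E = 0 → ∀ᶠ n in atTop, aeval (z (1 * n + 0)) E = 0) ∧
      (aeval η E ≠ 0 → ∀ᶠ n in atTop, aeval (z (1 * n + 0)) E ≠ 0) := by
    intro d E hE
    simp only [one_mul, add_zero]
    exact ⟨fun h => Eventually.of_forall fun n => hX d E hE h _ (hzm n), fun h => hzg d E hE h⟩
  obtain ⟨δ, Γ, ξ, hξ0, hAP⟩ := hF.GENB K N f z 1 0 η hz le_rfl hη.1 hzgen
  obtain ⟨Λ, d, V, G, hL⟩ := exists_lam hF.VOL hF.VSUB hF.FEK hAP.gen
  have htrη : Algebra.trdeg K (ratioField K η) = d := by rw [← hξ0]; exact hL.tr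
  -- the formula Γ represents the map wherever it does not vanish
  have hrel : ∀ (l : Fin f.r) (i j : Fin (N + 1)) (w : Fin (N + 1) → ℂ), f.Mem w →
      aeval w (Γ i) * aeval w (f.G l j) = aeval w (Γ j) * aeval w (f.G l i) := by
    intro l i j w hw
    have hh : (Γ i * f.G l j - Γ j * f.G l i).IsHomogeneous (δ + f.deg l) :=
      ((hAP.gen.hom i).mul (f.G_homog l j)).sub ((hAP.gen.hom j).mul (f.G_homog l i))
    have h0 : aeval η (Γ i * f.G l j - Γ j * f.G l i) = 0 := by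
      by_contra hcon
      have h1 := hzg _ _ hh hcon
      obtain ⟨n, hn1, c, hc, hn2⟩ := (h1.and hAP.step).exists
      simp only [one_mul, add_zero] at hn2
      apply hn1
      rw [map_sub, map_mul, map_mul, hn2 i, hn2 j]
      obtain ⟨-, l', c', hc', h3⟩ := hz.2 n
      have h4 := f.agree (z n) (hzm n).1 (hzm n).2 l l' i j
      rw [h3 i, h3 j] at h4
      have h5 : c' * (c * z (n + 1) i * aeval (z n) (f.G l j) - c * z (n + 1) j * aeval (z n) (f.G l i)) = 0 := by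
        linear_combination (-c) * h4
      exact (mul_eq_zero.1 h5).resolve_left hc'
    have h1 := hX _ _ hh h0 w hw
    rw [map_sub, map_mul, map_mul, sub_eq_zero] at h1
    exact h1
  obtain ⟨p, hp⟩ : ∃ p, aeval η (Γ p) ≠ 0 := by
    by_contra hcon
    push Not at hcon
    obtain ⟨n, c, hc, hn2⟩ := hAP.step.exists
    simp only [one_mul, add_zero] at hn2
    apply (hzm (n + 1)).1
    funext j
    have h1 := hn2 j
    rw [hX _ _ (hAP.gen.hom j) (hcon j) _ (hzm n)] at h1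
    exact (mul_eq_zero.1 h1.symm).resolve_left hc
  refine ⟨Λ.image Real.exp, ?_, ?_, ?_⟩
  · rw [htrη]
    exact_mod_cast Finset.card_image_le.trans hL.card
  · intro m hm
    obtain ⟨s, -, rfl⟩ := Finset.mem_image.1 hm
    exact Real.exp_pos s
  intro k x hx htr hg
  rcases setup hF hx htr with h0 | ⟨htn, E, D, y, C, hXA, hxy, hC, hcmp⟩
  · exact Or.inl h0
  right
  obtain ⟨hmem, -⟩ := (hF.QORB K N f).2.2 x hx
  have hAPx : GenAP K N δ Γ ξ x 1 0 := by
    refine ⟨hAP.gen, fun d' E' hE' h => ?_, fun d' E' hE' h => ?_, ?_⟩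
    · rw [hξ0] at h
      exact Eventually.of_forall fun n => hX d' E' hE' h _ (hmem _)
    · rw [hξ0] at h
      simp only [one_mul, add_zero]
      exact hg d' E' hE' h
    · simp only [one_mul, add_zero]
      filter_upwards [hg _ _ (hAP.gen.hom p) hp] with n hn
      obtain ⟨hy0, l, c, hc, h1⟩ := hx.2 n
      have key : ∀ i, aeval (x n) (Γ i) * x (n + 1) p = aeval (x n) (Γ p) * x (n + 1) i := by
        intro i
        have h2 := hrel l i p (x n) (hmem n)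
        rw [h1 p, h1 i] at h2
        have h3 : c * (aeval (x n) (Γ i) * x (n + 1) p) = c * (aeval (x n) (Γ p) * x (n + 1) i) := by
          linear_combination h2
        exact mul_left_cancel₀ hc h3
      have hxp : x (n + 1) p ≠ 0 := by
        intro h0
        apply hy0
        funext i
        have h2 := key i
        rw [h0, mul_zero] at h2
        exact (mul_eq_zero.1 h2.symm).resolve_left hn
      refine ⟨aeval (x n) (Γ p) / x (n + 1) p, div_ne_zero hn hxp, fun i => ?_⟩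
      have h2 := key i
      field_simp
      linear_combination h2
  obtain ⟨l, hl, hlim⟩ := ap_limit hF.UREL hF.UPL hF.TRANS hF.RECK hF.LLIP hF.JD hF.MAIND hXA hx hxy le_rfl hAPx hL
  obtain ⟨hE, hD1⟩ := hXA.basic
  refine ⟨fun i => Real.exp (l i), fun i => ?_, fun D' hD' => ?_⟩
  · show Real.exp (l i) ∈ _
    rcases Finset.mem_insert.1 (hl i) with h | h
    · rw [h, Real.exp_zero]
      exact Finset.mem_insert_self _ _
    · exact Finset.mem_insert_of_mem (Finset.mem_image_of_mem _ h)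
  · have h1 := root_final (fun n => zero_lt_one.trans_le ((hD1 _).trans (UU_ge hE hD1 _ 0))) hC hcmp hlim hD'
    rw [Nat.cast_one, div_one, Real.exp_sum] at h1
    exact h1

end Pool.Agent.Helper10.GO
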