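import Pool.Agent.Helper10.GO.DefsC

/-!
# Project GO (MP_6af536_nt), module P: the Mordell-Lang property for étale polynomial endomorphisms of the affine space
(p-adic interpolation).

Every `def S_XXX : Prop` is a packet; `uses A` means that `S_A` is a hypothesis of your theorem.
-/

set_option autoImplicit false

open MvPolynomial Filter Topology

noncomputable section

namespace Pool.Agent.Helper10.GO

/-! ## Polynomial maps -/

/-- the iterates of a polynomial map -/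
def pit {R : Type} [CommRing R] {N : ℕ} (f : Fin N → MvPolynomial (Fin N) R) : ℕ → Fin N → MvPolynomial (Fin N) R
  | 0 => X
  | (n + 1) => fun i => aeval (pit f n) (f i)

/-- the Jacobian matrix -/
def jac {R : Type} [CommRing R] {N : ℕ} (f : Fin N → MvPolynomial (Fin N) R) :
    Matrix (Fin N) (Fin N) (MvPolynomial (Fin N) R) := Matrix.of fun i j => pderiv j (f i)

/-- PACKET CHN (1 h): the chain rule.

PROOF.  (1) `pderiv j (aeval f G) = ∑_k aeval f (pderiv k G) * pderiv j (f k)`: both sides are derivations in `G` (from `MvPolynomial (Fin N) R` to itself as a module via `aeval f`), equal on the variables; or induction on `G` (`MvPolynomial.induction_on`).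
(2) induction on `n` with (1): `jac (pit f (n+1)) = (jac f).map (aeval (pit f n)) * jac (pit f n)`, determinants.  (3) induction on `m`. -/
def S_CHN : Prop := ∀ (R : Type) [CommRing R] (N : ℕ) (f : Fin N → MvPolynomial (Fin N) R),
  (∀ (G : MvPolynomial (Fin N) R) (j : Fin N),
    pderiv j (aeval f G) = ∑ l, aeval f (pderiv l G) * pderiv j (f l)) ∧
  (IsUnit (jac f).det → ∀ n : ℕ, IsUnit (jac (pit f n)).det ∧
    ∀ b : Fin N → R, IsUnit (Matrix.of fun i j => eval b (pderiv j (pit f n i))).det) ∧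
  ∀ a : ℕ → Fin N → R, (∀ n i, a (n + 1) i = eval (a n) (f i)) → ∀ n m i, a (n + m) i = eval (a n) (pit f m i)

/-- PACKET TAY (0.8 h): Taylor expansion to the first order.

PROOF.  Induction on `g`: clear for constants and variables, additive; for products multiply the two expansions (Leibniz rule for `pderiv`; all the other terms are divisible by `ϖ²`). -/
def S_TAY : Prop := ∀ (R : Type) [CommRing R] (N : ℕ) (g : MvPolynomial (Fin N) R) (ϖ : R) (b : Fin N → R),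
  ∃ Q : MvPolynomial (Fin N) R, aeval (fun j => (C (b j) + C ϖ * X j : MvPolynomial (Fin N) R)) g =
    C (eval b g) + C ϖ * ∑ j, C (eval b (pderiv j g)) * X j + C (ϖ ^ 2) * Q

/-- PACKET AFP (1 h): affine maps over a finite field.

PROOF.  The map `π y = v + A y` of the finite set `k^N` is bijective, so `π^m = 1` for `m = card (Perm (k^N))` (`pow_card_eq_one`).  By induction on `n`, `pit h n i = C (v' i) + ∑_j C (A' i j) * X j` for some `v', A'` and `y ↦ v' + A' y` is `π^n`.  For `n = m`: evaluate at `0` and at the unit vectors: `v' = 0`, `A' = 1`, so `pit h m i = X i`. -/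
def S_AFP : Prop := ∀ (k : Type) [Field k] [Finite k] (N : ℕ) (A : Matrix (Fin N) (Fin N) k) (v : Fin N → k),
  A.det ≠ 0 → 1 ≤ Nat.card (Equiv.Perm (Fin N → k)) ∧ ∀ i,
    pit (fun i => (C (v i) + ∑ j, C (A i j) * X j : MvPolynomial (Fin N) k)) (Nat.card (Equiv.Perm (Fin N → k))) i = X i

/-- PACKET LIN (2 h; uses CHN, TAY, AFP): the orbit in residue balls.

PROOF.  The reductions `a n mod p ∈ (ZMod p)^N` form an orbit in a finite set, so there are `n₀`, `a₀ ≥ 1` with `a (n + a₀) ≡ a n mod p` for all `n ≥ n₀`.  `m = card (Perm ((ZMod p)^N))`, `M = a₀ m`.  Let `r` be given, `b = a (n₀ + r)`, `g = pit f a₀`: `g(b) = a (n₀ + r + a₀) ≡ b mod p` (CHN (3)).  TAY with `ϖ = p`: `g_i(b + pY) = g_i(b) + p ∑_j (∂_j g_i)(b) Y_j + p² Q_i`.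
So with `v_i = (g_i(b) - b_i)/p` and `h_i = C v_i + ∑_j C((∂_j g_i)(b)) X_j + C p * Q_i`: `g_i(b + pY) = b_i + p h_i(Y)` as polynomials.  The reduction of `h` mod `p` is the affine map of AFP for `k = ZMod p`, `A = ((∂_j g_i)(b) mod p)`, invertible by CHN (2).  `H = pit h m`: its reduction is `pit` of the reduction, `= X` (AFP), so `H i = X i + C p * Q` (a polynomial over `ℤ_[p]` whose
reduction is `0` is divisible by `p` coefficientwise: `PadicInt.toZMod`, its kernel is generated by `p`).  `z 0 = 0`, `z (n+1) = eval (z n) h`: by induction `a (n₀ + r + a₀ n) = b + p z n`; `y n = z (m n)` (CHN (3) for `h`: `z (m (n+1)) = eval (z (m n)) (pit h m)`). -/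
def S_LIN : Prop := ∀ (p : ℕ) [Fact p.Prime] (N : ℕ) (f : Fin N → MvPolynomial (Fin N) ℤ_[p])
  (a : ℕ → Fin N → ℤ_[p]), IsUnit (jac f).det → (∀ n i, a (n + 1) i = eval (a n) (f i)) →
    ∃ n₀ M : ℕ, 1 ≤ M ∧ ∀ r : ℕ, ∃ (b : Fin N → ℤ_[p]) (H : Fin N → MvPolynomial (Fin N) ℤ_[p])
      (y : ℕ → Fin N → ℤ_[p]), (∀ i, ∃ Q : MvPolynomial (Fin N) ℤ_[p], H i = X i + C (p : ℤ_[p]) * Q) ∧
        (∀ n i, y (n + 1) i = eval (y n) (H i)) ∧ ∀ n i, a (n₀ + r + M * n) i = b i + p * y n i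

/-- PACKET INT (1.2 h): the expansion in binomial coefficients.

PROOF.  `Δ ψ = aeval H ψ - ψ`.  `aeval H ψ - ψ` is divisible by `C p` (`H i ≡ X i`; induction on `ψ`, or reduction mod `p`), so `C p ^ j ∣ ψ` implies `C p ^ (j+1) ∣ Δ ψ`, and `C p ^ j ∣ Δ^j φ`.  `c j = eval (y 0) (Δ^j φ)`.  `eval (y (n+1)) ψ = eval (y n) (aeval H ψ)`, so `eval (y n) φ = eval (y 0) ((1 + Δ)^n φ) = ∑_j binom(n,j) c j` (binomial theorem for the
linear map `Δ`; or induction on `n` for all `φ`). -/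
def S_INT : Prop := ∀ (p : ℕ) [Fact p.Prime] (N : ℕ) (H : Fin N → MvPolynomial (Fin N) ℤ_[p])
  (y : ℕ → Fin N → ℤ_[p]) (φ : MvPolynomial (Fin N) ℤ_[p]), (∀ i, ∃ Q : MvPolynomial (Fin N) ℤ_[p], H i = X i + C (p : ℤ_[p]) * Q) →
    (∀ n i, y (n + 1) i = eval (y n) (H i)) →
      ∃ c : ℕ → ℤ_[p], (∀ j, (p : ℤ_[p]) ^ j ∣ c j) ∧
        ∀ n : ℕ, eval (y n) φ = ∑ j ∈ Finset.range (n + 1), (n.choose j : ℤ_[p]) * c j

/-- PACKET STR (1.5 h): Strassmann's theorem for binomial expansions.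

PROOF.  Suppose some `c j ≠ 0`; we show that there are only finitely many zeros.  In `ℚ_[p]` let `u_j = c_j/j!`.  `|c_j| ≤ p^(-j)`, `v(j!) ≤ (j-1)/(p-1) ≤ (j-1)/2` for `j ≥ 1` (`sub_one_mul_padicValNat_factorial`, `p ≥ 3`), so `|u_j| ≤ p^(-(j+1)/2) → 0`.  So there is `m` with `u_m ≠ 0`, `|u_j| ≤ |u_m|` for all `j`, `|u_j| < |u_m|` for `j > m` (the last maximum).
Suppose there are `m + 1` distinct zeros `n_0, …, n_m ∈ ℕ`; let `J ≥ m`, `J ≥` all `n_i`, `Φ = ∑_(j ≤ J) u_j X(X-1)…(X-j+1) ∈ ℚ_[p][X]` (`descPochhammer`): `Φ(n_i) = ∑_(j ≤ n_i) binom(n_i, j) c_j = 0`.  `Ψ = ∏_i (X - n_i)`, monic of degree `m + 1`, divides `Φ`, so `Φ %ₘ Ψ = 0`.  On the other hand let `z_j` be the coefficient of `X^m` of `(descPochhammer j) %ₘ Ψ`: it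
is an integer (both polynomials come from `ℤ[X]`, `Ψ` monic: `Polynomial.map_modByMonic`), `z_j = 0` for `j < m` and `z_m = 1` (degree `< m + 1`, monic).  So `0 = ∑_(j ≤ J) u_j z_j = u_m + ∑_(m < j ≤ J) u_j z_j`, and the last sum has absolute value `< |u_m|`: contradiction.  (`%ₘ` is linear.)
So if there are infinitely many zeros all `c j` are `0`. -/
def S_STR : Prop := ∀ (p : ℕ) [Fact p.Prime] (c : ℕ → ℤ_[p]), 3 ≤ p → (∀ j, (p : ℤ_[p]) ^ j ∣ c j) →
  {n : ℕ | ∑ j ∈ Finset.range (n + 1), (n.choose j : ℤ_[p]) * c j = 0}.Infinite → ∀ j, c j = 0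

/-- PACKET PDM (1 h; uses LIN, INT, STR): the p-adic statement.

PROOF.  LIN: `n₀, M`.  For `r < M` let `φ_r = aeval (fun i => C (b i) + C p * X i) φ`: `eval (a (n₀ + r + M n)) φ = eval (y n) φ_r = ∑_j binom(n,j) c_j` (INT).  STR: either this is `0` for all `n`, or only for finitely many `n`.  So there is `n₁ ≥ n₀` such that for every `n ≥ n₁`: `eval (a n) φ = 0 ↔ eval (a (n + M)) φ = 0` (write `n = n₀ + r + M n'`, `r < M`). -/
def S_PDM : Prop := ∀ (p : ℕ) [Fact p.Prime] (N : ℕ) (f : Fin N → MvPolynomial (Fin N) ℤ_[p])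
  (a : ℕ → Fin N → ℤ_[p]) (φ : MvPolynomial (Fin N) ℤ_[p]), 3 ≤ p → IsUnit (jac f).det →
    (∀ n i, a (n + 1) i = eval (a n) (f i)) → EvPer fun n => eval (a n) φ = 0

/-! ## The embedding theorem of Cassels -/

/-- PACKET PDV (0.6 h): prime divisors of the values of a polynomial.

PROOF.  `c = P(0)`.  If `c = 0` take any prime `p > n` and `a = 0`.  Otherwise `P(c n! k) = c (1 + n! k Q(k))` with `Q(k) ∈ ℤ` (all terms of positive degree are divisible by `c n! k`); as `P` is not constant, for a suitable `k` this value is not `c`, `-c`, `0` (`P` takes each value finitely often), so `1 + n! k Q(k)` has a prime divisor `p`, and `p > n` because `p` does not divide `n!`. -/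
def S_PDV : Prop := ∀ P : Polynomial ℤ, 0 < P.natDegree → ∀ n : ℕ, ∃ p : ℕ, p.Prime ∧ n < p ∧
  ∃ a : ℤ, (p : ℤ) ∣ P.eval a

/-- PACKET AIP (1 h): algebraically independent p-adic integers with given residues.

PROOF.  `ℚ_[p]` is uncountable (`ℤ_[p]` is a nonempty perfect complete space, or it contains the injective image `∑ ε_i p^i` of the sequences of zeros and ones), and a field that is algebraic over a countable field is countable, so `ℚ_[p]` has infinite transcendence degree over `ℚ`: there are `c_1, …, c_r ∈ ℚ_[p]`, algebraically independent over `ℚ`.  For a large `s`, `p^s c_i ∈ p ℤ_[p]`; `t_i = a_i + p^s c_i`: still algebraically independent over `ℚ` (an affine substitution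
over `ℚ`), so over `ℤ`. -/
def S_AIP : Prop := ∀ (p : ℕ) [Fact p.Prime] (r : ℕ) (a : Fin r → ℤ), ∃ t : Fin r → ℤ_[p],
  AlgebraicIndependent ℤ t ∧ ∀ i, (p : ℤ_[p]) ∣ t i - (a i : ℤ_[p])

/-- PACKET EMA (2 h): the structure of finitely generated fields.

PROOF.  `A = ℤ[T_1, …, T_r]`.  `F = ℚ(S) ⊂ ℂ`.  `t` = a transcendence basis of `F/ℚ` (a finite family), algebraically independent over `ℚ`, so over `ℤ`; `F₀ = ℚ(t)`, `F/F₀` is finite and separable, `F = F₀(θ₁)` (primitive element).  There is `0 ≠ c ∈ ℤ[t]` such that `θ = c θ₁` is integral over `ℤ[t] ≅ A` (algebraic: clear the leading coefficient).  `P` = minimal polynomial of `θ` over `ℤ[t]` (`minpoly (ℤ[t]) θ`, monic; `ℤ[t] ≅ A` is integrally closed), so `P ∣ Q` iff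
`Q(θ) = 0` (`minpoly.isIntegrallyClosed_dvd_iff`), and its image over `F₀` is the minimal polynomial over `F₀`, which is separable: `U₁ P + V₁ P' = 1` over `F₀ = Frac`, multiply by a common denominator `D₁`.  Each `s ∈ S ⊂ F = F₀[θ]` is `(1/D_s) Q_s(θ)` with `Q_s ∈ A[X]`, `0 ≠ D_s ∈ A`.  `D = D₁ ∏_s D_s`. -/
def S_EMA : Prop := ∀ S : Set ℂ, S.Finite →
  ∃ (r : ℕ) (t : Fin r → ℂ) (θ : ℂ) (P : Polynomial (MvPolynomial (Fin r) ℤ)) (D : MvPolynomial (Fin r) ℤ),
    AlgebraicIndependent ℤ t ∧ P.Monic ∧ 0 < P.natDegree ∧ D ≠ 0 ∧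
    (∀ Q : Polynomial (MvPolynomial (Fin r) ℤ),
      P ∣ Q ↔ Q.eval₂ ((aeval t : MvPolynomial (Fin r) ℤ →ₐ[ℤ] ℂ) : MvPolynomial (Fin r) ℤ →+* ℂ) θ = 0) ∧
    (∃ U V : Polynomial (MvPolynomial (Fin r) ℤ), U * P + V * Polynomial.derivative P = Polynomial.C D) ∧
    ∀ s ∈ S, ∃ Q : Polynomial (MvPolynomial (Fin r) ℤ), aeval t D * s =
      Q.eval₂ ((aeval t : MvPolynomial (Fin r) ℤ →ₐ[ℤ] ℂ) : MvPolynomial (Fin r) ℤ →+* ℂ) θ

/-- PACKET EMB (2 h; uses EMA, PDV, AIP): the embedding theorem of Cassels.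

PROOF.  `A = ℤ[T_1, …, T_r]`.  Choose `a ∈ ℤ^r` with `D(a) ≠ 0`; `P_a ∈ ℤ[X]` monic of positive degree.  PDV: a prime `p > max(3, |D(a)|)` and `θ₀ ∈ ℤ` with `p ∣ P_a(θ₀)`; `p ∤ D(a)`.  AIP: `t' ∈ ℤ_[p]^r`, `t'_i ≡ a_i`, algebraically independent over `ℤ`.  `P' := P(t'; X) ∈ ℤ_[p][X]`: `P'(θ₀) ≡ P_a(θ₀) ≡ 0 mod p`, and `U P + V (dP/dX) = D` at `(t', θ₀)` gives
`V · (dP'/dX)(θ₀) ≡ D(a) ≢ 0 mod p`, so `|(dP'/dX)(θ₀)| = 1`; Hensel (`hensels_lemma`): `θ' ∈ ℤ_[p]`, `P'(θ') = 0`.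
`φ : A[X] → ℂ` at `(t, θ)`, `ψ : A[X] → ℤ_[p]` at `(t', θ')`.  `ker φ = (P)`.  `ker ψ = (P)`: `⊃` is clear.  Let `ψ(Q) = 0`, and suppose `φ(Q) ≠ 0`.  `φ(Q)` is integral over `φ(A)` (`θ` is), so it divides a nonzero element of `φ(A)` in `φ(A)[θ]` (constant coefficient of its minimal polynomial): `φ(β) φ(Q) = φ(c)`, `β ∈ A[X]`, `0 ≠ c ∈ A`.  So `β Q - c ∈ ker φ = (P)`, apply `ψ`: `c(t') = 0`, contradiction
to the algebraic independence of `t'`.  So there is an injective ring homomorphism `ι : φ(A[X]) → ℤ_[p]` with `ι ∘ φ = ψ`, which extends to the fraction fields: `Φ : Frac φ(A[X]) → ℚ_[p]` (subfield of `ℂ`).  For `s ∈ S`: `s = φ(Q)/φ(D)`, `Φ(s) = ψ(Q)/D(t')`, and `D(t') ≡ D(a)` is a unit of `ℤ_[p]`: `Φ(s) ∈ ℤ_[p]`.  So `Φ` maps `ℤ[S]` to `ℤ_[p]`. -/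
def S_EMB : Prop := ∀ S : Set ℂ, S.Finite → ∃ (p : ℕ) (_ : Fact p.Prime) (σ : Algebra.adjoin ℤ S →+* ℤ_[p]),
  3 ≤ p ∧ Function.Injective σ

/-- PACKET ETD (1.2 h; uses EMB, PDM): the Mordell-Lang property.

PROOF.  `S` = the finite set of the images in `ℂ` of the coefficients of the `f i`, of `φ` and of the inverse `u` of `(jac f).det` (a polynomial; `u * det = 1`), and of the `x 0 i`.  `A = Algebra.adjoin ℤ S`.  There are polynomials `f̃ i, φ̃, ũ` over `A` whose images over `ℂ` are the images of `f i, φ, u`, and `x̃ n ∈ A^N` with image `x n` (`x̃ (n+1) = eval (x̃ n) f̃`).  `ũ * (jac f̃).det = 1` (`MvPolynomial.map` along `A → ℂ` is injective and commutes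
with `pderiv` and `det`).  EMB: `σ : A → ℤ_[p]` injective, `p ≥ 3`.  PDM for `map σ (f̃ i)`, `a n i = σ (x̃ n i)`, `map σ φ̃`: `eval (a n) (map σ φ̃) = σ (eval (x̃ n) φ̃)`, which is `0` iff `eval (x̃ n) φ̃ = 0` iff `aeval (x n) φ = 0`. -/
def S_ETD : Prop := ∀ (K : Type) [Field K] [Algebra K ℂ] (N : ℕ) (f : Fin N → MvPolynomial (Fin N) K)
  (x : ℕ → Fin N → ℂ) (φ : MvPolynomial (Fin N) K), IsUnit (jac f).det →
    (∀ n i, x (n + 1) i = aeval (x n) (f i)) → EvPer fun n => aeval (x n) φ = 0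

end Pool.Agent.Helper10.GO
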