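import Pool.Agent.Helper10.GO.Val
import Pool.Agent.Helper10.GO.All
import Pool.Agent.Helper40.GO.GoalsQ

/-!
# Project GO (MP_6af536_nt): the final statement.
-/

set_option autoImplicit false

open MvPolynomial Filter Topology

noncomputable section

namespace Pool.Agent.Helper10.GO

open Pool.Agent.Helper80.HD Pool.Agent.Helper80.AD Pool.Agent.Helper40.GO

/-- The final statement. -/
def S_RES : Prop := ∀ (K : Type) [Field K] [NumberField K] [Algebra K ℂ] (N : ℕ) (f : QMap K N),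
    (∀ (k : ℕ) (x : ℕ → Fin (N + 1) → ℂ), f.IsOrbit x → Algebra.trdeg K (ratioField K (x 0)) = k →
      (DML K x ∨ (∀ y, InClosure K x y → Algebra.trdeg K (ratioField K y) ≤ (k : Cardinal) + 1) ∨
        ∃ (r : ℕ) (P : Fin r → MvPolynomial (Fin (N + 1)) K), (∀ c, ∃ e : ℕ, 1 ≤ e ∧ (P c).IsHomogeneous e) ∧
          (∃ c, aeval (x 0) (P c) ≠ 0) ∧ UnrOn f P) →
      ∃ α : ℝ, (1 ≤ α ∨ α = 0 ∧ ∀ᶠ n in atTop, arithDeg K k x n = 0) ∧ ∀ D : ℕ → ℝ, Cmp D (arithDeg K k x) →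
        Tendsto (fun n : ℕ => D n ^ (1 / (n : ℝ))) atTop (𝓝 α)) ∧
    ∀ (a : ℕ) (η : Fin (N + 1) → ℂ), 1 ≤ a → η ≠ 0 →
      ∃ M : Finset ℝ, (M.card : Cardinal) ≤ Algebra.trdeg K (ratioField K η) ∧ (∀ m ∈ M, 0 < m) ∧
        ∀ (k b : ℕ) (x : ℕ → Fin (N + 1) → ℂ), f.IsOrbit x → Algebra.trdeg K (ratioField K (x 0)) = k →
          GenericAt K η x a b →
          (∀ᶠ n in atTop, arithDeg K k x n = 0) ∨ ∃ l : Fin (k + 1) → ℝ, (∀ i, l i ∈ insert 1 M) ∧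
            ∀ D : ℕ → ℝ, Cmp D (arithDeg K k x) →
              Tendsto (fun n : ℕ => D n ^ (1 / (n : ℝ))) atTop (𝓝 ((∏ i, l i) ^ (1 / (a : ℝ))))

theorem res_of (hUNR : S_UNR) : S_RES := by
  intro K _ _ _ N f
  refine ⟨fun k x hx htr h => ?_, val_of facts K N f⟩
  refine go K N f k x hx htr fun htn => ?_
  rcases h with h | h | ⟨r, P, hP, h0, hU⟩
  · exact h
  · exact dml_of_small hx htn h
  · exact hUNR K N f x (Fin r) P hx hP h0 hU

end Pool.Agent.Helper10.GO
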