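import Pool.Agent.Helper10.GO.Eta
import Pool.Agent.Helper40.GO.HYP

/-!
# Project GO (MP_6af536_nt): orbits whose closure has dimension at most `k + 1`.
-/

set_option autoImplicit false

open MvPolynomial Filter Topology

noncomputable section

namespace Pool.Agent.Helper10.GO

open Pool.Agent.Helper80.HD Pool.Agent.Helper80.AD

section closure

variable {K : Type} [Field K] [Algebra K ℂ] {N : ℕ}

/-- `y` is in the `K`-closure of the orbit -/
def InClosure (K : Type) [Field K] [Algebra K ℂ] {N : ℕ} (x : ℕ → Fin (N + 1) → ℂ) (y : Fin (N + 1) → ℂ) : Prop :=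
  y ≠ 0 ∧ ∀ (d : ℕ) (E : MvPolynomial (Fin (N + 1)) K), E.IsHomogeneous d → (∀ n, aeval (x n) E = 0) → aeval y E = 0

theorem aeval_comp' {N : ℕ} (G : Fin (N + 1) → MvPolynomial (Fin (N + 1)) K) (y : Fin (N + 1) → ℂ)
    (E : MvPolynomial (Fin (N + 1)) K) : aeval y (aeval G E) = aeval (fun j => aeval y (G j)) E := by
  rw [← AlgHom.comp_apply, comp_aeval]

/-- the values of all the formulas at the points of an orbit -/
theorem orbit_formula {f : QMap K N} {x : ℕ → Fin (N + 1) → ℂ} (hx : f.IsOrbit x) (hmem : ∀ n, f.Mem (x n)) (n : ℕ)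
    (l : Fin f.r) : ∃ c : ℂ, ∀ j, aeval (x n) (f.G l j) = c * x (n + 1) j := by
  obtain ⟨hy0, l', c, hc, h1⟩ := hx.2 n
  obtain ⟨j₀, hj₀⟩ : ∃ j, x (n + 1) j ≠ 0 := Function.ne_iff.1 hy0
  refine ⟨aeval (x n) (f.G l j₀) / x (n + 1) j₀, fun j => ?_⟩
  have h2 := f.agree (x n) (hmem n).1 (hmem n).2 l l' j j₀
  rw [h1 j₀, h1 j] at h2
  have h3 : c * (aeval (x n) (f.G l j) * x (n + 1) j₀) = c * (aeval (x n) (f.G l j₀) * x (n + 1) j) := by
    linear_combination h2
  have h4 := mul_left_cancel₀ hc h3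
  field_simp
  linear_combination h4

/-- the restriction of a rational map to the closure of an orbit -/
def restr (f : QMap K N) (x : ℕ → Fin (N + 1) → ℂ) (hx : f.IsOrbit x) (hmem : ∀ n, f.Mem (x n)) : QMap K N where
  eqs := {E | (∃ d, E.IsHomogeneous d) ∧ ∀ n, aeval (x n) E = 0}
  eqs_homog := fun _ hE => hE.1
  r := f.r
  deg := f.deg
  G := f.G
  G_homog := f.G_homog
  agree := fun y hy h => f.agree y hy fun E hE => h E ⟨f.eqs_homog E hE, fun n => (hmem n).2 E hE⟩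
  maps := by
    rintro y hy h l E ⟨⟨d, hd⟩, hE⟩
    rw [← aeval_comp']
    refine h _ ⟨⟨f.deg l * d, ?_⟩, fun n => ?_⟩
    · exact hd.aeval _ (f.G_homog l)
    · obtain ⟨c, hc⟩ := orbit_formula hx hmem n l
      rw [aeval_comp', funext hc, aeval_mul_left hd, hE, mul_zero]

end closure

/-- Every orbit whose closure has dimension at most `k + 1` satisfies `DML`. -/
theorem dml_of_small {K : Type} [Field K] [NumberField K] [Algebra K ℂ] {N : ℕ} {f : QMap K N} {k : ℕ}
    {x : ℕ → Fin (N + 1) → ℂ} (hx : f.IsOrbit x) (htr : ∀ n, Algebra.trdeg K (ratioField K (x n)) = k)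
    (h : ∀ y, InClosure K x y → Algebra.trdeg K (ratioField K y) ≤ (k : Cardinal) + 1) : DML K x := by
  have hmem := ((Pool.Agent.Helper24.GO.qorb K N f).2.2 x hx).1
  refine Pool.Agent.Helper40.GO.hyp K N (restr f x hx hmem) x k ⟨⟨hx.1.1, fun E hE => hE.2 0⟩, hx.2⟩ htr fun y hy => ?_
  exact h y ⟨hy.1, fun d E hE h0 => hy.2 E ⟨⟨d, hE⟩, h0⟩⟩

end Pool.Agent.Helper10.GO
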