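import Pool.Agent.Helper10.GO.Small

/-!
# Project GO (MP_6af536_nt): the values of the limits.
-/

set_option autoImplicit false

open MvPolynomial Filter Topology

noncomputable section

namespace Pool.Agent.Helper10.GO

open Pool.Agent.Helper80.HD Pool.Agent.Helper80.AD

/-- The progression `x b, x (a + b), x (2 a + b), …` is generic on the closed set with the generic point `η`: a form over
`K` vanishes at all its points with finitely many exceptions if it vanishes at `η`, and only at finitely many of them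
otherwise. -/
def GenericAt (K : Type) [Field K] [Algebra K ℂ] {N : ℕ} (η : Fin (N + 1) → ℂ) (x : ℕ → Fin (N + 1) → ℂ)
    (a b : ℕ) : Prop :=
  ∀ (d : ℕ) (E : MvPolynomial (Fin (N + 1)) K), E.IsHomogeneous d →
    (aeval η E = 0 → ∀ᶠ n in atTop, aeval (x (a * n + b)) E = 0) ∧
    (aeval η E ≠ 0 → ∀ᶠ n in atTop, aeval (x (a * n + b)) E ≠ 0)

section

variable {K : Type} [Field K] [Algebra K ℂ] {N : ℕ}

/-- composition of formulas -/
def compF (f : QMap K N) : List (Fin f.r) → Fin (N + 1) → MvPolynomial (Fin (N + 1)) K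
  | [] => X
  | (l :: ls) => fun j => aeval (f.G l) (compF f ls j)

theorem compF_hom (f : QMap K N) (ls : List (Fin f.r)) : ∃ e, ∀ j, (compF f ls j).IsHomogeneous e := by
  induction ls with
  | nil => exact ⟨1, fun j => isHomogeneous_X K j⟩
  | cons l ls ih =>
    obtain ⟨e, he⟩ := ih
    exact ⟨f.deg l * e, fun j => (he j).aeval _ (f.G_homog l)⟩

theorem compF_all {f : QMap K N} {x : ℕ → Fin (N + 1) → ℂ} (hx : f.IsOrbit x) (hmem : ∀ n, f.Mem (x n))
    (ls : List (Fin f.r)) : ∀ n, ∃ c : ℂ, ∀ j, aeval (x n) (compF f ls j) = c * x (n + ls.length) j := by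
  induction ls with
  | nil => exact fun n => ⟨1, fun j => by simp [compF]⟩
  | cons l ls ih =>
    intro n
    obtain ⟨c₁, h1⟩ := orbit_formula hx hmem n l
    obtain ⟨c₂, h2⟩ := ih (n + 1)
    obtain ⟨e, he⟩ := compF_hom f ls
    refine ⟨c₁ ^ e * c₂, fun j => ?_⟩
    show aeval (x n) (aeval (f.G l) (compF f ls j)) = _
    rw [aeval_comp', funext h1, aeval_mul_left (he j), h2 j, List.length_cons, mul_assoc,
      show n + 1 + ls.length = n + (ls.length + 1) by omega]

theorem compF_good {f : QMap K N} {x : ℕ → Fin (N + 1) → ℂ} (hx : f.IsOrbit x) (a : ℕ) :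
    ∀ n, ∃ ls : List (Fin f.r), ls.length = a ∧ ∃ c : ℂ, c ≠ 0 ∧
      ∀ j, aeval (x n) (compF f ls j) = c * x (n + a) j := by
  induction a with
  | zero => exact fun n => ⟨[], rfl, 1, one_ne_zero, fun j => by simp [compF]⟩
  | succ a ih =>
    intro n
    obtain ⟨-, l, c₁, hc₁, h1⟩ := hx.2 n
    obtain ⟨ls, hls, c₂, hc₂, h2⟩ := ih (n + 1)
    obtain ⟨e, he⟩ := compF_hom f ls
    refine ⟨l :: ls, by rw [List.length_cons, hls], c₁ ^ e * c₂, mul_ne_zero (pow_ne_zero _ hc₁) hc₂, fun j => ?_⟩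
    show aeval (x n) (aeval (f.G l) (compF f ls j)) = _
    rw [aeval_comp', funext h1, aeval_mul_left (he j), h2 j, mul_assoc,
      show n + 1 + a = n + (a + 1) by omega]

end

/-- The values of the limits. -/
def S_VAL : Prop := ∀ (K : Type) [Field K] [NumberField K] [Algebra K ℂ] (N : ℕ) (f : QMap K N) (a : ℕ)
  (η : Fin (N + 1) → ℂ), 1 ≤ a → η ≠ 0 →
  ∃ M : Finset ℝ, (M.card : Cardinal) ≤ Algebra.trdeg K (ratioField K η) ∧ (∀ m ∈ M, 0 < m) ∧
    ∀ (k b : ℕ) (x : ℕ → Fin (N + 1) → ℂ), f.IsOrbit x → Algebra.trdeg K (ratioField K (x 0)) = k →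
      GenericAt K η x a b →
      (∀ᶠ n in atTop, arithDeg K k x n = 0) ∨ ∃ l : Fin (k + 1) → ℝ, (∀ i, l i ∈ insert 1 M) ∧
        ∀ D : ℕ → ℝ, Cmp D (arithDeg K k x) →
          Tendsto (fun n : ℕ => D n ^ (1 / (n : ℝ))) atTop (𝓝 ((∏ i, l i) ^ (1 / (a : ℝ))))

theorem val_of (hF : Facts) : S_VAL := by
  intro K _ _ _ N f a η ha hη
  by_cases hex : ∃ (z : ℕ → Fin (N + 1) → ℂ) (b : ℕ), f.IsOrbit z ∧ GenericAt K η z a b
  swap
  · refine ⟨∅, by simp, by simp, fun k b x hx _ hg => (hex ⟨x, b, hx, hg⟩).elim⟩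
  obtain ⟨z, b₀, hz, hzgen⟩ := hex
  obtain ⟨hzm, -⟩ := (hF.QORB K N f).2.2 z hz
  obtain ⟨δ, Γ, ξ, hξ0, hAP⟩ := hF.GENB K N f z a b₀ η hz ha hη hzgen
  obtain ⟨Λ, d, V, G, hL⟩ := exists_lam hF.VOL hF.VSUB hF.FEK hAP.gen
  have htrη : Algebra.trdeg K (ratioField K η) = d := by rw [← hξ0]; exact hL.tr
  -- the formula Γ represents the iterate
  have hrel : ∀ ls : List (Fin f.r), ls.length = a → ∀ i j,
      aeval η (Γ i * compF f ls j - Γ j * compF f ls i) = 0 := by
    intro ls hls i j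
    obtain ⟨e, he⟩ := compF_hom f ls
    have hh : (Γ i * compF f ls j - Γ j * compF f ls i).IsHomogeneous (δ + e) :=
      ((hAP.gen.hom i).mul (he j)).sub ((hAP.gen.hom j).mul (he i))
    by_contra hcon
    obtain ⟨n, hn1, c, hc, hn2⟩ := ((hzgen _ _ hh).2 hcon |>.and hAP.step).exists
    obtain ⟨c', hc'⟩ := compF_all hz hzm ls (a * n + b₀)
    rw [hls, show a * n + b₀ + a = a * (n + 1) + b₀ by ring] at hc'
    apply hn1
    rw [map_sub, map_mul, map_mul, hn2 i, hn2 j, hc' i, hc' j]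
    ring
  obtain ⟨p, hp⟩ : ∃ p, aeval η (Γ p) ≠ 0 := by
    by_contra hcon
    push Not at hcon
    have h1 : ∀ᶠ n in atTop, ∀ j, aeval (z (a * n + b₀)) (Γ j) = 0 :=
      eventually_all.2 fun j => (hzgen _ _ (hAP.gen.hom j)).1 (hcon j)
    obtain ⟨n, hn1, c, hc, hn2⟩ := (h1.and hAP.step).exists
    apply (hzm (a * (n + 1) + b₀)).1
    funext j
    have h2 := hn2 j
    rw [hn1 j] at h2
    exact (mul_eq_zero.1 h2.symm).resolve_left hc
  have ha0 : (a : ℝ) ≠ 0 := by positivity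
  refine ⟨Λ.image Real.exp, ?_, ?_, ?_⟩
  · rw [htrη]
    exact_mod_cast Finset.card_image_le.trans hL.card
  · intro m hm
    obtain ⟨s, -, rfl⟩ := Finset.mem_image.1 hm
    exact Real.exp_pos s
  intro k b x hx htr hg
  rcases setup hF hx htr with h0 | ⟨htn, E, D, y, C, hXA, hxy, hC, hcmp⟩
  · exact Or.inl h0
  right
  obtain ⟨hmem, -⟩ := (hF.QORB K N f).2.2 x hx
  have hAPx : GenAP K N δ Γ ξ x a b := by
    refine ⟨hAP.gen, fun d' E' hE' h => (hg d' E' hE').1 (by rwa [hξ0] at h), fun d' E' hE' h =>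
      (hg d' E' hE').2 (by rwa [hξ0] at h), ?_⟩
    have hfin : Set.Finite {ls : List (Fin f.r) | ls.length = a} := List.finite_length_eq _ _
    have h1 : ∀ᶠ n in atTop, ∀ ls ∈ {ls : List (Fin f.r) | ls.length = a}, ∀ i j,
        aeval (x (a * n + b)) (Γ i * compF f ls j - Γ j * compF f ls i) = 0 := by
      rw [Filter.eventually_all_finite hfin]
      intro ls hls
      rw [eventually_all]
      intro i
      rw [eventually_all]
      intro j
      obtain ⟨e, he⟩ := compF_hom f ls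
      exact (hg _ _ (((hAP.gen.hom i).mul (he j)).sub ((hAP.gen.hom j).mul (he i)))).1 (hrel ls hls i j)
    filter_upwards [(hg _ _ (hAP.gen.hom p)).2 hp, h1] with n hn hn1
    obtain ⟨ls, hls, c, hc, h2⟩ := compF_good hx a (a * n + b)
    rw [show a * n + b + a = a * (n + 1) + b by ring] at h2
    have hy0 := (hmem (a * (n + 1) + b)).1
    have key : ∀ i, aeval (x (a * n + b)) (Γ i) * x (a * (n + 1) + b) p =
        aeval (x (a * n + b)) (Γ p) * x (a * (n + 1) + b) i := by
      intro i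
      have h3 := hn1 ls hls i p
      rw [map_sub, map_mul, map_mul, h2 p, h2 i] at h3
      have h4 : c * (aeval (x (a * n + b)) (Γ i) * x (a * (n + 1) + b) p) =
          c * (aeval (x (a * n + b)) (Γ p) * x (a * (n + 1) + b) i) := by
        linear_combination h3
      exact mul_left_cancel₀ hc h4
    have hxp : x (a * (n + 1) + b) p ≠ 0 := by
      intro h0
      apply hy0
      funext i
      have h3 := key i
      rw [h0, mul_zero] at h3
      exact (mul_eq_zero.1 h3.symm).resolve_left hn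
    refine ⟨aeval (x (a * n + b)) (Γ p) / x (a * (n + 1) + b) p, div_ne_zero hn hxp, fun i => ?_⟩
    have h3 := key i
    field_simp
    linear_combination h3
  obtain ⟨l, hl, hlim⟩ := ap_limit hF.UREL hF.UPL hF.TRANS hF.RECK hF.LLIP hF.JD hF.MAIND hXA hx hxy ha hAPx hL
  obtain ⟨hE, hD1⟩ := hXA.basic
  refine ⟨fun i => Real.exp (l i), fun i => ?_, fun D' hD' => ?_⟩
  · show Real.exp (l i) ∈ _
    rcases Finset.mem_insert.1 (hl i) with h | h
    · rw [h, Real.exp_zero]
      exact Finset.mem_insert_self _ _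
    · exact Finset.mem_insert_of_mem (Finset.mem_image_of_mem _ h)
  · have h1 := root_final (fun n => zero_lt_one.trans_le ((hD1 _).trans (UU_ge hE hD1 _ 0))) hC hcmp hlim hD'
    rwa [← Real.exp_sum, ← Real.exp_mul, mul_one_div]

end Pool.Agent.Helper10.GO
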